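import Pool.Agent.EG327.Recur
import Pool.Agent.PNT.Short

set_option autoImplicit false

namespace Pool.Agent.EG327

open Finset Real Filter
open scoped Classical

theorem Big_mono {ε ε' : ℝ} {u : ℕ} (h : ε' ≤ ε) (hB : Big ε u) : Big ε' u := by
  obtain ⟨A, h1, h2, h3⟩ := hB
  refine ⟨A, h1, h2, le_trans ?_ h3⟩
  apply mul_le_mul_of_nonneg_right _ (by positivity)
  linarith

theorem Big_step {ε : ℝ} {u v : ℕ} (hε : 0 < ε) (hε1 : ε ≤ 1) (hB : Big ε u) (huv : u ≤ v)
    (hv : (v : ℝ) ≤ Real.exp (ε / 4) * u) : Big (ε / 2) v := by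
  obtain ⟨A, h1, h2, h3⟩ := hB
  refine ⟨A, h1.trans (Finset.Icc_subset_Icc_right huv), h2, le_trans ?_ h3⟩
  have hu : (0 : ℝ) ≤ u := by positivity
  have h4 : (1 - ε / 4) * Real.exp (ε / 4) ≤ 1 := by
    have h5 := Real.add_one_le_exp (-(ε / 4))
    have h6 : (1 - ε / 4) ≤ Real.exp (-(ε / 4)) := by linarith
    have h7 := mul_le_mul_of_nonneg_right h6 (Real.exp_pos (ε / 4)).le
    rwa [← Real.exp_add, neg_add_cancel, Real.exp_zero] at h7
  have h5 : (1 / 2 + ε / 2) ≤ (1 / 2 + ε) * (1 - ε / 4) := by nlinarith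
  calc (1 / 2 + ε / 2) * (v : ℝ) ≤ (1 / 2 + ε / 2) * (Real.exp (ε / 4) * u) :=
        mul_le_mul_of_nonneg_left hv (by linarith)
    _ ≤ ((1 / 2 + ε) * (1 - ε / 4)) * (Real.exp (ε / 4) * u) := by
        apply mul_le_mul_of_nonneg_right h5 (by positivity)
    _ = (1 / 2 + ε) * (u * ((1 - ε / 4) * Real.exp (ε / 4))) := by ring
    _ ≤ (1 / 2 + ε) * (u * 1) := by
        apply mul_le_mul_of_nonneg_left _ (by linarith)
        exact mul_le_mul_of_nonneg_left h4 hu
    _ = (1 / 2 + ε) * u := by ring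

/-- window index -/
noncomputable def idx (l : ℝ) (u : ℕ) : ℕ := ⌊Real.log u / l⌋₊

theorem idx_le {l : ℝ} (hl : 0 < l) {u : ℕ} (hu : 1 ≤ u) : Real.exp (idx l u * l) ≤ u := by
  have hu0 : (0 : ℝ) < u := by exact_mod_cast hu
  have h1 : 0 ≤ Real.log u / l := div_nonneg (Real.log_nonneg (by exact_mod_cast hu)) hl.le
  have h2 : (idx l u : ℝ) ≤ Real.log u / l := Nat.floor_le h1
  calc Real.exp (idx l u * l) ≤ Real.exp (Real.log u) :=
        Real.exp_le_exp.2 ((le_div_iff₀ hl).1 h2)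
    _ = u := Real.exp_log hu0

theorem lt_idx {l : ℝ} (hl : 0 < l) {u : ℕ} (hu : 1 ≤ u) :
    (u : ℝ) < Real.exp ((idx l u + 1) * l) := by
  have hu0 : (0 : ℝ) < u := by exact_mod_cast hu
  have h2 : Real.log u / l < idx l u + 1 := Nat.lt_floor_add_one _
  calc (u : ℝ) = Real.exp (Real.log u) := (Real.exp_log hu0).symm
    _ < _ := Real.exp_lt_exp.2 ((div_lt_iff₀ hl).1 h2)

theorem windows_card {l : ℝ} (hl : 0 < l) (hl1 : l ≤ 1) (T : Finset ℕ) (hT : ∀ u ∈ T, 1 ≤ u) :
    ∑ u ∈ T, (1 : ℝ) / u ≤ 3 * ((T.image (idx l)).card : ℝ) := by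
  rw [← Finset.sum_fiberwise_of_maps_to (fun u hu => Finset.mem_image_of_mem (idx l) hu)]
  have h1 : ∀ i ∈ T.image (idx l), ∑ u ∈ T.filter (fun u => idx l u = i), (1 : ℝ) / u ≤ 3 := by
    intro i _
    have h2 : ∀ u ∈ T.filter (fun u => idx l u = i), (1 : ℝ) / u ≤ Real.exp (-(i * l)) := by
      intro u hu
      obtain ⟨hu1, hu2⟩ := Finset.mem_filter.1 hu
      have h3 := idx_le hl (hT u hu1)
      rw [hu2] at h3
      have h4 := Real.exp_pos (i * l)
      rw [Real.exp_neg, one_div]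
      exact inv_anti₀ h4 h3
    refine (Finset.sum_le_card_nsmul _ _ _ h2).trans ?_
    rw [nsmul_eq_mul]
    have h3 : T.filter (fun u => idx l u = i) ⊆ Finset.Icc 1 ⌊Real.exp ((i + 1) * l)⌋₊ := by
      intro u hu
      obtain ⟨hu1, hu2⟩ := Finset.mem_filter.1 hu
      have h4 := lt_idx hl (hT u hu1)
      rw [hu2] at h4
      exact Finset.mem_Icc.2 ⟨hT u hu1, Nat.le_floor h4.le⟩
    have h4 := Finset.card_le_card h3
    rw [Nat.card_Icc, Nat.add_sub_cancel] at h4
    have h5 : ((T.filter (fun u => idx l u = i)).card : ℝ) ≤ Real.exp ((i + 1) * l) := by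
      refine le_trans ?_ (Nat.floor_le (Real.exp_pos ((i + 1) * l)).le)
      exact_mod_cast h4
    calc ((T.filter (fun u => idx l u = i)).card : ℝ) * Real.exp (-(i * l))
        ≤ Real.exp ((i + 1) * l) * Real.exp (-(i * l)) :=
          mul_le_mul_of_nonneg_right h5 (Real.exp_pos _).le
      _ = Real.exp l := by rw [← Real.exp_add]; congr 1; ring
      _ ≤ Real.exp 1 := Real.exp_le_exp.2 hl1
      _ ≤ 3 := by have := Real.exp_one_lt_d9; linarith
  refine (Finset.sum_le_card_nsmul _ _ _ h1).trans ?_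
  rw [nsmul_eq_mul, mul_comm]

/-- primes in a window -/
noncomputable def PW (l x : ℝ) : Finset ℕ :=
  (Finset.Ioc ⌊1 * x⌋₊ ⌊Real.exp l * x⌋₊).filter Nat.Prime

theorem mem_PW {l x : ℝ} (hx : 0 < x) {p : ℕ} :
    p ∈ PW l x ↔ x < p ∧ (p : ℝ) ≤ Real.exp l * x ∧ p.Prime := by
  unfold PW
  rw [Finset.mem_filter, Finset.mem_Ioc, one_mul, Nat.floor_lt hx.le, Nat.le_floor_iff (by positivity)]
  tauto

theorem card_PW {l : ℝ} (hl : 0 < l) :
    ∃ x0 : ℝ, 1 < x0 ∧ ∀ x : ℝ, x0 ≤ x → l / 2 * x / Real.log x ≤ ((PW l x).card : ℝ) := by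
  have h1 : l / 2 < Real.exp l - 1 := by
    have := Real.add_one_le_exp l
    linarith
  have h2 := Pool.Agent.PNT.primes_interval (α := 1) (β := Real.exp l) (c := l / 2) one_pos
    (Real.one_le_exp hl.le) h1
  obtain ⟨x0, h3⟩ := Filter.eventually_atTop.1 h2
  refine ⟨max x0 2, lt_of_lt_of_le (by norm_num) (le_max_right _ _), fun x hx => ?_⟩
  exact (h3 x ((le_max_left _ _).trans hx)).le

/-- the main counting step for a single `N` -/
theorem count_step {ε l : ℝ} (hε : 0 < ε) (hε1 : ε ≤ 1) (hl : l = ε / 8) {N n Y X : ℕ}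
    (hN : N ≤ 2 * n * n) (hY : 2 / ε ≤ Y) {x0 : ℝ} (hx01 : 1 < x0)
    (hx0 : ∀ x : ℝ, x0 ≤ x → l / 2 * x / Real.log x ≤ ((PW l x).card : ℝ))
    (hX1 : x0 * (3 * X) ≤ N) (hX2 : 2 * n * (3 * X) ≤ (N : ℝ)) :
    ∃ B : Finset ℕ, B ⊆ Finset.Icc 1 N ∧ Adm B ∧
      (N : ℝ) / 2 + (∑ u ∈ (Finset.Ioc Y X).filter (Big ε), (1 : ℝ) / u) *
        (ε ^ 2 / 500 * (N / Real.log N)) ≤ (B.card : ℝ) := by
  have hl0 : 0 < l := by rw [hl]; positivity
  have hl1 : l ≤ 1 / 8 := by rw [hl]; linarith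
  have hY0 : 1 ≤ Y := by
    rcases Nat.eq_zero_or_pos Y with h | h
    · exfalso
      subst h
      have : 0 < 2 / ε := by positivity
      rw [Nat.cast_zero] at hY
      linarith
    · exact h
  set T := (Finset.Ioc Y X).filter (Big ε) with hT
  rcases T.eq_empty_or_nonempty with hTe | hTne
  · refine ⟨Odds N, Odds_sub N, adm_Odds N, ?_⟩
    rw [hTe, Finset.sum_empty, zero_mul, add_zero, card_Odds]
    have h1 : N ≤ 2 * ((N + 1) / 2) := by omega
    have h2 : (N : ℝ) ≤ 2 * (((N + 1) / 2 : ℕ) : ℝ) := by exact_mod_cast h1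
    linarith
  have hX0 : 1 ≤ X := by
    obtain ⟨u, hu⟩ := hTne
    have := Finset.mem_Ioc.1 (Finset.mem_filter.1 hu).1
    omega
  have hXr : (1 : ℝ) ≤ X := by exact_mod_cast hX0
  have hNpos : (0 : ℝ) < N := by
    have h1 : 0 < x0 * (3 * (X : ℝ)) := by positivity
    linarith
  -- the size parameter of a window
  set xw : ℕ → ℝ := fun i => N * Real.exp (-((i + 2) * l)) with hxw
  have hxpos : ∀ i, 0 < xw i := fun i => by rw [hxw]; positivity
  have hTu : ∀ u ∈ T, 1 ≤ u ∧ Y < u ∧ u ≤ X ∧ Big ε u := by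
    intro u hu
    obtain ⟨h1, h2⟩ := Finset.mem_filter.1 hu
    have h3 := Finset.mem_Ioc.1 h1
    exact ⟨by omega, h3.1, h3.2, h2⟩
  -- the windows are low
  have hexp : ∀ u ∈ T, Real.exp ((idx l u + 2) * l) ≤ 3 * X := by
    intro u hu
    obtain ⟨h1, h2, h3, h4⟩ := hTu u hu
    have h5 := idx_le hl0 h1
    have e1 : Real.exp ((idx l u + 2) * l) = Real.exp (idx l u * l) * Real.exp (2 * l) := by
      rw [← Real.exp_add]; congr 1; ring
    have h6 : Real.exp (2 * l) ≤ 3 := by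
      have h7 : Real.exp (2 * l) ≤ Real.exp 1 := Real.exp_le_exp.2 (by linarith)
      have := Real.exp_one_lt_d9
      linarith
    have h7 : (u : ℝ) ≤ X := by exact_mod_cast h3
    rw [e1]
    calc Real.exp (idx l u * l) * Real.exp (2 * l) ≤ X * 3 :=
          mul_le_mul (h5.trans h7) h6 (Real.exp_pos _).le (by positivity)
      _ = 3 * X := by ring
  have hxlow : ∀ u ∈ T, ∀ z : ℝ, 0 ≤ z → z * (3 * X) ≤ N → z ≤ xw (idx l u) := by
    intro u hu z hz0 hz
    have h1 := hexp u hu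
    have h2 := Real.exp_pos ((idx l u + 2) * l)
    show z ≤ N * Real.exp (-((idx l u + 2) * l))
    rw [Real.exp_neg, ← div_eq_mul_inv, le_div_iff₀ h2]
    exact (mul_le_mul_of_nonneg_left h1 hz0).trans hz
  set J := T.image (idx l) with hJ
  set P := J.biUnion (fun i => PW l (xw i)) with hP
  -- all primes in `P` have a good quotient
  have hgood : ∀ i ∈ J, ∀ p ∈ PW l (xw i), p.Prime ∧ 2 * n < p ∧ Big (ε / 2) (N / p) ∧
      2 / ε ≤ ((N / p : ℕ) : ℝ) ∧ Real.exp (i * l) ≤ ((N / p : ℕ) : ℝ) := by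
    intro i hi p hp
    obtain ⟨u, hu, rfl⟩ := Finset.mem_image.1 hi
    obtain ⟨hu1, hu2, hu3, hu4⟩ := hTu u hu
    obtain ⟨hp1, hp2, hp3⟩ := (mem_PW (hxpos _)).1 hp
    have hp0 : (0 : ℝ) < p := by exact_mod_cast hp3.pos
    have hu0 : (1 : ℝ) ≤ u := by exact_mod_cast hu1
    have h5 := idx_le hl0 hu1
    have h6 := lt_idx hl0 hu1
    have e2 : Real.exp l * xw (idx l u) = N * Real.exp (-((idx l u + 1) * l)) := by
      show Real.exp l * (N * Real.exp (-((idx l u + 2) * l))) = _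
      rw [mul_left_comm, ← Real.exp_add]; congr 2; ring
    rw [e2] at hp2
    have h7 : (u : ℝ) * p ≤ N := by
      calc (u : ℝ) * p ≤ Real.exp ((idx l u + 1) * l) * (N * Real.exp (-((idx l u + 1) * l))) :=
            mul_le_mul h6.le hp2 hp0.le (Real.exp_pos _).le
        _ = N * (Real.exp ((idx l u + 1) * l) * Real.exp (-((idx l u + 1) * l))) := by ring
        _ = N := by rw [← Real.exp_add, add_neg_cancel, Real.exp_zero, mul_one]
    have h8 : u ≤ N / p := by
      rw [Nat.le_div_iff_mul_le hp3.pos]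
      exact_mod_cast h7
    have h9 : ((N / p : ℕ) : ℝ) ≤ Real.exp (ε / 4) * u := by
      have h10 : ((N / p : ℕ) : ℝ) ≤ N / p := Nat.cast_div_le
      refine h10.trans ?_
      rw [div_le_iff₀ hp0]
      have h11 : (N : ℝ) = Real.exp ((idx l u + 2) * l) * xw (idx l u) := by
        show (N : ℝ) = Real.exp ((idx l u + 2) * l) * (N * Real.exp (-((idx l u + 2) * l)))
        rw [mul_left_comm, ← Real.exp_add, add_neg_cancel, Real.exp_zero, mul_one]
      have h12 : Real.exp ((idx l u + 2) * l) ≤ Real.exp (ε / 4) * u := by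
        have e1 : Real.exp ((idx l u + 2) * l) = Real.exp (2 * l) * Real.exp (idx l u * l) := by
          rw [← Real.exp_add]; congr 1; ring
        rw [e1, show 2 * l = ε / 4 by rw [hl]; ring]
        exact mul_le_mul_of_nonneg_left h5 (Real.exp_pos _).le
      calc (N : ℝ) = Real.exp ((idx l u + 2) * l) * xw (idx l u) := h11
        _ ≤ (Real.exp (ε / 4) * u) * p :=
            mul_le_mul h12 hp1.le (hxpos _).le (by positivity)
    have h10 : (u : ℝ) ≤ ((N / p : ℕ) : ℝ) := by exact_mod_cast h8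
    refine ⟨hp3, ?_, Big_step hε hε1 hu4 h8 h9, ?_, h5.trans h10⟩
    · have h11 := hxlow u hu (2 * n) (by positivity) hX2
      have h12 : (2 * n : ℝ) < p := by linarith
      exact_mod_cast h12
    · have h11 : (Y : ℝ) ≤ u := by exact_mod_cast hu2.le
      linarith
  have hPgood : ∀ p ∈ P, p.Prime ∧ 2 * n < p ∧ Big (ε / 2) (N / p) := by
    intro p hp
    obtain ⟨i, hi, hp2⟩ := Finset.mem_biUnion.1 hp
    obtain ⟨h1, h2, h3, _⟩ := hgood i hi p hp2
    exact ⟨h1, h2, h3⟩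
  -- the sets
  set A : ℕ → Finset ℕ := fun p => if h : Big (ε / 2) (N / p) then h.choose else ∅ with hA
  have hAspec : ∀ p, Big (ε / 2) (N / p) → A p ⊆ Finset.Icc 1 (N / p) ∧ Adm (A p) ∧
      (1 / 2 + ε / 2) * ((N / p : ℕ) : ℝ) ≤ ((A p).card : ℝ) := by
    intro p hp
    have e : A p = hp.choose := by
      show (if h : Big (ε / 2) (N / p) then h.choose else ∅) = _
      rw [dif_pos hp]
    rw [e]
    exact hp.choose_spec
  obtain ⟨B, hB1, hB2, hB3⟩ := recursion hN P (fun p hp => ⟨(hPgood p hp).1, (hPgood p hp).2.1⟩) A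
    (fun p hp => ⟨(hAspec p (hPgood p hp).2.2).1, (hAspec p (hPgood p hp).2.2).2.1⟩)
  refine ⟨B, hB1, hB2, ?_⟩
  -- the gain
  have hgain : ∀ i ∈ J, ∀ p ∈ PW l (xw i),
      ε / 4 * Real.exp (i * l) ≤ ((A p).card : ℝ) - ((Odds (N / p)).card : ℝ) := by
    intro i hi p hp
    obtain ⟨h1, h2, h3, h4, h5⟩ := hgood i hi p hp
    have h6 := (hAspec p h3).2.2
    have h7 : ((Odds (N / p)).card : ℝ) ≤ (((N / p : ℕ) : ℝ) + 1) / 2 := by
      rw [card_Odds, le_div_iff₀ (by norm_num)]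
      have : (N / p + 1) / 2 * 2 ≤ N / p + 1 := Nat.div_mul_le_self _ _
      exact_mod_cast this
    have h8 : 1 ≤ ε / 2 * ((N / p : ℕ) : ℝ) := by
      rw [div_le_iff₀ hε] at h4
      linarith
    have h9 := mul_le_mul_of_nonneg_left h5 (show (0 : ℝ) ≤ ε / 4 by positivity)
    linarith
  have hdisj : (J : Set ℕ).PairwiseDisjoint (fun i => PW l (xw i)) := by
    have key : ∀ i j : ℕ, i < j → ∀ p, p ∈ PW l (xw i) → p ∈ PW l (xw j) → False := by
      intro i j hij p hp hp2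
      obtain ⟨h1, _, _⟩ := (mem_PW (hxpos _)).1 hp
      obtain ⟨_, h2, _⟩ := (mem_PW (hxpos _)).1 hp2
      have e2 : Real.exp l * xw j = N * Real.exp (-((j + 1) * l)) := by
        show Real.exp l * (N * Real.exp (-((j + 2) * l))) = _
        rw [mul_left_comm, ← Real.exp_add]; congr 2; ring
      rw [e2] at h2
      have h3 : N * Real.exp (-((j + 1) * l)) ≤ xw i := by
        show _ ≤ N * Real.exp (-(((i : ℕ) + 2) * l))
        apply mul_le_mul_of_nonneg_left _ hNpos.le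
        apply Real.exp_le_exp.2
        have h4 : (i : ℝ) + 1 ≤ j := by exact_mod_cast hij
        nlinarith
      linarith
    intro i _ j _ hij
    rw [Function.onFun, Finset.disjoint_left]
    intro p hp hp2
    rcases Nat.lt_or_gt_of_ne hij with h | h
    · exact key i j h p hp hp2
    · exact key j i h p hp2 hp
  have hsumP : ∑ i ∈ J, ((PW l (xw i)).card : ℝ) * (ε / 4 * Real.exp (i * l)) ≤
      ∑ p ∈ P, (((A p).card : ℝ) - ((Odds (N / p)).card : ℝ)) := by
    rw [hP, Finset.sum_biUnion hdisj]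
    apply Finset.sum_le_sum
    intro i hi
    have := Finset.card_nsmul_le_sum (PW l (xw i)) _ _ (hgain i hi)
    rwa [nsmul_eq_mul] at this
  -- each window contributes
  have hwin : ∀ i ∈ J, ε ^ 2 / 150 * (N / Real.log N) ≤
      ((PW l (xw i)).card : ℝ) * (ε / 4 * Real.exp (i * l)) := by
    intro i hi
    obtain ⟨u, hu, hui⟩ := Finset.mem_image.1 hi
    have h1 : x0 ≤ xw i := by
      have := hxlow u hu x0 (by linarith) hX1
      rwa [hui] at this
    have h2 := hx0 (xw i) h1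
    have hxN : xw i ≤ N := by
      show N * Real.exp (-((i + 2) * l)) ≤ N
      have : Real.exp (-((i + 2) * l)) ≤ 1 := by
        rw [Real.exp_le_one_iff]
        have : (0 : ℝ) ≤ (i + 2) * l := by positivity
        linarith
      nlinarith
    have hlogx : 0 < Real.log (xw i) := Real.log_pos (by linarith)
    have hlog : Real.log (xw i) ≤ Real.log N := Real.log_le_log (hxpos i) hxN
    have h3 : l / 2 * xw i / Real.log N ≤ ((PW l (xw i)).card : ℝ) := by
      refine le_trans ?_ h2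
      apply div_le_div_of_nonneg_left _ hlogx hlog
      have := hxpos i
      positivity
    have h4 : 0 < Real.log N := lt_of_lt_of_le hlogx hlog
    have h5 : Real.exp (-(2 * l)) * N = xw i * Real.exp (i * l) := by
      show _ = N * Real.exp (-((i + 2) * l)) * Real.exp (i * l)
      rw [mul_assoc, ← Real.exp_add, mul_comm]
      congr 2; ring
    have h6 : (3 / 4 : ℝ) ≤ Real.exp (-(2 * l)) := by
      have := Real.add_one_le_exp (-(2 * l))
      linarith
    have h7 : (0 : ℝ) ≤ ε / 4 * Real.exp (i * l) := by positivity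
    have h8 := mul_le_mul_of_nonneg_right h3 h7
    refine le_trans ?_ h8
    have e1 : l / 2 * xw i / Real.log N * (ε / 4 * Real.exp (i * l)) =
        (ε * l / 8) * ((Real.exp (-(2 * l)) * N) / Real.log N) := by
      rw [h5]; field_simp; ring
    rw [e1, hl]
    have h9 : 0 ≤ (N : ℝ) / Real.log N := by positivity
    have h10 : (3 / 4 : ℝ) * (N / Real.log N) ≤ (Real.exp (-(2 * (ε / 8))) * N) / Real.log N := by
      rw [mul_div_assoc]
      apply mul_le_mul_of_nonneg_right _ h9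
      rw [← hl]; exact h6
    have h11 := mul_le_mul_of_nonneg_left h10 (show (0 : ℝ) ≤ ε * (ε / 8) / 8 by positivity)
    refine le_trans ?_ h11
    have e2 : ε * (ε / 8) / 8 * (3 / 4 * (N / Real.log N)) = ε ^ 2 * 3 / 256 * (N / Real.log N) := by
      ring
    rw [e2]
    apply mul_le_mul_of_nonneg_right _ h9
    nlinarith [sq_nonneg ε]
  have hwsum := Finset.card_nsmul_le_sum J _ _ hwin
  rw [nsmul_eq_mul] at hwsum
  have hcard := windows_card hl0 (by linarith) T (fun u hu => (hTu u hu).1)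
  have hNlog : 0 ≤ (N : ℝ) / Real.log N := by
    have : 0 ≤ Real.log N := Real.log_natCast_nonneg N
    positivity
  have hoddN : (N : ℝ) / 2 ≤ ((Odds N).card : ℝ) := by
    rw [card_Odds]
    have h1 : N ≤ 2 * ((N + 1) / 2) := by omega
    have h2 : (N : ℝ) ≤ 2 * (((N + 1) / 2 : ℕ) : ℝ) := by exact_mod_cast h1
    linarith
  have hB4 : ((Odds N).card : ℝ) + ∑ p ∈ P, ((A p).card : ℝ) ≤
      (B.card : ℝ) + ∑ p ∈ P, ((Odds (N / p)).card : ℝ) := by exact_mod_cast hB3
  rw [Finset.sum_sub_distrib] at hsumP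
  have hfin : (∑ u ∈ T, (1 : ℝ) / u) * (ε ^ 2 / 500 * (N / Real.log N)) ≤
      (J.card : ℝ) * (ε ^ 2 / 150 * (N / Real.log N)) := by
    have h1 : 0 ≤ ε ^ 2 / 500 * (N / Real.log N) := by positivity
    refine (mul_le_mul_of_nonneg_right hcard h1).trans ?_
    have h2 : (0 : ℝ) ≤ (J.card : ℝ) * (ε ^ 2 * (N / Real.log N)) := by positivity
    have e1 : 3 * (J.card : ℝ) * (ε ^ 2 / 500 * (N / Real.log N)) =
        3 / 500 * ((J.card : ℝ) * (ε ^ 2 * (N / Real.log N))) := by ring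
    have e2 : (J.card : ℝ) * (ε ^ 2 / 150 * (N / Real.log N)) =
        1 / 150 * ((J.card : ℝ) * (ε ^ 2 * (N / Real.log N))) := by ring
    rw [e1, e2]
    apply mul_le_mul_of_nonneg_right _ h2
    norm_num
  linarith

/-- There is `ε > 0` such that for all large `N` some admissible subset of `{1, ..., N}` has at
least `(1/2 + ε) N` elements. -/
theorem all_N : ∃ ε : ℝ, 0 < ε ∧ ∃ N₀ : ℕ, ∀ N : ℕ, N₀ ≤ N → Big ε N := by
  obtain ⟨M, ε', η, K, I1, hε', hη, hK, hlm'⟩ := log_mass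
  set ε := min ε' 1 with hεdef
  have hε : 0 < ε := lt_min hε' one_pos
  have hε1 : ε ≤ 1 := min_le_right _ _
  have hlm : ∀ I, I1 ≤ I → ∀ X Y : ℕ, K * 2 ^ ((M + 1) * I) ≤ Real.log X →
      Real.log Y ≤ η * 2 ^ ((M + 1) * I) →
      η * 2 ^ ((M + 1) * I) ≤ ∑ n ∈ (Finset.Ioc Y X).filter (Big ε), (1 : ℝ) / n := by
    intro I hI X Y hX hY
    refine (hlm' I hI X Y hX hY).trans ?_
    apply Finset.sum_le_sum_of_subset_of_nonneg
    · intro n hn
      obtain ⟨h1, h2⟩ := Finset.mem_filter.1 hn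
      exact Finset.mem_filter.2 ⟨h1, Big_mono (min_le_left _ _) h2⟩
    · intro n _ _; positivity
  clear_value ε
  clear hlm' hε' hεdef ε'
  obtain ⟨l, hl⟩ : ∃ l : ℝ, l = ε / 8 := ⟨_, rfl⟩
  have hl0 : 0 < l := by rw [hl]; positivity
  obtain ⟨x0, hx01, hx0⟩ := card_PW hl0
  obtain ⟨Y, hY⟩ := exists_nat_gt (2 / ε)
  obtain ⟨y, hy⟩ : ∃ y : ℝ, y = 2 ^ (M + 1) := ⟨_, rfl⟩
  have hy1 : 1 < y := by rw [hy]; exact one_lt_pow₀ (by norm_num) (by omega)
  have hpow : ∀ I : ℕ, (2 : ℝ) ^ ((M + 1) * I) = y ^ I := by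
    intro I; rw [hy, pow_mul]
  -- thresholds for `log N`
  obtain ⟨l0, hl0def⟩ : ∃ l0 : ℝ, l0 = 8 * K * y ^ (I1 + 1) + 8 * K * (y * (|Real.log Y| / η)) +
      8 * K + 20 * x0 + 40 := ⟨_, rfl⟩
  refine ⟨η / (8 * K * y) * (ε ^ 2 / 500), by positivity, ⌈Real.exp l0⌉₊ + 1, ?_⟩
  intro N hN
  have hNreal : Real.exp l0 ≤ N := by
    have h1 : ⌈Real.exp l0⌉₊ ≤ N := by omega
    exact (Nat.le_ceil _).trans (by exact_mod_cast h1)
  have hNpos : (0 : ℝ) < N := lt_of_lt_of_le (Real.exp_pos _) hNreal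
  obtain ⟨g, hg⟩ : ∃ g : ℝ, g = Real.log N := ⟨_, rfl⟩
  have hgN : Real.exp g = N := by rw [hg, Real.exp_log hNpos]
  have hgl : l0 ≤ g := by rw [hg]; exact (Real.le_log_iff_exp_le hNpos).2 hNreal
  have p1 : 0 < 8 * K * y ^ (I1 + 1) := by positivity
  have p2 : 0 ≤ 8 * K * (y * (|Real.log Y| / η)) := by positivity
  have hg1 : 8 * K * y ^ (I1 + 1) ≤ g := by linarith
  have hg2 : 8 * K * (y * (|Real.log Y| / η)) ≤ g := by linarith
  have hg3 : 8 * K ≤ g := by linarith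
  have hg4 : 20 * x0 + 40 ≤ g := by linarith
  -- choice of `I`
  have hx1 : 1 ≤ g / (8 * K) := by rw [le_div_iff₀ (by positivity)]; linarith
  obtain ⟨I, hI1, hI2⟩ := exists_nat_pow_near hx1 hy1
  have hIge : I1 ≤ I := by
    have h1 : y ^ (I1 + 1) < y ^ (I + 1) := by
      refine lt_of_le_of_lt ?_ hI2
      rw [le_div_iff₀ (by positivity)]; linarith
    have h2 := (pow_lt_pow_iff_right₀ hy1).1 h1
    omega
  have hKI : K * y ^ I ≤ g / 8 := by
    rw [le_div_iff₀ (by positivity)] at hI1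
    linarith
  have hIlow : g / (8 * K * y) ≤ y ^ I := by
    rw [div_le_iff₀ (by positivity)]
    rw [div_lt_iff₀ (by positivity), pow_succ] at hI2
    linarith
  obtain ⟨X, hX⟩ : ∃ X : ℕ, X = ⌈Real.exp (K * y ^ I)⌉₊ := ⟨_, rfl⟩
  have hXlow : Real.exp (K * y ^ I) ≤ X := by rw [hX]; exact Nat.le_ceil _
  have hXpos : (0 : ℝ) < X := lt_of_lt_of_le (Real.exp_pos _) hXlow
  have hlogX : K * y ^ I ≤ Real.log X := (Real.le_log_iff_exp_le hXpos).2 hXlow
  have hXup : (X : ℝ) ≤ 2 * Real.exp (g / 8) := by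
    have h1 : (X : ℝ) < Real.exp (K * y ^ I) + 1 := by
      rw [hX]; exact Nat.ceil_lt_add_one (Real.exp_pos _).le
    have h2 : Real.exp (K * y ^ I) ≤ Real.exp (g / 8) := Real.exp_le_exp.2 hKI
    have h3 : 1 ≤ Real.exp (g / 8) := Real.one_le_exp (by linarith)
    linarith
  have hlogY : Real.log Y ≤ η * y ^ I := by
    have h1 : |Real.log Y| / η ≤ y ^ I := by
      refine le_trans ?_ hIlow
      rw [le_div_iff₀ (by positivity)]
      linarith
    rw [div_le_iff₀ hη] at h1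
    have := le_abs_self (Real.log Y)
    linarith
  have hmass := hlm I hIge X Y (by rw [hpow]; exact hlogX) (by rw [hpow]; exact hlogY)
  rw [hpow] at hmass
  -- choice of `n`
  obtain ⟨n, hn⟩ : ∃ n : ℕ, n = Nat.sqrt N + 1 := ⟨_, rfl⟩
  have hNn : N ≤ 2 * n * n := by
    have h1 := Nat.lt_succ_sqrt N
    rw [Nat.succ_eq_add_one, ← hn] at h1
    have h2 : 2 * n * n = n * n + n * n := by ring
    omega
  have hnr : (n : ℝ) ≤ Real.exp (g / 2) + 1 := by
    have h1 : ((Nat.sqrt N : ℕ) : ℝ) ≤ Real.exp (g / 2) := by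
      have h2 : Nat.sqrt N * Nat.sqrt N ≤ N := Nat.sqrt_le N
      have h3 : ((Nat.sqrt N : ℕ) : ℝ) * ((Nat.sqrt N : ℕ) : ℝ) ≤ N := by exact_mod_cast h2
      have h4 : (N : ℝ) = Real.exp (g / 2) * Real.exp (g / 2) := by
        rw [← Real.exp_add, ← hgN]; congr 1; ring
      rw [h4] at h3
      exact abs_le_of_sq_le_sq' (by nlinarith) (Real.exp_pos _).le |>.2
    rw [hn]; push_cast; linarith
  have hE1 : 1 ≤ Real.exp (g / 2) := Real.one_le_exp (by linarith)
  have hE3 : g / 8 * 3 + 1 ≤ Real.exp (3 * g / 8) := by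
    have := Real.add_one_le_exp (3 * g / 8)
    linarith
  have hE3' : 15 ≤ Real.exp (3 * g / 8) := by linarith
  have hEN : (N : ℝ) = Real.exp (g / 2) * Real.exp (3 * g / 8) * Real.exp (g / 8) := by
    rw [← Real.exp_add, ← Real.exp_add, ← hgN]; congr 1; ring
  have hE8 := Real.exp_pos (g / 8)
  have hc1 : x0 * (3 * X) ≤ N := by
    have h1 : x0 * (3 * (X : ℝ)) ≤ (6 * x0) * Real.exp (g / 8) := by
      have := mul_le_mul_of_nonneg_left hXup (show (0 : ℝ) ≤ 3 * x0 by linarith)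
      linarith
    refine h1.trans ?_
    rw [hEN]
    apply mul_le_mul_of_nonneg_right _ hE8.le
    have h2 : 6 * x0 ≤ Real.exp (g / 2) := by
      have := Real.add_one_le_exp (g / 2)
      linarith
    nlinarith
  have hc2 : 2 * n * (3 * X) ≤ (N : ℝ) := by
    have h1 : (n : ℝ) ≤ 2 * Real.exp (g / 2) := by linarith
    have h2 : (0 : ℝ) ≤ n := by positivity
    calc 2 * (n : ℝ) * (3 * X) = 6 * (n * X) := by ring
      _ ≤ 6 * ((2 * Real.exp (g / 2)) * (2 * Real.exp (g / 8))) := by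
          apply mul_le_mul_of_nonneg_left _ (by norm_num)
          exact mul_le_mul h1 hXup hXpos.le (by positivity)
      _ = (Real.exp (g / 2) * 24) * Real.exp (g / 8) := by ring
      _ ≤ _ := by
          rw [hEN]
          apply mul_le_mul_of_nonneg_right _ hE8.le
          apply mul_le_mul_of_nonneg_left _ (Real.exp_pos _).le
          have h5 : 24 ≤ g / 8 * 3 + 1 + 15 := by linarith
          have h6 := Real.add_one_le_exp (3 * g / 16)
          have h7 : Real.exp (3 * g / 8) = Real.exp (3 * g / 16) * Real.exp (3 * g / 16) := by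
            rw [← Real.exp_add]; congr 1; ring
          have h8 : 8 ≤ Real.exp (3 * g / 16) := by linarith
          rw [h7]
          nlinarith
  obtain ⟨B, hB1, hB2, hB3⟩ := count_step hε hε1 hl (N := N) (n := n) (Y := Y) (X := X) hNn hY.le
    hx01 hx0 hc1 hc2
  refine ⟨B, hB1, hB2, le_trans ?_ hB3⟩
  rw [← hg]
  have hgpos : 0 < g := by linarith
  have h1 : η / (8 * K * y) * g ≤ ∑ u ∈ (Finset.Ioc Y X).filter (Big ε), (1 : ℝ) / u := by
    refine le_trans ?_ hmass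
    have := mul_le_mul_of_nonneg_left hIlow hη.le
    calc η / (8 * K * y) * g = η * (g / (8 * K * y)) := by ring
      _ ≤ _ := this
  have h2 : 0 ≤ ε ^ 2 / 500 * (N / g) := by positivity
  have h3 := mul_le_mul_of_nonneg_right h1 h2
  have h4 : η / (8 * K * y) * g * (ε ^ 2 / 500 * (N / g)) =
      η / (8 * K * y) * (ε ^ 2 / 500) * N := by
    field_simp
  rw [h4] at h3
  linarith

end Pool.Agent.EG327
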