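import Pool.Agent.EG327.Mertens

set_option autoImplicit false

namespace Pool.Agent.EG327

open Finset Real

/-! ### Elementary symmetric sums and Bonferroni inequalities -/

/-- elementary symmetric sums -/
noncomputable def es (P : Finset ℕ) (u : ℕ → ℝ) (j : ℕ) : ℝ :=
  ∑ D ∈ P.powersetCard j, ∏ p ∈ D, u p

theorem es_zero (P : Finset ℕ) (u : ℕ → ℝ) : es P u 0 = 1 := by
  simp [es]

theorem es_empty_succ (u : ℕ → ℝ) (j : ℕ) : es ∅ u (j + 1) = 0 := by
  unfold es
  rw [Finset.powersetCard_eq_empty.2 (by simp)]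
  simp

theorem es_insert_succ {P : Finset ℕ} {q : ℕ} (hq : q ∉ P) (u : ℕ → ℝ) (j : ℕ) :
    es (insert q P) u (j + 1) = es P u (j + 1) + u q * es P u j := by
  unfold es
  rw [← Nat.succ_eq_add_one, Finset.powersetCard_succ_insert hq, Finset.sum_union]
  · congr 1
    rw [Finset.sum_image]
    · rw [Finset.mul_sum]
      apply Finset.sum_congr rfl
      intro D hD
      rw [Finset.prod_insert]
      intro h
      exact hq ((Finset.mem_powersetCard.1 hD).1 h)
    · intro D hD E hE h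
      have hD' : q ∉ D := fun h => hq ((Finset.mem_powersetCard.1 hD).1 h)
      have hE' : q ∉ E := fun h => hq ((Finset.mem_powersetCard.1 hE).1 h)
      have := congrArg (fun A => A.erase q) h
      simpa [Finset.erase_insert hD', Finset.erase_insert hE'] using this
  · rw [Finset.disjoint_left]
    intro D hD hD2
    rw [Finset.mem_image] at hD2
    obtain ⟨E, hE, rfl⟩ := hD2
    exact hq ((Finset.mem_powersetCard.1 hD).1 (Finset.mem_insert_self _ _))

theorem es_nonneg (P : Finset ℕ) (u : ℕ → ℝ) (hu : ∀ p ∈ P, 0 ≤ u p) (j : ℕ) : 0 ≤ es P u j := by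
  unfold es
  apply Finset.sum_nonneg
  intro D hD
  apply Finset.prod_nonneg
  intro p hp
  exact hu p ((Finset.mem_powersetCard.1 hD).1 hp)

theorem es_le (P : Finset ℕ) (u : ℕ → ℝ) (hu : ∀ p ∈ P, 0 ≤ u p) (j : ℕ) :
    es P u j ≤ (∑ p ∈ P, u p) ^ j / (j.factorial : ℝ) := by
  induction P using Finset.induction_on generalizing j with
  | empty =>
    cases j with
    | zero => simp [es_zero]
    | succ j => simp [es_empty_succ]
  | insert q P hq ih =>
    have hu' : ∀ p ∈ P, 0 ≤ u p := fun p hp => hu p (Finset.mem_insert_of_mem hp)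
    cases j with
    | zero => simp [es_zero]
    | succ j =>
      rw [es_insert_succ hq, Finset.sum_insert hq]
      have h1 := ih hu' (j + 1)
      have h2 := ih hu' j
      have hq0 : 0 ≤ u q := hu q (Finset.mem_insert_self _ _)
      set s := ∑ p ∈ P, u p with hs
      have hs0 : 0 ≤ s := Finset.sum_nonneg hu'
      have h3 : s ^ (j + 1) + (j + 1) * s ^ j * u q ≤ (u q + s) ^ (j + 1) := by
        have hgen : ∀ n : ℕ, s ^ (n + 1) + (n + 1) * s ^ n * u q ≤ (u q + s) ^ (n + 1) := by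
          intro n
          induction n with
          | zero => simp; linarith
          | succ n ihn =>
            have e : (u q + s) ^ (n + 1 + 1) = (u q + s) * (u q + s) ^ (n + 1) := by ring
            rw [e]
            have h4 : (u q + s) * (s ^ (n + 1) + (n + 1) * s ^ n * u q) ≤
                (u q + s) * (u q + s) ^ (n + 1) := by
              apply mul_le_mul_of_nonneg_left ihn; positivity
            refine le_trans ?_ h4
            have h5 : 0 ≤ (n + 1) * s ^ n * u q * u q := by positivity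
            push_cast
            have : (u q + s) * (s ^ (n + 1) + (n + 1) * s ^ n * u q) =
              s ^ (n + 1 + 1) + ((n : ℝ) + 1 + 1) * s ^ (n + 1) * u q + (n + 1) * s ^ n * u q * u q := by
              ring
            rw [this]
            linarith
        exact hgen j
      have h4 : ((j + 1).factorial : ℝ) = (j + 1) * (j.factorial : ℝ) := by
        rw [Nat.factorial_succ]; push_cast; ring
      have h5 : (0 : ℝ) < j.factorial := by exact_mod_cast Nat.factorial_pos j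
      calc es P u (j + 1) + u q * es P u j
          ≤ s ^ (j + 1) / ((j + 1).factorial : ℝ) + u q * (s ^ j / (j.factorial : ℝ)) := by
            gcongr
        _ = (s ^ (j + 1) + (j + 1) * s ^ j * u q) / ((j + 1).factorial : ℝ) := by
            rw [h4]; field_simp
        _ ≤ _ := by gcongr

/-- truncated alternating sum -/
noncomputable def Tr (P : Finset ℕ) (u : ℕ → ℝ) (n : ℕ) : ℝ :=
  ∑ j ∈ Finset.range (n + 1), (-1 : ℝ) ^ j * es P u j

theorem Tr_zero (P : Finset ℕ) (u : ℕ → ℝ) : Tr P u 0 = 1 := by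
  simp [Tr, es_zero]

theorem Tr_succ (P : Finset ℕ) (u : ℕ → ℝ) (n : ℕ) :
    Tr P u (n + 1) = Tr P u n + (-1 : ℝ) ^ (n + 1) * es P u (n + 1) := by
  unfold Tr; rw [Finset.sum_range_succ]

theorem Tr_empty (u : ℕ → ℝ) (n : ℕ) : Tr ∅ u n = 1 := by
  induction n with
  | zero => exact Tr_zero _ _
  | succ n ih => rw [Tr_succ, ih, es_empty_succ]; simp

theorem Tr_insert_succ {P : Finset ℕ} {q : ℕ} (hq : q ∉ P) (u : ℕ → ℝ) (n : ℕ) :
    Tr (insert q P) u (n + 1) = Tr P u (n + 1) - u q * Tr P u n := by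
  induction n with
  | zero =>
    rw [Tr_succ, Tr_zero, Tr_succ, Tr_zero, es_insert_succ hq, es_zero]
    ring
  | succ n ih =>
    rw [Tr_succ (insert q P), ih, es_insert_succ hq, Tr_succ P u (n + 1), Tr_succ P u n]
    ring

theorem bonferroni (P : Finset ℕ) (u : ℕ → ℝ) (hu0 : ∀ p ∈ P, 0 ≤ u p) (hu1 : ∀ p ∈ P, u p ≤ 1)
    (n : ℕ) : 0 ≤ (-1 : ℝ) ^ n * (Tr P u n - ∏ p ∈ P, (1 - u p)) := by
  induction P using Finset.induction_on generalizing n with
  | empty => rw [Tr_empty]; simp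
  | insert q P hq ih =>
    have hu0' : ∀ p ∈ P, 0 ≤ u p := fun p hp => hu0 p (Finset.mem_insert_of_mem hp)
    have hu1' : ∀ p ∈ P, u p ≤ 1 := fun p hp => hu1 p (Finset.mem_insert_of_mem hp)
    have hq0 : 0 ≤ u q := hu0 q (Finset.mem_insert_self _ _)
    cases n with
    | zero =>
      rw [Tr_zero]
      simp only [pow_zero, one_mul, sub_nonneg]
      apply Finset.prod_le_one
      · intro p hp; linarith [hu1 p hp]
      · intro p hp; linarith [hu0 p hp]
    | succ n =>
      rw [Tr_insert_succ hq, Finset.prod_insert hq]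
      have h1 := ih hu0' hu1' (n + 1)
      have h2 := ih hu0' hu1' n
      have h3 : (-1 : ℝ) ^ (n + 1) * (Tr P u (n + 1) - u q * Tr P u n - (1 - u q) * ∏ p ∈ P, (1 - u p))
          = (-1 : ℝ) ^ (n + 1) * (Tr P u (n + 1) - ∏ p ∈ P, (1 - u p)) +
            u q * ((-1 : ℝ) ^ n * (Tr P u n - ∏ p ∈ P, (1 - u p))) := by
        rw [pow_succ]; ring
      rw [h3]
      have := mul_nonneg hq0 h2
      linarith

theorem prod_le_Tr (P : Finset ℕ) (u : ℕ → ℝ) (hu0 : ∀ p ∈ P, 0 ≤ u p) (hu1 : ∀ p ∈ P, u p ≤ 1)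
    (r : ℕ) : ∏ p ∈ P, (1 - u p) ≤ Tr P u (2 * r) := by
  have h := bonferroni P u hu0 hu1 (2 * r)
  rw [pow_mul] at h
  norm_num at h
  linarith

theorem Tr_le_prod (P : Finset ℕ) (u : ℕ → ℝ) (hu0 : ∀ p ∈ P, 0 ≤ u p) (hu1 : ∀ p ∈ P, u p ≤ 1)
    (r : ℕ) : Tr P u (2 * r) ≤ ∏ p ∈ P, (1 - u p) + es P u (2 * r + 1) := by
  have h := bonferroni P u hu0 hu1 (2 * r + 1)
  rw [Tr_succ] at h
  have e1 : (-1 : ℝ) ^ (2 * r + 1) = -1 := by
    rw [pow_succ, pow_mul]; norm_num
  rw [e1] at h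
  linarith

theorem sum_es_le (P : Finset ℕ) (u : ℕ → ℝ) (hu : ∀ p ∈ P, 0 ≤ u p) (n : ℕ) :
    ∑ j ∈ Finset.range (n + 1), es P u j ≤ (1 + ∑ p ∈ P, u p) ^ n := by
  set s := ∑ p ∈ P, u p with hs
  have hs0 : 0 ≤ s := Finset.sum_nonneg hu
  have h1 : ∀ j, es P u j ≤ s ^ j := by
    intro j
    refine (es_le P u hu j).trans ?_
    apply div_le_self (by positivity)
    exact_mod_cast Nat.factorial_pos j
  have h2 : ∑ j ∈ Finset.range (n + 1), s ^ j ≤ (1 + s) ^ n := by
    induction n with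
    | zero => simp
    | succ n ih =>
      rw [Finset.sum_range_succ]
      have h3 : s ^ (n + 1) ≤ s * (1 + s) ^ n := by
        rw [pow_succ']
        apply mul_le_mul_of_nonneg_left _ hs0
        apply pow_le_pow_left₀ hs0; linarith
      have h4 : (1 + s) ^ (n + 1) = (1 + s) ^ n + s * (1 + s) ^ n := by ring
      linarith
  exact (Finset.sum_le_sum fun j _ => h1 j).trans h2

/-! ### Periodic functions -/

theorem periodic_mul {h : ℕ → ℝ} {d : ℕ} (hh : ∀ s, h (s + d) = h s) (k s : ℕ) :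
    h (s + d * k) = h s := by
  induction k with
  | zero => simp
  | succ k ih => rw [mul_add, mul_one, ← add_assoc, hh, ih]

theorem sum_period_shift {h : ℕ → ℝ} {d : ℕ} (hh : ∀ s, h (s + d) = h s) (a : ℕ) :
    ∑ i ∈ Finset.range d, h (a + i) = ∑ i ∈ Finset.range d, h i := by
  induction a with
  | zero => simp
  | succ a ih =>
    rw [← ih]
    have h1 : ∑ i ∈ Finset.range (d + 1), h (a + i) = ∑ i ∈ Finset.range d, h (a + i) + h (a + d) :=
      Finset.sum_range_succ _ _
    have h2 : ∑ i ∈ Finset.range (d + 1), h (a + i) = ∑ i ∈ Finset.range d, h (a + (i + 1)) + h (a + 0) :=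
      Finset.sum_range_succ' _ _
    have h3 : ∀ i, h (a + 1 + i) = h (a + (i + 1)) := fun i => by congr 1; ring
    simp only [h3]
    rw [hh, h1] at *
    simp only [add_zero] at h2
    linarith

theorem sum_periods {h : ℕ → ℝ} {d : ℕ} (hh : ∀ s, h (s + d) = h s) (a k : ℕ) :
    ∑ i ∈ Finset.range (d * k), h (a + i) = k * ∑ i ∈ Finset.range d, h i := by
  induction k with
  | zero => simp
  | succ k ih =>
    rw [mul_add, mul_one, Finset.sum_range_add, ih]
    have h1 : ∀ i, h (a + (d * k + i)) = h (a + i) := by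
      intro i
      rw [show a + (d * k + i) = (a + i) + d * k by ring, periodic_mul hh]
    simp only [h1]
    rw [sum_period_shift hh]
    push_cast; ring

theorem abs_sum_sub_le {h : ℕ → ℝ} {d : ℕ} (hd : 0 < d) (hh : ∀ s, h (s + d) = h s)
    (h0 : ∀ s, 0 ≤ h s) (h1 : ∀ s, h s ≤ 1) (a N : ℕ) :
    |∑ i ∈ Finset.range N, h (a + i) - N * ((∑ i ∈ Finset.range d, h i) / d)| ≤ d := by
  have hN : N = d * (N / d) + N % d := (Nat.div_add_mod N d).symm
  set k := N / d with hk
  set r := N % d with hr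
  have hrd : r < d := Nat.mod_lt _ hd
  have hd0 : (0 : ℝ) < d := by exact_mod_cast hd
  set H := ∑ i ∈ Finset.range d, h i with hH
  have hH0 : 0 ≤ H := Finset.sum_nonneg fun i _ => h0 i
  have hH1 : H ≤ d := by
    calc H ≤ ∑ i ∈ Finset.range d, (1 : ℝ) := Finset.sum_le_sum fun i _ => h1 i
      _ = d := by simp
  have e1 : ∑ i ∈ Finset.range N, h (a + i) = k * H + ∑ i ∈ Finset.range r, h (a + (d * k + i)) := by
    rw [hN, Finset.sum_range_add, sum_periods hh]
  rw [e1]
  set R := ∑ i ∈ Finset.range r, h (a + (d * k + i)) with hR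
  have hR0 : 0 ≤ R := Finset.sum_nonneg fun i _ => h0 _
  have hR1 : R ≤ r := by
    calc R ≤ ∑ i ∈ Finset.range r, (1 : ℝ) := Finset.sum_le_sum fun i _ => h1 _
      _ = r := by simp
  have e2 : (N : ℝ) = d * k + r := by exact_mod_cast hN
  have e3 : k * H + R - N * (H / d) = R - r * (H / d) := by
    rw [e2]; field_simp; ring
  rw [e3]
  have hHd : H / d ≤ 1 := by rw [div_le_one hd0]; exact hH1
  have hHd0 : 0 ≤ H / d := by positivity
  have hr0 : (0 : ℝ) ≤ r := by positivity
  have hrd' : (r : ℝ) ≤ d := by exact_mod_cast hrd.le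
  have h5 : r * (H / d) ≤ r := by nlinarith
  have h6 : 0 ≤ r * (H / d) := by positivity
  rw [abs_le]
  constructor <;> linarith

/-- Chinese remainder for sums of products -/
theorem sum_mul_coprime {f g : ℕ → ℝ} {d q : ℕ} (hf : ∀ s, f (s + d) = f s)
    (hg : ∀ s, g (s + q) = g s) (hq : 0 < q) (hdq : Nat.Coprime d q) :
    ∑ s ∈ Finset.range (d * q), f s * g s =
      (∑ s ∈ Finset.range d, f s) * ∑ s ∈ Finset.range q, g s := by
  have h1 : ∀ k : ℕ, ∑ s ∈ Finset.range (d * k), f s * g s =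
      ∑ t ∈ Finset.range k, ∑ a ∈ Finset.range d, f a * g (d * t + a) := by
    intro k
    induction k with
    | zero => simp
    | succ k ih =>
      rw [mul_add, mul_one, Finset.sum_range_add, ih, Finset.sum_range_succ]
      congr 1
      apply Finset.sum_congr rfl
      intro a _
      rw [show d * k + a = a + d * k by ring, periodic_mul hf]
  rw [h1 q, Finset.sum_comm, Finset.sum_mul]
  apply Finset.sum_congr rfl
  intro a _
  rw [← Finset.mul_sum]
  congr 1
  have hgm : ∀ s, g s = g (s % q) := by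
    intro s
    conv_lhs => rw [← Nat.mod_add_div s q]
    rw [periodic_mul hg]
  have hinj : Set.InjOn (fun t => (d * t + a) % q) (Finset.range q : Set ℕ) := by
    intro t ht t' ht' h
    simp only [Finset.coe_range, Set.mem_Iio] at ht ht'
    have h2 : d * t + a ≡ d * t' + a [MOD q] := h
    have h3 : d * t ≡ d * t' [MOD q] := Nat.ModEq.add_right_cancel' a h2
    have h4 : t ≡ t' [MOD q] := Nat.ModEq.cancel_left_of_coprime (by rw [Nat.gcd_comm]; exact hdq) h3
    have h5 := Nat.ModEq.eq_of_lt_of_lt h4 ht ht'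
    exact h5
  have himg : (Finset.range q).image (fun t => (d * t + a) % q) = Finset.range q := by
    apply Finset.eq_of_subset_of_card_le
    · intro b hb
      rw [Finset.mem_image] at hb
      obtain ⟨t, _, rfl⟩ := hb
      rw [Finset.mem_range]
      exact Nat.mod_lt _ hq
    · rw [Finset.card_image_of_injOn hinj]
  calc ∑ t ∈ Finset.range q, g (d * t + a) = ∑ t ∈ Finset.range q, g ((d * t + a) % q) :=
        Finset.sum_congr rfl fun t _ => hgm _
    _ = ∑ b ∈ (Finset.range q).image (fun t => (d * t + a) % q), g b := by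
        rw [Finset.sum_image]; exact hinj
    _ = _ := by rw [himg]

/-- average of a `p`-periodic function -/
noncomputable def avg (u : ℕ → ℕ → ℝ) (p : ℕ) : ℝ := (∑ a ∈ Finset.range p, u p a) / p

theorem avg_nonneg (u : ℕ → ℕ → ℝ) (p : ℕ) (h : ∀ s, 0 ≤ u p s) : 0 ≤ avg u p :=
  div_nonneg (Finset.sum_nonneg fun _ _ => h _) (by positivity)

theorem avg_le_one (u : ℕ → ℕ → ℝ) (p : ℕ) (hp : 0 < p) (h : ∀ s, u p s ≤ 1) : avg u p ≤ 1 := by
  unfold avg
  rw [div_le_one (by exact_mod_cast hp)]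
  calc ∑ a ∈ Finset.range p, u p a ≤ ∑ a ∈ Finset.range p, (1 : ℝ) :=
        Finset.sum_le_sum fun i _ => h i
    _ = p := by simp

theorem prod_periodic (D : Finset ℕ) (u : ℕ → ℕ → ℝ) (hper : ∀ p ∈ D, ∀ s, u p (s + p) = u p s)
    (s : ℕ) : ∏ p ∈ D, u p (s + ∏ p ∈ D, p) = ∏ p ∈ D, u p s := by
  apply Finset.prod_congr rfl
  intro p hp
  obtain ⟨k, hk⟩ := Finset.dvd_prod_of_mem (fun p => p) hp
  rw [hk]
  exact periodic_mul (hper p hp) k s

theorem sum_prod_range (D : Finset ℕ) (hD : ∀ p ∈ D, p.Prime) (u : ℕ → ℕ → ℝ)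
    (hper : ∀ p ∈ D, ∀ s, u p (s + p) = u p s) :
    ∑ s ∈ Finset.range (∏ p ∈ D, p), ∏ p ∈ D, u p s = (∏ p ∈ D, (p : ℝ)) * ∏ p ∈ D, avg u p := by
  induction D using Finset.induction_on with
  | empty => simp
  | insert q D hq ih =>
    have hD' : ∀ p ∈ D, p.Prime := fun p hp => hD p (Finset.mem_insert_of_mem hp)
    have hper' : ∀ p ∈ D, ∀ s, u p (s + p) = u p s := fun p hp => hper p (Finset.mem_insert_of_mem hp)
    have hqp : q.Prime := hD q (Finset.mem_insert_self _ _)
    rw [Finset.prod_insert hq, Finset.prod_insert hq, Finset.prod_insert hq]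
    have hcop : Nat.Coprime (∏ p ∈ D, p) q := by
      rw [Nat.coprime_prod_left_iff]
      intro p hp
      rw [Nat.coprime_primes (hD' p hp) hqp]
      rintro rfl; exact hq hp
    have h1 := sum_mul_coprime (f := fun s => ∏ p ∈ D, u p s) (g := fun s => u q s)
      (d := ∏ p ∈ D, p) (q := q) (fun s => prod_periodic D u hper' s)
      (fun s => hper q (Finset.mem_insert_self _ _) s) hqp.pos hcop
    have h2 : ∑ s ∈ Finset.range (q * ∏ p ∈ D, p), ∏ p ∈ insert q D, u p s =
        ∑ s ∈ Finset.range ((∏ p ∈ D, p) * q), (∏ p ∈ D, u p s) * u q s := by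
      rw [mul_comm q]
      apply Finset.sum_congr rfl
      intro s _
      rw [Finset.prod_insert hq]; ring
    rw [h2, h1, ih hD' hper']
    have hq0 : (q : ℝ) ≠ 0 := by exact_mod_cast hqp.ne_zero
    have h3 : ∑ s ∈ Finset.range q, u q s = q * avg u q := by
      unfold avg; field_simp
    rw [h3]; ring

/-- Brun's pure sieve, one variable, for weights in `[0,1]` -/
theorem brun (P : Finset ℕ) (hP : ∀ p ∈ P, p.Prime) (u : ℕ → ℕ → ℝ)
    (hu0 : ∀ p ∈ P, ∀ s, 0 ≤ u p s) (hu1 : ∀ p ∈ P, ∀ s, u p s ≤ 1)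
    (hper : ∀ p ∈ P, ∀ s, u p (s + p) = u p s) (a N r : ℕ) :
    ∑ i ∈ Finset.range N, ∏ p ∈ P, (1 - u p (a + i)) ≤
      N * ∏ p ∈ P, (1 - avg u p) +
      N * ((∑ p ∈ P, avg u p) ^ (2 * r + 1) / ((2 * r + 1).factorial : ℝ)) +
      (1 + ∑ p ∈ P, (p : ℝ)) ^ (2 * r) := by
  have hav0 : ∀ p ∈ P, 0 ≤ avg u p := fun p hp => avg_nonneg u p (hu0 p hp)
  have hav1 : ∀ p ∈ P, avg u p ≤ 1 := fun p hp => avg_le_one u p (hP p hp).pos (hu1 p hp)
  -- Bonferroni pointwise
  have h1 : ∑ i ∈ Finset.range N, ∏ p ∈ P, (1 - u p (a + i)) ≤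
      ∑ i ∈ Finset.range N, Tr P (fun p => u p (a + i)) (2 * r) := by
    apply Finset.sum_le_sum
    intro i _
    exact prod_le_Tr P (fun p => u p (a + i)) (fun p hp => hu0 p hp _) (fun p hp => hu1 p hp _) r
  -- error bound for each D
  have h2 : ∀ j, ∀ D ∈ P.powersetCard j,
      |∑ i ∈ Finset.range N, ∏ p ∈ D, u p (a + i) - N * ∏ p ∈ D, avg u p| ≤ ∏ p ∈ D, (p : ℝ) := by
    intro j D hD
    have hDP : D ⊆ P := (Finset.mem_powersetCard.1 hD).1
    have hDp : ∀ p ∈ D, p.Prime := fun p hp => hP p (hDP hp)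
    have hd : 0 < ∏ p ∈ D, p := Finset.prod_pos fun p hp => (hDp p hp).pos
    have h3 := abs_sum_sub_le (h := fun s => ∏ p ∈ D, u p s) (d := ∏ p ∈ D, p) hd
      (fun s => prod_periodic D u (fun p hp => hper p (hDP hp)) s)
      (fun s => Finset.prod_nonneg fun p hp => hu0 p (hDP hp) s)
      (fun s => Finset.prod_le_one (fun p hp => hu0 p (hDP hp) s) (fun p hp => hu1 p (hDP hp) s)) a N
    rw [sum_prod_range D hDp u (fun p hp => hper p (hDP hp))] at h3
    push_cast at h3
    have hd' : (∏ p ∈ D, (p : ℝ)) ≠ 0 := by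
      apply Finset.prod_ne_zero_iff.2
      intro p hp; exact_mod_cast (hDp p hp).ne_zero
    rw [mul_div_cancel_left₀ _ hd'] at h3
    exact h3
  have h3 : ∑ i ∈ Finset.range N, Tr P (fun p => u p (a + i)) (2 * r) ≤
      N * Tr P (avg u) (2 * r) + ∑ j ∈ Finset.range (2 * r + 1), es P (fun p => (p : ℝ)) j := by
    unfold Tr es
    rw [Finset.sum_comm, Finset.mul_sum, ← Finset.sum_add_distrib]
    apply Finset.sum_le_sum
    intro j _
    rw [← Finset.mul_sum, Finset.sum_comm]
    have h4 : |∑ D ∈ P.powersetCard j, ∑ i ∈ Finset.range N, ∏ p ∈ D, u p (a + i) -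
        N * ∑ D ∈ P.powersetCard j, ∏ p ∈ D, avg u p| ≤ ∑ D ∈ P.powersetCard j, ∏ p ∈ D, (p : ℝ) := by
      rw [Finset.mul_sum, ← Finset.sum_sub_distrib]
      refine (Finset.abs_sum_le_sum_abs _ _).trans ?_
      exact Finset.sum_le_sum (h2 j)
    rcases neg_one_pow_eq_or ℝ j with hj | hj
    · rw [hj]
      have := (abs_le.1 h4).2
      linarith
    · rw [hj]
      have := (abs_le.1 h4).1
      linarith
  have h4 := Tr_le_prod P (avg u) hav0 hav1 r
  have h5 := es_le P (avg u) hav0 (2 * r + 1)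
  have h6 := sum_es_le P (fun p => (p : ℝ)) (fun p _ => by positivity) (2 * r)
  have hN : (0 : ℝ) ≤ N := by positivity
  calc ∑ i ∈ Finset.range N, ∏ p ∈ P, (1 - u p (a + i))
      ≤ N * Tr P (avg u) (2 * r) + ∑ j ∈ Finset.range (2 * r + 1), es P (fun p => (p : ℝ)) j :=
        h1.trans h3
    _ ≤ N * (∏ p ∈ P, (1 - avg u p) +
        (∑ p ∈ P, avg u p) ^ (2 * r + 1) / ((2 * r + 1).factorial : ℝ)) +
        (1 + ∑ p ∈ P, (p : ℝ)) ^ (2 * r) := by
        gcongr
        linarith
    _ = _ := by ring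

end Pool.Agent.EG327
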