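import Pool.Agent.EG327.Sets

set_option autoImplicit false

namespace Pool.Agent.EG327

open Finset Real
open scoped Classical

/-- the condition defining the odd parts of the even numbers that we add -/
def Bcond (M i0 i1 I : ℕ) (S : Finset ℕ) : Prop :=
  (∀ p ∈ PL M i0, p ∉ S) ∧ G M i1 I i0 S

/-- the even numbers that we add -/
def Bset (M i0 i1 I : ℕ) : Set ℕ :=
  (fun k => 2 * k) '' {b : ℕ | ¬ 2 ∣ b ∧ Bcond M i0 i1 I (D (PL M I) b)}

/-- the typical numbers -/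
def Tset (M i1 I : ℕ) : Set ℕ :=
  {x : ℕ | 0 < x ∧ ∀ i, i1 ≤ i → i ≤ I → ((D (PL M i) x).card : ℝ) ≤ 114 / 100 * la M i}

/-- the odd typical numbers -/
def Oset (M i1 I : ℕ) : Set ℕ := {x : ℕ | ¬ 2 ∣ x ∧ x ∈ Tset M i1 I}

/-- Euler factor of the rough part -/
noncomputable def Phi (M i0 I : ℕ) : ℝ := ∏ p ∈ PL M i0, (1 - w (sg M I) p)

theorem Phi_nonneg (M i0 I : ℕ) : 0 ≤ Phi M i0 I := by
  unfold Phi
  apply Finset.prod_nonneg
  intro p _
  have := w_le_one (one_lt_sg M I) p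
  linarith

theorem two_notMem_PL {M i : ℕ} : 2 ∉ PL M i := fun h => by
  have := PL_three h; omega

theorem E_Bcond (M i0 i1 I : ℕ) (h01 : i0 ≤ i1) (h1 : i1 ≤ I) :
    Phi M i0 I * pr M i1 I i0 ≤
      E (PL M I) (w (sg M I)) (fun S => if Bcond M i0 i1 I S then 1 else 0) := by
  have hw1 := w01 M I i0 (PL M i0) (Finset.Subset.refl _)
  have hw2 := w01 M I I (PL M I \ PL M i0) Finset.sdiff_subset
  have e1 : PL M I = PL M i0 ∪ (PL M I \ PL M i0) :=
    (Finset.union_sdiff_of_subset (PL_mono M (h01.trans h1))).symm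
  have hd : Disjoint (PL M i0) (PL M I \ PL M i0) := Finset.disjoint_sdiff
  conv_rhs => rw [e1]
  rw [E_union hd]
  have e2 : Phi M i0 I = E (PL M i0) (w (sg M I)) (fun S => ∏ p ∈ PL M i0, (if p ∈ S then 0 else 1)) := by
    rw [E_prod (PL M i0) (w (sg M I)) (fun _ => 0) (fun _ => 1)]
    unfold Phi
    apply Finset.prod_congr rfl
    intro p _; ring
  rw [e2, mul_comm, ← E_smul]
  apply E_mono hw1.1 hw1.2
  intro S₁ hS₁
  by_cases hS : S₁ = ∅
  · subst hS
    simp only [Finset.notMem_empty, if_false, Finset.prod_const_one, mul_one, Finset.empty_union]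
    unfold pr
    apply E_mono hw2.1 hw2.2
    intro S₂ hS₂
    by_cases hG : G M i1 I i0 S₂
    · have : Bcond M i0 i1 I S₂ := ⟨fun p hp hp2 => (Finset.mem_sdiff.1 (hS₂ hp2)).2 hp, hG⟩
      rw [if_pos hG, if_pos this]
    · rw [if_neg hG]; split_ifs <;> norm_num
  · obtain ⟨p, hp⟩ := Finset.nonempty_iff_ne_empty.2 hS
    have : ∏ p ∈ PL M i0, (if p ∈ S₁ then (0 : ℝ) else 1) = 0 := by
      apply Finset.prod_eq_zero (hS₁ hp)
      simp [hp]
    rw [this, mul_zero]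
    apply E_nonneg hw2.1 hw2.2
    intro S₂ _
    split_ifs <;> norm_num

/-- lower bound for the mass of the added set -/
theorem mass_Bset_ge (M i0 i1 I : ℕ) (h01 : i0 ≤ i1) (h1 : i1 ≤ I) :
    Z (sg M I) * (1 / 8 * (Phi M i0 I * pr M i1 I i0)) ≤ mass (sg M I) (Bset M i0 i1 I) := by
  have hσ := one_lt_sg M I
  have hσ2 := sg_le_two M I
  unfold Bset
  rw [mass_scale 2 (by norm_num)]
  have hw2 : (1 : ℝ) / 4 ≤ w (sg M I) 2 := by
    unfold w
    calc (1 : ℝ) / 4 = (2 : ℝ) ^ (-2 : ℝ) := by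
          rw [Real.rpow_neg (by norm_num)]
          norm_num
      _ ≤ (2 : ℝ) ^ (-sg M I) := Real.rpow_le_rpow_of_exponent_le (by norm_num) (by linarith)
      _ = _ := by norm_num
  have hw2' : w (sg M I) 2 ≤ 1 / 2 := by
    have := w_le_inv hσ 2
    norm_num at this ⊢
    exact this
  have hP : ∀ p ∈ insert 2 (PL M I), p.Prime := by
    intro p hp
    rcases Finset.mem_insert.1 hp with h | h
    · rw [h]; exact Nat.prime_two
    · exact PL_prime h
  have h3 := le_mass_E hσ (insert 2 (PL M I)) hP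
    (fun S => if 2 ∉ S ∧ Bcond M i0 i1 I S then 1 else 0)
    {b : ℕ | ¬ 2 ∣ b ∧ Bcond M i0 i1 I (D (PL M I) b)}
    (by intro S _; split_ifs <;> norm_num)
    (by
      intro k _ hk
      rw [if_neg]
      rintro ⟨h4, h5⟩
      apply hk
      have h6 : ¬ 2 ∣ k := by
        intro h7
        exact h4 (mem_D.2 ⟨Finset.mem_insert_self _ _, h7⟩)
      have h7 : D (insert 2 (PL M I)) k = D (PL M I) k := by
        ext p
        rw [mem_D, mem_D, Finset.mem_insert]
        constructor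
        · rintro ⟨h8 | h8, h9⟩
          · subst h8; exact absurd h9 h6
          · exact ⟨h8, h9⟩
        · rintro ⟨h8, h9⟩; exact ⟨Or.inr h8, h9⟩
      rw [h7] at h5
      exact ⟨h6, h5⟩)
  rw [E_insert two_notMem_PL] at h3
  have e1 : E (PL M I) (w (sg M I)) (fun S => if 2 ∉ insert 2 S ∧ Bcond M i0 i1 I (insert 2 S) then 1 else 0) = 0 := by
    have : (fun S : Finset ℕ => if 2 ∉ insert 2 S ∧ Bcond M i0 i1 I (insert 2 S) then (1 : ℝ) else 0) = fun _ => 0 := by
      funext S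
      rw [if_neg]
      rintro ⟨h, _⟩
      exact h (Finset.mem_insert_self _ _)
    rw [this, E_const]
  have e2 : E (PL M I) (w (sg M I)) (fun S => if 2 ∉ S ∧ Bcond M i0 i1 I S then 1 else 0) =
      E (PL M I) (w (sg M I)) (fun S => if Bcond M i0 i1 I S then 1 else 0) := by
    apply E_congr
    intro S hS
    have : 2 ∉ S := fun h => two_notMem_PL (hS h)
    simp [this]
  rw [e1, e2, mul_zero, add_zero] at h3
  have h4 := E_Bcond M i0 i1 I h01 h1
  have h5 : 0 ≤ Phi M i0 I * pr M i1 I i0 := mul_nonneg (Phi_nonneg _ _ _) (pr_nonneg _ _ _ _)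
  have hZ := Z_pos hσ
  calc Z (sg M I) * (1 / 8 * (Phi M i0 I * pr M i1 I i0))
      = 1 / 4 * (Z (sg M I) * (1 / 2 * (Phi M i0 I * pr M i1 I i0))) := by ring
    _ ≤ w (sg M I) 2 * (Z (sg M I) * ((1 - w (sg M I) 2) *
        E (PL M I) (w (sg M I)) (fun S => if Bcond M i0 i1 I S then 1 else 0))) := by
        have h6 : 1 / 2 ≤ 1 - w (sg M I) 2 := by linarith
        gcongr
    _ ≤ _ := by gcongr

/-- basic facts about elements of the added set -/
theorem D_two_mul (M i b : ℕ) : D (PL M i) (2 * b) = D (PL M i) b := by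
  ext p
  rw [mem_D, mem_D]
  constructor
  · rintro ⟨h1, h2⟩
    refine ⟨h1, ?_⟩
    have hp := PL_prime h1
    have h3 := PL_three h1
    rcases hp.dvd_mul.1 h2 with h4 | h4
    · exfalso
      have := Nat.le_of_dvd (by norm_num) h4
      omega
    · exact h4
  · rintro ⟨h1, h2⟩
    exact ⟨h1, Dvd.dvd.mul_left h2 2⟩

theorem Bset_facts {M i0 i1 I x : ℕ} (hx : x ∈ Bset M i0 i1 I) :
    0 < x ∧ 2 ∣ x ∧ ¬ 4 ∣ x ∧ Bcond M i0 i1 I (D (PL M I) x) := by
  obtain ⟨b, ⟨hb1, hb2⟩, rfl⟩ := hx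
  have hb0 : b ≠ 0 := by rintro rfl; simp at hb1
  refine ⟨by simp only; omega, Dvd.intro _ rfl, ?_, ?_⟩
  · rintro ⟨c, hc⟩
    apply hb1
    simp only at hc
    exact ⟨c, by omega⟩
  · simp only
    rw [D_two_mul]; exact hb2

/-- number of primes between levels, from the block conditions -/
theorem card_blocks {M i0 i1 I : ℕ} {S : Finset ℕ} (hG : G M i1 I i0 S) (i : ℕ) (h0 : i0 ≤ i)
    (hi : i ≤ i1) :
    ((S ∩ (PL M i \ PL M i0)).card : ℝ) ≤ 89 / 100 * (la M i - la M i0) := by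
  induction i, h0 using Nat.le_induction with
  | base => simp
  | succ i h0 ih =>
    have h1 := ih (by omega)
    have h2 := hG.1 i h0 (by omega)
    have h3 : S ∩ (PL M (i + 1) \ PL M i0) ⊆
        (S ∩ (PL M i \ PL M i0)) ∪ (S ∩ (PL M (i + 1) \ PL M i)) := by
      intro p
      simp only [Finset.mem_inter, Finset.mem_sdiff, Finset.mem_union]
      rintro ⟨h4, h5, h6⟩
      by_cases h7 : p ∈ PL M i
      · left; exact ⟨h4, h7, h6⟩
      · right; exact ⟨h4, h5, h7⟩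
    have h4 : ((S ∩ (PL M (i + 1) \ PL M i0)).card : ℝ) ≤
        ((S ∩ (PL M i \ PL M i0)).card : ℝ) + ((S ∩ (PL M (i + 1) \ PL M i)).card : ℝ) := by
      exact_mod_cast (Finset.card_le_card h3).trans (Finset.card_union_le _ _)
    linarith

theorem D_inter {M i I k : ℕ} (h : i ≤ I) : D (PL M I) k ∩ PL M i = D (PL M i) k := by
  ext p
  simp only [Finset.mem_inter, mem_D]
  constructor
  · rintro ⟨⟨_, h1⟩, h2⟩; exact ⟨h2, h1⟩
  · rintro ⟨h1, h2⟩; exact ⟨⟨PL_mono M h h1, h2⟩, h1⟩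

/-- elements of the added set have few prime factors at all high levels -/
theorem Bset_card {M i0 i1 I x : ℕ} (hx : x ∈ Bset M i0 i1 I) (h01 : i0 ≤ i1) (i : ℕ)
    (h1 : i1 ≤ i) (hI : i ≤ I) : ((D (PL M i) x).card : ℝ) ≤ 1005 / 1000 * la M i := by
  obtain ⟨_, _, _, hB⟩ := Bset_facts hx
  have h2 := card_blocks hB.2 i1 h01 le_rfl
  have h3 : ((D (PL M I) x ∩ (PL M i \ PL M i1)).card : ℝ) ≤ 1005 / 1000 * (la M i - la M i1) := by
    rcases Nat.eq_or_lt_of_le h1 with h4 | h4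
    · subst h4; simp
    · exact hB.2.2 i h4 hI
  have h4 : D (PL M i) x ⊆ (D (PL M I) x ∩ (PL M i1 \ PL M i0)) ∪
      (D (PL M I) x ∩ (PL M i \ PL M i1)) := by
    intro p hp
    have hp' := mem_D.1 hp
    have hpI : p ∈ D (PL M I) x := mem_D.2 ⟨PL_mono M hI hp'.1, hp'.2⟩
    have hp0 : p ∉ PL M i0 := fun h => hB.1 p h hpI
    simp only [Finset.mem_inter, Finset.mem_sdiff, Finset.mem_union]
    by_cases h7 : p ∈ PL M i1
    · left; exact ⟨hpI, h7, hp0⟩
    · right; exact ⟨hpI, hp'.1, h7⟩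
  have h5 : ((D (PL M i) x).card : ℝ) ≤ ((D (PL M I) x ∩ (PL M i1 \ PL M i0)).card : ℝ) +
      ((D (PL M I) x ∩ (PL M i \ PL M i1)).card : ℝ) := by
    exact_mod_cast (Finset.card_le_card h4).trans (Finset.card_union_le _ _)
  have h6 := la_nonneg M i0
  have h7 := la_mono M h01
  have h8 := la_mono M h1
  nlinarith

theorem Bset_sub_Tset {M i0 i1 I : ℕ} (h01 : i0 ≤ i1) : Bset M i0 i1 I ⊆ Tset M i1 I := by
  intro x hx
  refine ⟨(Bset_facts hx).1, ?_⟩
  intro i h1 h2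
  have h3 := Bset_card hx h01 i h1 h2
  have h4 := la_nonneg M i
  linarith

end Pool.Agent.EG327
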