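import Pool.Agent.EG327.Edge

set_option autoImplicit false

namespace Pool.Agent.EG327

open Finset Real
open scoped Classical

/-- multipliers `k` giving an edge with parameters `m, s` -/
def Kset (M i0 i1 I m s : ℕ) : Set ℕ :=
  {k : ℕ | k * m * s ∈ Bset M i0 i1 I ∧ k * (s - m) * s ∈ Tset M i1 I}

/-- larger endpoints of edges with `s` in a dyadic range -/
def Rset (M i0 i1 I t : ℕ) : Set ℕ :=
  {x : ℕ | ∃ k m s : ℕ, 2 ^ t < s ∧ s ≤ 2 ^ (t + 1) ∧ 0 < m ∧ m < s ∧ k ∈ Kset M i0 i1 I m s ∧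
    x = (s * max m (s - m)) * k}

theorem w_edge {σ : ℝ} (hσ : 1 < σ) (hσ2 : σ ≤ 2) (t m s : ℕ) (hs : 2 ^ t < s) (hm : m < s) :
    w σ (s * max m (s - m)) ≤ 4 * (1 / 4) ^ t * Real.exp (-(σ - 1) * (t * Real.log 4)) := by
  set N := s * max m (s - m) with hN
  have h1 : s ≤ 2 * max m (s - m) := by
    have := le_max_left m (s - m)
    have := le_max_right m (s - m)
    omega
  have h2 : (2 : ℝ) ^ t < s := by exact_mod_cast hs
  have h3 : (4 : ℝ) ^ t ≤ 2 * N := by
    have h4 : (s : ℝ) ≤ 2 * ((max m (s - m) : ℕ) : ℝ) := by exact_mod_cast h1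
    have h5 : (N : ℝ) = s * ((max m (s - m) : ℕ) : ℝ) := by rw [hN]; push_cast; rfl
    have h6 : (4 : ℝ) ^ t = 2 ^ t * 2 ^ t := by rw [← mul_pow]; norm_num
    rw [h5, h6]
    have h7 : (0 : ℝ) < 2 ^ t := by positivity
    nlinarith
  have h4t : (0 : ℝ) < 4 ^ t := by positivity
  have hN0 : (0 : ℝ) < N := by linarith
  have hlog : t * Real.log 4 - Real.log 2 ≤ Real.log N := by
    have h4 : Real.log ((4 : ℝ) ^ t) ≤ Real.log (2 * N) := Real.log_le_log h4t h3
    rw [Real.log_pow, Real.log_mul (by norm_num) (by positivity)] at h4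
    linarith
  have hl2 : 0 < Real.log 2 := Real.log_pos (by norm_num)
  have e4 : Real.log 4 = 2 * Real.log 2 := by
    rw [show (4 : ℝ) = 2 ^ 2 by norm_num, Real.log_pow]; norm_num
  have e1 : w σ N = Real.exp (-σ * Real.log N) := by
    unfold w
    rw [Real.rpow_def_of_pos hN0, mul_comm]
  have e2 : (4 : ℝ) * (1 / 4) ^ t = Real.exp (Real.log 4 - t * Real.log 4) := by
    rw [Real.exp_sub, Real.exp_log (by norm_num), Real.exp_nat_mul, Real.exp_log (by norm_num),
      one_div, inv_pow]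
    rfl
  rw [e1, e2, ← Real.exp_add]
  apply Real.exp_le_exp.2
  have h5 : σ * (t * Real.log 4 - Real.log 2) ≤ σ * Real.log N :=
    mul_le_mul_of_nonneg_left hlog (by linarith)
  have h6 : σ * Real.log 2 ≤ 2 * Real.log 2 := mul_le_mul_of_nonneg_right hσ2 hl2.le
  nlinarith

theorem mass_Rset_le (M i0 i1 I t : ℕ) (B : ℝ) (W : ℕ → ℕ → ℝ)
    (hW0 : ∀ m s, 0 ≤ W m s) (hB : 0 ≤ B)
    (h : ∀ m s, 2 ^ t < s → s ≤ 2 ^ (t + 1) → 0 < m → m < s →
      mass (sg M I) (Kset M i0 i1 I m s) ≤ B * W m s) :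
    mass (sg M I) (Rset M i0 i1 I t) ≤
      (4 * (1 / 4) ^ t * Real.exp (-(sg M I - 1) * (t * Real.log 4))) * B *
        ∑ m ∈ Finset.range (2 * 2 ^ t), ∑ i ∈ Finset.range (2 ^ t), W m (2 ^ t + 1 + i) := by
  have hσ := one_lt_sg M I
  have hσ2 := sg_le_two M I
  set V : ℕ → ℕ → Set ℕ := fun m s => if 0 < m ∧ m < s then
    (fun k => (s * max m (s - m)) * k) '' Kset M i0 i1 I m s else ∅ with hV
  have hsub : Rset M i0 i1 I t ⊆
      ⋃ m ∈ Finset.range (2 * 2 ^ t), ⋃ i ∈ Finset.range (2 ^ t), V m (2 ^ t + 1 + i) := by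
    rintro x ⟨k, m, s, h1, h2, h3, h4, h5, rfl⟩
    rw [pow_succ] at h2
    simp only [Set.mem_iUnion, Finset.mem_range]
    refine ⟨m, by omega, s - (2 ^ t + 1), by omega, ?_⟩
    have e : 2 ^ t + 1 + (s - (2 ^ t + 1)) = s := by omega
    rw [e]
    simp only [hV]
    rw [if_pos ⟨h3, h4⟩]
    exact ⟨k, h5, rfl⟩
  set c := 4 * (1 / 4) ^ t * Real.exp (-(sg M I - 1) * (t * Real.log 4)) with hc
  have hc0 : 0 ≤ c := by positivity
  have hVm : ∀ m, ∀ i ∈ Finset.range (2 ^ t), mass (sg M I) (V m (2 ^ t + 1 + i)) ≤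
      c * B * W m (2 ^ t + 1 + i) := by
    intro m i hi
    rw [Finset.mem_range] at hi
    set s := 2 ^ t + 1 + i with hs
    simp only [hV]
    split_ifs with hms
    · have hs1 : 2 ^ t < s := by omega
      have hs2 : s ≤ 2 ^ (t + 1) := by rw [pow_succ]; omega
      have hpos : 0 < s * max m (s - m) := by
        apply Nat.mul_pos (by omega)
        exact lt_of_lt_of_le hms.1 (le_max_left _ _)
      rw [mass_scale _ hpos]
      have h1 := w_edge hσ hσ2 t m s hs1 hms.2
      have h2 := h m s hs1 hs2 hms.1 hms.2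
      calc w (sg M I) (s * max m (s - m)) * mass (sg M I) (Kset M i0 i1 I m s)
          ≤ c * (B * W m s) := by
            apply mul_le_mul h1 h2 (mass_nonneg _ _) hc0
        _ = c * B * W m s := by ring
    · have : mass (sg M I) ∅ = 0 := by simp [mass]
      rw [this]
      have := hW0 m s
      positivity
  calc mass (sg M I) (Rset M i0 i1 I t)
      ≤ mass (sg M I) (⋃ m ∈ Finset.range (2 * 2 ^ t), ⋃ i ∈ Finset.range (2 ^ t), V m (2 ^ t + 1 + i)) :=
        mass_mono hσ hsub
    _ ≤ ∑ m ∈ Finset.range (2 * 2 ^ t), mass (sg M I) (⋃ i ∈ Finset.range (2 ^ t), V m (2 ^ t + 1 + i)) :=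
        mass_iUnion_le hσ _ _
    _ ≤ ∑ m ∈ Finset.range (2 * 2 ^ t), ∑ i ∈ Finset.range (2 ^ t), mass (sg M I) (V m (2 ^ t + 1 + i)) := by
        apply Finset.sum_le_sum
        intro m _
        exact mass_iUnion_le hσ _ _
    _ ≤ ∑ m ∈ Finset.range (2 * 2 ^ t), ∑ i ∈ Finset.range (2 ^ t), c * B * W m (2 ^ t + 1 + i) := by
        apply Finset.sum_le_sum
        intro m _
        exact Finset.sum_le_sum (hVm m)
    _ = _ := by
        rw [Finset.mul_sum]
        apply Finset.sum_congr rfl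
        intro m _
        rw [Finset.mul_sum]

/-- admissibility of a level for the sieve at scale `2^t` -/
def LevelOK (M i t : ℕ) : Prop :=
  (28 * la M i + 4) * Real.log (yy M i) + 3 * la M i ≤ Real.log ((2 ^ t : ℕ) : ℝ)

theorem wt_nonneg_of {α β γ : ℕ → ℝ} {m s p : ℕ} (h1 : 0 ≤ α p) (h2 : 0 ≤ β p) (h3 : 0 ≤ γ p) :
    0 ≤ wt α β γ m s p := by
  unfold wt; split_ifs
  · exact h1
  · exact h2
  · exact h3
  · norm_num

theorem wt_le_one_of {α β γ : ℕ → ℝ} {m s p : ℕ} (h1 : α p ≤ 1) (h2 : β p ≤ 1) (h3 : γ p ≤ 1) :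
    wt α β γ m s p ≤ 1 := by
  unfold wt; split_ifs
  · exact h1
  · exact h2
  · exact h3
  · norm_num

theorem al_bounds {M i0 p : ℕ} (hp : 3 ≤ p) : 0 ≤ al M i0 p ∧ al M i0 p ≤ 1 := by
  obtain ⟨h1, h2⟩ := inv_nat_le hp
  unfold al
  split_ifs
  · constructor <;> norm_num
  · constructor
    · positivity
    · linarith

theorem exp_two_le : Real.exp 2 ≤ 7.39 := by
  have h1 := Real.exp_one_lt_d9
  have : Real.exp 2 = Real.exp 1 * Real.exp 1 := by rw [← Real.exp_add]; norm_num
  rw [this]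
  have h0 := Real.exp_pos 1
  nlinarith

theorem exp_17_le : Real.exp (17 / 10) ≤ 6 := by
  have h1 := Real.exp_one_lt_d9
  have h2 : Real.exp (17 / 10) = Real.exp (85 / 100) * Real.exp (85 / 100) := by
    rw [← Real.exp_add]; norm_num
  have h3 : Real.exp (85 / 100) * Real.exp (15 / 100) = Real.exp 1 := by
    rw [← Real.exp_add]; norm_num
  have h4 : (1.16 : ℝ) ≤ Real.exp (15 / 100) := by
    refine le_trans ?_ (Real.quadratic_le_exp_of_nonneg (by norm_num)); norm_num
  have h5 : Real.exp (85 / 100) ≤ 2.344 := by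
    have h0 := Real.exp_pos (85 / 100)
    by_contra hcon
    push Not at hcon
    nlinarith
  rw [h2]
  have h0 := Real.exp_pos (85 / 100)
  nlinarith

theorem large_real {x Zs c Pq ex u v Sm W L : ℝ} (hx : x ≤ (4 * u * ex) * (Zs * (c * Pq)) * Sm)
    (hZs : 0 ≤ Zs) (hc : c = Real.exp (2145 / 1000 * Real.log 2 * L))
    (hPq : Pq ≤ Real.exp (-(3 / 4) * (L - 1))) (hSm0 : 0 ≤ Sm) (hSm : Sm ≤ 24 * v * W)
    (hW : W ≤ Real.exp (-(7 / 4) * L + 5 / 4)) (huv : u * v = 1) (hu : 0 ≤ u) (hv : 0 ≤ v)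
    (hex : 0 ≤ ex) (hL : 0 ≤ L) :
    x ≤ 710 * (Zs * (ex * Real.exp (-(1013 / 1000) * L))) := by
  have hc0 : 0 ≤ c := by rw [hc]; positivity
  have h5 : c * Real.exp (-(3 / 4) * (L - 1)) * Real.exp (-(7 / 4) * L + 5 / 4) ≤
      7.39 * Real.exp (-(1013 / 1000) * L) := by
    calc c * Real.exp (-(3 / 4) * (L - 1)) * Real.exp (-(7 / 4) * L + 5 / 4)
        = Real.exp (2 + (-(5 / 2 - 2145 / 1000 * Real.log 2) * L)) := by
          rw [hc, ← Real.exp_add, ← Real.exp_add]; congr 1; ring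
      _ ≤ Real.exp (2 + (-(1013 / 1000) * L)) := by
          apply Real.exp_le_exp.2
          have hl2 := Real.log_two_lt_d9
          have : (1013 / 1000 : ℝ) ≤ 5 / 2 - 2145 / 1000 * Real.log 2 := by linarith
          nlinarith
      _ = Real.exp 2 * Real.exp (-(1013 / 1000) * L) := by rw [Real.exp_add]
      _ ≤ _ := mul_le_mul_of_nonneg_right exp_two_le (Real.exp_pos _).le
  have h6 : c * Pq ≤ c * Real.exp (-(3 / 4) * (L - 1)) := mul_le_mul_of_nonneg_left hPq hc0
  have h7 : Sm ≤ 24 * v * Real.exp (-(7 / 4) * L + 5 / 4) :=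
    hSm.trans (mul_le_mul_of_nonneg_left hW (by positivity))
  calc x ≤ (4 * u * ex) * (Zs * (c * Pq)) * Sm := hx
    _ ≤ (4 * u * ex) * (Zs * (c * Real.exp (-(3 / 4) * (L - 1)))) *
        (24 * v * Real.exp (-(7 / 4) * L + 5 / 4)) := by
        apply mul_le_mul _ h7 hSm0 (by positivity)
        apply mul_le_mul_of_nonneg_left _ (by positivity)
        exact mul_le_mul_of_nonneg_left h6 hZs
    _ = 96 * (Zs * (ex * (c * Real.exp (-(3 / 4) * (L - 1)) *
          Real.exp (-(7 / 4) * L + 5 / 4)))) * (u * v) := by ring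
    _ = 96 * (Zs * (ex * (c * Real.exp (-(3 / 4) * (L - 1)) *
          Real.exp (-(7 / 4) * L + 5 / 4)))) := by rw [huv, mul_one]
    _ ≤ 96 * (Zs * (ex * (7.39 * Real.exp (-(1013 / 1000) * L)))) := by
        apply mul_le_mul_of_nonneg_left _ (by norm_num)
        apply mul_le_mul_of_nonneg_left _ hZs
        exact mul_le_mul_of_nonneg_left h5 hex
    _ ≤ _ := by
        have : 0 ≤ Zs * (ex * Real.exp (-(1013 / 1000) * L)) := by positivity
        nlinarith

theorem small_real {x Zs c Ph Pq p' p0 ex u v Sm W Wi d mB : ℝ}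
    (hx : x ≤ (4 * u * ex) * (Zs * (c * (Ph * Pq) * p')) * Sm)
    (hZs : 0 ≤ Zs) (hc0 : 0 ≤ c) (hc : c ≤ Real.exp (10858 / 10000 * d)) (hPh : 0 ≤ Ph)
    (hPq0 : 0 ≤ Pq) (hPq : Pq ≤ Real.exp (-(7 / 10) * (d - 1))) (hp' : 0 ≤ p') (hp0 : 0 ≤ p0)
    (hch : Real.exp (-(85 / 10000) * d) * p' ≤ p0)
    (hSm0 : 0 ≤ Sm) (hSm : Sm ≤ 24 * v * W) (hWi : 0 ≤ Wi)
    (hW : W ≤ Wi * Real.exp (-(10858 / 10000 + 85 / 10000 - 7 / 10) * d + 1)) (huv : u * v = 1)
    (hu : 0 ≤ u) (hv : 0 ≤ v) (hex : ex ≤ 1)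
    (hB : Zs * (1 / 8 * (Ph * p0)) ≤ mB) :
    x ≤ 5000 * (mB * Wi) := by
  have h7 : Sm ≤ 24 * v * (Wi * Real.exp (-(10858 / 10000 + 85 / 10000 - 7 / 10) * d + 1)) :=
    hSm.trans (mul_le_mul_of_nonneg_left hW (by positivity))
  have h8 : c * (Ph * Pq) ≤ Real.exp (10858 / 10000 * d) * (Ph * Real.exp (-(7 / 10) * (d - 1))) := by
    apply mul_le_mul hc _ (by positivity) (Real.exp_pos _).le
    exact mul_le_mul_of_nonneg_left hPq hPh
  have h9 : Zs * (c * (Ph * Pq) * p') ≤
      Zs * (Real.exp (10858 / 10000 * d) * (Ph * Real.exp (-(7 / 10) * (d - 1))) * p') := by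
    apply mul_le_mul_of_nonneg_left _ hZs
    exact mul_le_mul_of_nonneg_right h8 hp'
  have h10 : 4 * u * ex ≤ 4 * u * 1 := mul_le_mul_of_nonneg_left hex (by positivity)
  have e1 : Real.exp (10858 / 10000 * d) * Real.exp (-(7 / 10) * (d - 1)) *
      Real.exp (-(10858 / 10000 + 85 / 10000 - 7 / 10) * d + 1) =
      Real.exp (-(85 / 10000) * d) * Real.exp (17 / 10) := by
    rw [← Real.exp_add, ← Real.exp_add, ← Real.exp_add]; congr 1; ring
  calc x ≤ (4 * u * ex) * (Zs * (c * (Ph * Pq) * p')) * Sm := hx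
    _ ≤ (4 * u * 1) * (Zs * (Real.exp (10858 / 10000 * d) *
          (Ph * Real.exp (-(7 / 10) * (d - 1))) * p')) *
        (24 * v * (Wi * Real.exp (-(10858 / 10000 + 85 / 10000 - 7 / 10) * d + 1))) := by
        apply mul_le_mul _ h7 hSm0 (by positivity)
        apply mul_le_mul h10 h9 (by positivity) (by positivity)
    _ = 96 * Wi * (Zs * (Ph * p')) * (Real.exp (10858 / 10000 * d) * Real.exp (-(7 / 10) * (d - 1)) *
          Real.exp (-(10858 / 10000 + 85 / 10000 - 7 / 10) * d + 1)) * (u * v) := by ring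
    _ = 96 * Wi * (Zs * (Ph * (Real.exp (-(85 / 10000) * d) * p'))) * Real.exp (17 / 10) := by
        rw [e1, huv]; ring
    _ ≤ 96 * Wi * (Zs * (Ph * p0)) * 6 := by
        apply mul_le_mul _ exp_17_le (Real.exp_pos _).le (by positivity)
        apply mul_le_mul_of_nonneg_left _ (by positivity)
        apply mul_le_mul_of_nonneg_left _ hZs
        exact mul_le_mul_of_nonneg_left hch hPh
    _ = 4608 * Wi * (Zs * (1 / 8 * (Ph * p0))) := by ring
    _ ≤ 4608 * Wi * mB := mul_le_mul_of_nonneg_left hB (by positivity)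
    _ ≤ _ := by
        have h0 : 0 ≤ Zs * (1 / 8 * (Ph * p0)) := by positivity
        have : 0 ≤ mB * Wi := mul_nonneg (h0.trans hB) hWi
        nlinarith

theorem uv_one (t : ℕ) : ((1 : ℝ) / 4) ^ t * (((2 ^ t : ℕ) : ℝ)) ^ 2 = 1 := by
  have h4 : ((2 ^ t : ℕ) : ℝ) = (2 : ℝ) ^ t := by push_cast; rfl
  rw [h4, ← pow_mul, mul_comm t 2, pow_mul, ← mul_pow]; norm_num

/-- large scale bound -/
theorem mass_Rset_large (M i0 i1 I i t : ℕ) (hM : 1 ≤ M) (h01 : i0 ≤ i1) (hi : i1 ≤ i) (hI : i ≤ I)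
    (hI1 : 1 ≤ I) (hok : LevelOK M i t) :
    mass (sg M I) (Rset M i0 i1 I t) ≤
      710 * (Z (sg M I) * (Real.exp (-(sg M I - 1) * (t * Real.log 4)) *
        Real.exp (-(1013 / 1000) * la M i))) := by
  have hσ := one_lt_sg M I
  have hZ := Z_pos hσ
  set q := w (sg M I) with hq
  set P := PL M i with hP
  have hb2 : ∀ p ∈ P, 0 ≤ al2 p ∧ al2 p ≤ be2 p ∧ be2 p ≤ 1 := by
    intro p hp
    obtain ⟨h1, h2⟩ := inv_nat_le (PL_three hp)
    unfold al2 be2
    refine ⟨by positivity, by linarith, by linarith⟩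
  set c := Real.exp (2145 / 1000 * Real.log 2 * la M i) with hc
  set Pq := ∏ p ∈ P, (1 - 3 / 4 * q p) with hPq
  have hPq0 : 0 ≤ Pq := by
    apply Finset.prod_nonneg
    intro p _
    have := w_le_one hσ p
    simp only [hq]; linarith
  have hPq1 : Pq ≤ Real.exp (-(3 / 4) * (la M i - 1)) := by
    calc Pq ≤ Real.exp (-(3 / 4) * ∑ p ∈ P, q p) := by
          apply prod_one_sub_le
          intro p _
          have := w_le_one hσ p
          simp only [hq]; linarith
      _ ≤ _ := by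
          apply Real.exp_le_exp.2
          have h1 := sum_diff_le M I hM hI1 P (PL_mono M hI)
          have h2 : la M i = ∑ p ∈ P, (1 : ℝ) / p := rfl
          rw [← h2] at h1
          linarith
  have h1 := mass_Rset_le M i0 i1 I t (Z (sg M I) * (c * Pq))
    (fun m s => ∏ p ∈ P, wt al2 be2 be2 m s p)
    (by
      intro m s
      apply Finset.prod_nonneg
      intro p hp
      have := hb2 p hp
      exact wt_nonneg_of this.1 (this.1.trans this.2.1) (this.1.trans this.2.1))
    (mul_nonneg hZ.le (mul_nonneg (Real.exp_pos _).le hPq0))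
    (by
      intro m s _ _ _ hms
      have h2 := mass_large M i0 i1 I i h01 hi hI m s hms
      refine (le_of_eq rfl).trans (h2.trans (le_of_eq ?_))
      ring)
  have h2 := two_dim (yy M i) (two_le_yy M i) P (Finset.Subset.refl _) al2 be2 be2
    (fun p hp => (hb2 p hp).1) (fun p hp => (hb2 p hp).2.1) (fun p hp => (hb2 p hp).2.2)
    (fun p hp => (hb2 p hp).1.trans (hb2 p hp).2.1) (fun p hp => (hb2 p hp).2.2)
    (2 ^ t) Nat.one_le_two_pow hok
  have h3 : Real.exp (-∑ p ∈ P, (3 - al2 p - be2 p - be2 p) / p) ≤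
      Real.exp (-(7 / 4) * la M i + 5 / 4) := by
    apply Real.exp_le_exp.2
    have e : ∑ p ∈ P, (3 - al2 p - be2 p - be2 p) / p =
        7 / 4 * la M i - 5 / 4 * ∑ p ∈ P, (1 : ℝ) / p ^ 2 := by
      have : la M i = ∑ p ∈ P, (1 : ℝ) / p := rfl
      rw [this, Finset.mul_sum, Finset.mul_sum, ← Finset.sum_sub_distrib]
      apply Finset.sum_congr rfl
      intro p hp
      have h3 : (3 : ℝ) ≤ p := by exact_mod_cast PL_three hp
      unfold al2 be2
      field_simp
      ring
    rw [e]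
    have := sum_inv_sq_le (yy M i) P (Finset.Subset.refl _)
    linarith
  refine large_real h1 hZ.le hc hPq1 ?_ h2 h3 (uv_one t) (by positivity) (by positivity)
    (Real.exp_pos _).le (la_nonneg M i)
  apply Finset.sum_nonneg
  intro m _
  apply Finset.sum_nonneg
  intro j _
  apply Finset.prod_nonneg
  intro p hp
  have := hb2 p hp
  exact wt_nonneg_of this.1 (this.1.trans this.2.1) (this.1.trans this.2.1)

theorem log_ten_third : Real.log (3 / 10) ≥ -(122 / 100) := by
  have h1 : Real.log (3 / 10 : ℝ) = -Real.log (10 / 3) := by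
    rw [← Real.log_inv]; norm_num
  rw [h1]
  have h2 : Real.log (10 / 3) ≤ 122 / 100 := by
    rw [Real.log_le_iff_le_exp (by norm_num)]
    have h3 : Real.exp (122 / 100) = Real.exp 1 * Real.exp (22 / 100) := by
      rw [← Real.exp_add]; norm_num
    rw [h3]
    have h4 := Real.exp_one_gt_d9
    have h5 := Real.quadratic_le_exp_of_nonneg (x := (22 / 100 : ℝ)) (by norm_num)
    have h6 : (1.2442 : ℝ) ≤ Real.exp (22 / 100) := by
      refine le_trans ?_ h5; norm_num
    nlinarith
  linarith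

/-- small scale bound; `i` is the sieving level, `i' = max i i0` -/
theorem mass_Rset_small : ∃ M0 : ℕ, ∀ M, M0 ≤ M → ∀ i0 i1 I i t : ℕ, i0 ≤ i1 → i ≤ i1 → i1 ≤ I →
    1 ≤ I → LevelOK M i t →
    mass (sg M I) (Rset M i0 i1 I t) ≤
      5000 * (mass (sg M I) (Bset M i0 i1 I) * Real.exp (-(1004 / 1000) * la M i)) := by
  obtain ⟨M0, hchain⟩ := pr_chain
  refine ⟨max M0 1, ?_⟩
  intro M hM i0 i1 I i t h01 hi hI hI1 hok
  have hM0 : M0 ≤ M := (le_max_left _ _).trans hM
  have hM1 : 1 ≤ M := (le_max_right _ _).trans hM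
  set i' := max i i0 with hi'
  have hi'1 : i' ≤ i1 := max_le hi h01
  have hi'0 : i0 ≤ i' := le_max_right _ _
  have hii' : i ≤ i' := le_max_left _ _
  have hσ := one_lt_sg M I
  have hσ2 := sg_le_two M I
  have hZ := Z_pos hσ
  set q := w (sg M I) with hq
  set P := PL M i with hP
  have hab : ∀ p ∈ P, 0 ≤ al M i0 p ∧ al M i0 p ≤ 1 := fun p hp => al_bounds (PL_three hp)
  have hab' : ∀ p ∈ PL M i', 0 ≤ al M i0 p ∧ al M i0 p ≤ 1 := fun p hp => al_bounds (PL_three hp)
  set c := Real.exp (-(89 / 100) * Real.log (3 / 10) * (la M i' - la M i0)) with hc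
  set Pq := ∏ p ∈ PL M i' \ PL M i0, (1 - 7 / 10 * q p) with hPq
  have hPq0 : 0 ≤ Pq := by
    apply Finset.prod_nonneg
    intro p _
    have := w_le_one hσ p
    simp only [hq]; linarith
  have hPq1 : Pq ≤ Real.exp (-(7 / 10) * (la M i' - la M i0 - 1)) := by
    calc Pq ≤ Real.exp (-(7 / 10) * ∑ p ∈ PL M i' \ PL M i0, q p) := by
          apply prod_one_sub_le
          intro p _
          have := w_le_one hσ p
          simp only [hq]; linarith
      _ ≤ _ := by
          apply Real.exp_le_exp.2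
          have h1 := sum_diff_le M I hM1 hI1 (PL M i' \ PL M i0)
            (Finset.sdiff_subset.trans (PL_mono M (hi'1.trans hI)))
          have h2 : lam (PL M i' \ PL M i0) = ∑ p ∈ PL M i' \ PL M i0, (1 : ℝ) / p := rfl
          rw [← h2, lam_sdiff (PL_mono M hi'0)] at h1
          have h3 : lam (PL M i') - lam (PL M i0) = la M i' - la M i0 := rfl
          rw [h3] at h1
          linarith
  have hpr0 := pr_nonneg M i1 I i'
  have hPhi0 := Phi_nonneg M i0 I
  have h1 := mass_Rset_le M i0 i1 I t (Z (sg M I) * (c * (Phi M i0 I * Pq) * pr M i1 I i'))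
    (fun m s => ∏ p ∈ P, wt (al M i0) (al M i0) (fun _ => 1) m s p)
    (by
      intro m s
      apply Finset.prod_nonneg
      intro p hp
      have := hab p hp
      exact wt_nonneg_of this.1 this.1 zero_le_one)
    (mul_nonneg hZ.le (mul_nonneg (mul_nonneg (Real.exp_pos _).le (mul_nonneg hPhi0 hPq0)) hpr0))
    (by
      intro m s _ _ _ hms
      have h2 := mass_small M i0 i1 I i' hi'0 hi'1 hI m s
      have h3 : mass (sg M I) (Kset M i0 i1 I m s) ≤ mass (sg M I) {k : ℕ | k * m * s ∈ Bset M i0 i1 I} :=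
        mass_mono hσ (fun k hk => hk.1)
      refine h3.trans (h2.trans ?_)
      have h4 : ∏ p ∈ PL M i', wt (al M i0) (al M i0) (fun _ => 1) m s p ≤
          ∏ p ∈ P, wt (al M i0) (al M i0) (fun _ => 1) m s p := by
        rw [← Finset.prod_sdiff (PL_mono M hii')]
        have g1 : ∏ p ∈ PL M i' \ PL M i, wt (al M i0) (al M i0) (fun _ => 1) m s p ≤ 1 := by
          apply Finset.prod_le_one
          · intro p hp
            have := hab' p (Finset.mem_sdiff.1 hp).1
            exact wt_nonneg_of this.1 this.1 zero_le_one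
          · intro p hp
            have := hab' p (Finset.mem_sdiff.1 hp).1
            exact wt_le_one_of this.2 this.2 le_rfl
        have g2 : 0 ≤ ∏ p ∈ PL M i, wt (al M i0) (al M i0) (fun _ => 1) m s p := by
          apply Finset.prod_nonneg
          intro p hp
          have := hab p hp
          exact wt_nonneg_of this.1 this.1 zero_le_one
        calc _ ≤ 1 * ∏ p ∈ PL M i, wt (al M i0) (al M i0) (fun _ => 1) m s p :=
              mul_le_mul_of_nonneg_right g1 g2
          _ = _ := one_mul _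
      calc Z (sg M I) * (c * (Phi M i0 I * Pq) *
            (∏ p ∈ PL M i', wt (al M i0) (al M i0) (fun _ => 1) m s p) * pr M i1 I i')
          ≤ Z (sg M I) * (c * (Phi M i0 I * Pq) *
            (∏ p ∈ P, wt (al M i0) (al M i0) (fun _ => 1) m s p) * pr M i1 I i') := by
            apply mul_le_mul_of_nonneg_left _ hZ.le
            apply mul_le_mul_of_nonneg_right _ hpr0
            exact mul_le_mul_of_nonneg_left h4
              (mul_nonneg (Real.exp_pos _).le (mul_nonneg hPhi0 hPq0))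
        _ = _ := by ring)
  have h2 := two_dim (yy M i) (two_le_yy M i) P (Finset.Subset.refl _) (al M i0) (al M i0) (fun _ => 1)
    (fun p hp => (hab p hp).1) (fun p hp => le_rfl) (fun p hp => (hab p hp).2)
    (fun p hp => by norm_num) (fun p hp => by norm_num)
    (2 ^ t) Nat.one_le_two_pow hok
  -- exponent of the sieve bound
  have hexp : (1004 / 1000) * la M i + (10858 / 10000 + 85 / 10000 - 7 / 10) * (la M i' - la M i0) - 1 ≤
      ∑ p ∈ P, (3 - al M i0 p - al M i0 p - 1) / p := by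
    rcases le_or_gt i i0 with hle | hgt
    · have e0 : i' = i0 := max_eq_right hle
      rw [e0]
      have e : ∑ p ∈ P, (3 - al M i0 p - al M i0 p - 1) / p = 2 * la M i := by
        have : la M i = ∑ p ∈ P, (1 : ℝ) / p := rfl
        rw [this, Finset.mul_sum]
        apply Finset.sum_congr rfl
        intro p hp
        have : al M i0 p = 0 := by unfold al; rw [if_pos (PL_mono M hle hp)]
        rw [this]; ring
      rw [e]
      have := la_nonneg M i
      linarith
    · have e0 : i' = i := max_eq_left hgt.le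
      rw [e0]
      have hsub : PL M i0 ⊆ P := PL_mono M hgt.le
      have e : ∑ p ∈ P, (3 - al M i0 p - al M i0 p - 1) / p =
          2 * la M i0 + (14 / 10 * (la M i - la M i0) - 6 / 10 * ∑ p ∈ P \ PL M i0, (1 : ℝ) / p ^ 2) := by
        rw [← Finset.sum_sdiff hsub, add_comm]
        congr 1
        · have : la M i0 = ∑ p ∈ PL M i0, (1 : ℝ) / p := rfl
          rw [this, Finset.mul_sum]
          apply Finset.sum_congr rfl
          intro p hp
          have : al M i0 p = 0 := by unfold al; rw [if_pos hp]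
          rw [this]; ring
        · have h3 : la M i - la M i0 = ∑ p ∈ P \ PL M i0, (1 : ℝ) / p := by
            have := lam_sdiff hsub
            unfold lam at this
            rw [this]; rfl
          rw [h3, Finset.mul_sum, Finset.mul_sum, ← Finset.sum_sub_distrib]
          apply Finset.sum_congr rfl
          intro p hp
          have h4 := (Finset.mem_sdiff.1 hp)
          have : al M i0 p = 3 / 10 * (1 + 1 / (p : ℝ)) := by unfold al; rw [if_neg h4.2]
          rw [this]
          have h5 : (3 : ℝ) ≤ p := by exact_mod_cast PL_three h4.1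
          field_simp
          ring
      rw [e]
      have h5 := sum_inv_sq_le (yy M i) (P \ PL M i0) Finset.sdiff_subset
      have h6 := la_nonneg M i0
      have h7 := la_mono M hgt.le
      linarith
  have h3 : Real.exp (-∑ p ∈ P, (3 - al M i0 p - al M i0 p - 1) / p) ≤
      Real.exp (-(1004 / 1000) * la M i) *
        Real.exp (-(10858 / 10000 + 85 / 10000 - 7 / 10) * (la M i' - la M i0) + 1) := by
    rw [← Real.exp_add]
    apply Real.exp_le_exp.2
    linarith
  have hσ1 : Real.exp (-(sg M I - 1) * (t * Real.log 4)) ≤ 1 := by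
    apply Real.exp_le_one_iff.2
    have : 0 ≤ Real.log 4 := Real.log_nonneg (by norm_num)
    have h4 : 0 ≤ sg M I - 1 := by linarith
    have : 0 ≤ (sg M I - 1) * (t * Real.log 4) := by positivity
    linarith
  have hchn := hchain M hM0 i0 i1 I i' hi'0 hi'1 hI
  have hBge := mass_Bset_ge M i0 i1 I h01 hI
  have hdd0 : 0 ≤ la M i' - la M i0 := by have := la_mono M hi'0; linarith
  have hcle : c ≤ Real.exp (10858 / 10000 * (la M i' - la M i0)) := by
    apply Real.exp_le_exp.2
    have := log_ten_third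
    nlinarith
  refine small_real h1 hZ.le (Real.exp_pos _).le hcle hPhi0 hPq0 hPq1 hpr0 (pr_nonneg M i1 I i0)
    hchn ?_ h2 (Real.exp_pos _).le h3 (uv_one t) (by positivity) (by positivity)
    hσ1 hBge
  apply Finset.sum_nonneg
  intro m _
  apply Finset.sum_nonneg
  intro j _
  apply Finset.prod_nonneg
  intro p hp
  have := hab p hp
  exact wt_nonneg_of this.1 this.1 zero_le_one

end Pool.Agent.EG327
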