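import Pool.Agent.EG327.Bset

set_option autoImplicit false

namespace Pool.Agent.EG327

open Finset Real
open scoped Classical

/-- weights used at small scales -/
noncomputable def al (M i0 : ℕ) (p : ℕ) : ℝ := if p ∈ PL M i0 then 0 else 3 / 10 * (1 + 1 / (p : ℝ))

theorem inv_nat_le {p : ℕ} (hp : 3 ≤ p) : 0 < 1 / (p : ℝ) ∧ 1 / (p : ℝ) ≤ 1 / 3 := by
  have : (3 : ℝ) ≤ p := by exact_mod_cast hp
  constructor
  · positivity
  · apply one_div_le_one_div_of_le (by norm_num) this

theorem mass_small (M i0 i1 I i : ℕ) (h : i0 ≤ i) (hi : i ≤ i1) (h1 : i1 ≤ I) (m s : ℕ) :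
    mass (sg M I) {k : ℕ | k * m * s ∈ Bset M i0 i1 I} ≤
      Z (sg M I) * (Real.exp (-(89 / 100) * Real.log (3 / 10) * (la M i - la M i0)) *
        (Phi M i0 I * ∏ p ∈ PL M i \ PL M i0, (1 - 7 / 10 * w (sg M I) p)) *
        (∏ p ∈ PL M i, wt (al M i0) (al M i0) (fun _ => 1) m s p) * pr M i1 I i) := by
  have hσ := one_lt_sg M I
  set q := w (sg M I) with hq
  have hq0 : ∀ p, 0 ≤ q p := fun p => w_nonneg _ p
  have hq1 : ∀ p, q p ≤ 1 := fun p => w_le_one hσ p
  have hqi : ∀ p : ℕ, q p ≤ 1 / p := fun p => w_le_inv hσ p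
  have hw1 := w01 M I i (PL M i) (Finset.Subset.refl _)
  have hw2 := w01 M I I (PL M I \ PL M i) Finset.sdiff_subset
  set c := Real.exp (-(89 / 100) * Real.log (3 / 10) * (la M i - la M i0)) with hc
  have hc0 : 0 < c := Real.exp_pos _
  set a : ℕ → ℝ := fun p => if p ∈ PL M i0 then 0 else 3 / 10 with ha
  set b : ℕ → ℝ := fun p => if p ∈ PL M i0 then (if p ∣ m ∨ p ∣ s then 0 else 1)
    else (if p ∣ m ∨ p ∣ s then 3 / 10 else 1) with hb
  have ha0 : ∀ p, 0 ≤ a p := fun p => by simp only [ha]; split_ifs <;> norm_num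
  have hb0 : ∀ p, 0 ≤ b p := fun p => by simp only [hb]; split_ifs <;> norm_num
  set F : Finset ℕ → ℝ := fun S => c * (∏ p ∈ PL M i, (if p ∈ S then a p else b p)) *
    (if G M i1 I i S then 1 else 0) with hF
  have hprod0 : ∀ S : Finset ℕ, 0 ≤ ∏ p ∈ PL M i, (if p ∈ S then a p else b p) := by
    intro S
    apply Finset.prod_nonneg
    intro p _
    split_ifs
    · exact ha0 p
    · exact hb0 p
  have hmass := mass_le_E hσ (PL M I) (fun p hp => PL_prime hp) F
    {k : ℕ | k * m * s ∈ Bset M i0 i1 I}
    (by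
      intro S _
      simp only [hF]
      have := hprod0 S
      split_ifs <;> positivity)
    (by
      intro k hk
      change k * m * s ∈ Bset M i0 i1 I at hk
      obtain ⟨hx0, hx2, hx4, hB⟩ := Bset_facts hk
      set x := k * m * s with hx
      have hDk : D (PL M I) k ⊆ D (PL M I) x := by
        intro p hp
        rw [mem_D] at *
        exact ⟨hp.1, hx ▸ Dvd.dvd.mul_right (Dvd.dvd.mul_right hp.2 m) s⟩
      have hG : G M i1 I i (D (PL M I) k) := G_level h (G_hered hDk hB.2)
      simp only [hF]
      rw [if_pos hG, mul_one]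
      have hcard := card_blocks hB.2 i h hi
      have hprod : ∏ p ∈ PL M i, (if p ∈ D (PL M I) k then a p else b p) =
          (3 / 10 : ℝ) ^ (D (PL M I) x ∩ (PL M i \ PL M i0)).card := by
        rw [pow_card_inter (P := PL M i) Finset.sdiff_subset]
        apply Finset.prod_congr rfl
        intro p hp
        have hpI : p ∈ PL M I := PL_mono M (hi.trans h1) hp
        have hpp := PL_prime hp
        by_cases hp0 : p ∈ PL M i0
        · have hpx : ¬ p ∣ x := fun h => hB.1 p hp0 (mem_D.2 ⟨hpI, h⟩)
          have hpk : ¬ p ∣ k := fun h => hpx (hx ▸ Dvd.dvd.mul_right (Dvd.dvd.mul_right h m) s)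
          have hpm : ¬ p ∣ m := fun h => hpx (hx ▸ Dvd.dvd.mul_right (Dvd.dvd.mul_left h k) s)
          have hps : ¬ p ∣ s := fun h => hpx (hx ▸ Dvd.dvd.mul_left h (k * m))
          simp [mem_D, hpk, hpx, hb, hp0, hpm, hps]
        · have hp1 : p ∈ PL M i \ PL M i0 := Finset.mem_sdiff.2 ⟨hp, hp0⟩
          by_cases hpk : p ∣ k
          · have hpx : p ∣ x := hx ▸ Dvd.dvd.mul_right (Dvd.dvd.mul_right hpk m) s
            simp [mem_D, hpk, hpx, ha, hp0, hpI, hp]
          · by_cases hpms : p ∣ m ∨ p ∣ s
            · have hpx : p ∣ x := by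
                rcases hpms with h | h
                · exact hx ▸ Dvd.dvd.mul_right (Dvd.dvd.mul_left h k) s
                · exact hx ▸ Dvd.dvd.mul_left h (k * m)
              simp [mem_D, hpk, hpx, hb, hp0, hpI, hp, hpms]
            · have hpx : ¬ p ∣ x := by
                rw [hx, hpp.dvd_mul, hpp.dvd_mul]
                push Not at hpms ⊢
                exact ⟨⟨hpk, hpms.1⟩, hpms.2⟩
              simp only [mem_D, hpk, hpx, hb, hp0, hpms, and_false, if_false]
      rw [hprod, pow_eq_exp (by norm_num), hc, ← Real.exp_add]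
      apply Real.one_le_exp
      have hl : Real.log (3 / 10) < 0 := Real.log_neg (by norm_num) (by norm_num)
      nlinarith)
  refine hmass.trans ?_
  apply mul_le_mul_of_nonneg_left _ (Z_pos hσ).le
  have e1 : PL M I = PL M i ∪ (PL M I \ PL M i) :=
    (Finset.union_sdiff_of_subset (PL_mono M (hi.trans h1))).symm
  have hd : Disjoint (PL M i) (PL M I \ PL M i) := Finset.disjoint_sdiff
  conv_lhs => rw [e1]
  rw [E_union hd]
  have hstep : E (PL M i) q (fun S₁ => E (PL M I \ PL M i) q (fun S₂ => F (S₁ ∪ S₂))) ≤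
      E (PL M i) q (fun S₁ => (c * pr M i1 I i) * ∏ p ∈ PL M i, (if p ∈ S₁ then a p else b p)) := by
    apply E_mono hw1.1 hw1.2
    intro S₁ hS₁
    have : E (PL M I \ PL M i) q (fun S₂ => F (S₁ ∪ S₂)) ≤
        E (PL M I \ PL M i) q (fun S₂ => (c * ∏ p ∈ PL M i, (if p ∈ S₁ then a p else b p)) *
          (if G M i1 I i S₂ then 1 else 0)) := by
      apply E_mono hw2.1 hw2.2
      intro S₂ hS₂
      simp only [hF]
      have e2 : ∏ p ∈ PL M i, (if p ∈ S₁ ∪ S₂ then a p else b p) =
          ∏ p ∈ PL M i, (if p ∈ S₁ then a p else b p) := by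
        apply Finset.prod_congr rfl
        intro p hp
        have : p ∉ S₂ := fun h => (Finset.mem_sdiff.1 (hS₂ h)).2 hp
        simp [this]
      rw [e2]
      have h0 : 0 ≤ c * ∏ p ∈ PL M i, (if p ∈ S₁ then a p else b p) :=
        mul_nonneg hc0.le (hprod0 S₁)
      by_cases hG : G M i1 I i (S₁ ∪ S₂)
      · rw [if_pos hG, if_pos (G_hered Finset.subset_union_right hG)]
      · rw [if_neg hG]
        split_ifs
        · linarith
        · linarith
    refine this.trans ?_
    rw [E_smul]
    apply le_of_eq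
    unfold pr
    ring
  refine hstep.trans ?_
  rw [E_smul, E_prod]
  have hfac : ∏ p ∈ PL M i, (q p * a p + (1 - q p) * b p) ≤
      (Phi M i0 I * ∏ p ∈ PL M i \ PL M i0, (1 - 7 / 10 * q p)) *
        ∏ p ∈ PL M i, wt (al M i0) (al M i0) (fun _ => 1) m s p := by
    have e3 : Phi M i0 I * ∏ p ∈ PL M i \ PL M i0, (1 - 7 / 10 * q p) =
        ∏ p ∈ PL M i, (if p ∈ PL M i0 then 1 - q p else 1 - 7 / 10 * q p) := by
      rw [← Finset.prod_sdiff (PL_mono M h), mul_comm]
      congr 1
      · apply Finset.prod_congr rfl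
        intro p hp
        rw [if_neg (Finset.mem_sdiff.1 hp).2]
      · unfold Phi
        apply Finset.prod_congr rfl
        intro p hp
        rw [if_pos hp]
    rw [e3, ← Finset.prod_mul_distrib]
    apply Finset.prod_le_prod
    · intro p _
      have := hq0 p; have := hq1 p; have := ha0 p; have := hb0 p
      have : 0 ≤ 1 - q p := by linarith
      positivity
    · intro p hp
      have hp3 := PL_three hp
      obtain ⟨hi0, hi3⟩ := inv_nat_le hp3
      have hqp := hqi p
      have hqp0 := hq0 p
      set z : ℝ := 1 / (p : ℝ) with hz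
      by_cases hp0 : p ∈ PL M i0
      · simp only [ha, hb, hp0, if_true, wt, al]
        by_cases hps : p ∣ s
        · simp [hps]
        · by_cases hpm : p ∣ m
          · simp [hpm]
          · simp [hps, hpm]
      · simp only [ha, hb, hp0, if_false, wt, al]
        have key : (3 / 10 : ℝ) ≤ (1 - 7 / 10 * q p) * (3 / 10 * (1 + z)) := by nlinarith
        by_cases hps : p ∣ s
        · simp only [hps, or_true, if_true]
          linarith
        · by_cases hpm : p ∣ m
          · simp only [hpm, true_or, if_true, hps, if_false]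
            linarith
          · simp only [hps, hpm, or_self, if_false, ite_self, mul_one]
            linarith
  calc c * pr M i1 I i * ∏ p ∈ PL M i, (q p * a p + (1 - q p) * b p)
      ≤ c * pr M i1 I i * ((Phi M i0 I * ∏ p ∈ PL M i \ PL M i0, (1 - 7 / 10 * q p)) *
        ∏ p ∈ PL M i, wt (al M i0) (al M i0) (fun _ => 1) m s p) := by
        apply mul_le_mul_of_nonneg_left hfac
        exact mul_nonneg hc0.le (pr_nonneg _ _ _ _)
    _ = _ := by ring

/-- weights used at large scales -/
noncomputable def al2 (p : ℕ) : ℝ := 1 / 4 * (1 + 1 / (p : ℝ))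
/-- weights used at large scales -/
noncomputable def be2 (p : ℕ) : ℝ := 1 / 2 * (1 + 1 / (p : ℝ))

theorem pow_card_D (P : Finset ℕ) (x : ℕ) (c : ℝ) :
    c ^ (D P x).card = ∏ p ∈ P, (if p ∣ x then c else 1) := by
  unfold D
  rw [← Finset.prod_const, Finset.prod_filter]

theorem mass_large (M i0 i1 I i : ℕ) (h01 : i0 ≤ i1) (hi : i1 ≤ i) (hI : i ≤ I) (m s : ℕ)
    (hms : m < s) :
    mass (sg M I) {k : ℕ | k * m * s ∈ Bset M i0 i1 I ∧ k * (s - m) * s ∈ Tset M i1 I} ≤
      Z (sg M I) * (Real.exp (2145 / 1000 * Real.log 2 * la M i) *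
        (∏ p ∈ PL M i, (1 - 3 / 4 * w (sg M I) p)) *
        (∏ p ∈ PL M i, wt al2 be2 be2 m s p)) := by
  have hσ := one_lt_sg M I
  set q := w (sg M I) with hq
  have hq0 : ∀ p, 0 ≤ q p := fun p => w_nonneg _ p
  have hq1 : ∀ p, q p ≤ 1 := fun p => w_le_one hσ p
  have hqi : ∀ p : ℕ, q p ≤ 1 / p := fun p => w_le_inv hσ p
  set c := Real.exp (2145 / 1000 * Real.log 2 * la M i) with hc
  have hc0 : 0 < c := Real.exp_pos _
  set b : ℕ → ℝ := fun p => if p ∣ s then 1 / 4 else if p ∣ m then 1 / 2 else
    if s % p = m % p then 1 / 2 else 1 with hb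
  have hb0 : ∀ p, 0 ≤ b p := fun p => by simp only [hb]; split_ifs <;> norm_num
  set F : Finset ℕ → ℝ := fun S => c * (∏ p ∈ PL M i, (if p ∈ S then 1 / 4 else b p)) with hF
  have hmass := mass_le_E hσ (PL M i) (fun p hp => PL_prime hp) F
    {k : ℕ | k * m * s ∈ Bset M i0 i1 I ∧ k * (s - m) * s ∈ Tset M i1 I}
    (by
      intro S _
      simp only [hF]
      apply mul_nonneg hc0.le
      apply Finset.prod_nonneg
      intro p _
      split_ifs
      · norm_num
      · exact hb0 p)
    (by
      intro k hk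
      obtain ⟨hkB, hkT⟩ := hk
      have h1 := Bset_card hkB h01 i hi hI
      have h2 := hkT.2 i hi hI
      simp only [hF]
      have h3 : (1 / 2 : ℝ) ^ (D (PL M i) (k * m * s)).card * (1 / 2 : ℝ) ^ (D (PL M i) (k * (s - m) * s)).card ≤
          ∏ p ∈ PL M i, (if p ∈ D (PL M i) k then 1 / 4 else b p) := by
        rw [pow_card_D, pow_card_D, ← Finset.prod_mul_distrib]
        apply Finset.prod_le_prod
        · intro p _
          split_ifs <;> norm_num
        · intro p hp
          have hpp := PL_prime hp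
          by_cases hpk : p ∣ k
          · have e1 : p ∣ k * m * s := Dvd.dvd.mul_right (Dvd.dvd.mul_right hpk m) s
            have e2 : p ∣ k * (s - m) * s := Dvd.dvd.mul_right (Dvd.dvd.mul_right hpk _) s
            have e3 : p ∈ D (PL M i) k := mem_D.2 ⟨hp, hpk⟩
            simp only [e1, e2, e3, if_true]; norm_num
          · have e3 : p ∉ D (PL M i) k := fun h => hpk (mem_D.1 h).2
            simp only [e3, if_false, hb]
            by_cases hps : p ∣ s
            · have e1 : p ∣ k * m * s := Dvd.dvd.mul_left hps _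
              have e2 : p ∣ k * (s - m) * s := Dvd.dvd.mul_left hps _
              simp only [e1, e2, hps, if_true]; norm_num
            · by_cases hpm : p ∣ m
              · have e1 : p ∣ k * m * s := Dvd.dvd.mul_right (Dvd.dvd.mul_left hpm k) s
                simp only [e1, hps, hpm, if_true, if_false]
                split_ifs <;> norm_num
              · by_cases hpn : s % p = m % p
                · have hd : p ∣ s - m := (Nat.modEq_iff_dvd' hms.le).1 hpn.symm
                  have e2 : p ∣ k * (s - m) * s := Dvd.dvd.mul_right (Dvd.dvd.mul_left hd k) s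
                  simp only [e2, hps, hpm, hpn, if_true, if_false]
                  split_ifs <;> norm_num
                · simp only [hps, hpm, hpn, if_false]
                  split_ifs <;> norm_num
      have h4 : (1 : ℝ) ≤ c * ((1 / 2 : ℝ) ^ (D (PL M i) (k * m * s)).card *
          (1 / 2 : ℝ) ^ (D (PL M i) (k * (s - m) * s)).card) := by
        rw [pow_eq_exp (by norm_num), pow_eq_exp (by norm_num), hc, ← Real.exp_add, ← Real.exp_add]
        apply Real.one_le_exp
        have hl : Real.log (1 / 2) = -Real.log 2 := by rw [one_div, Real.log_inv]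
        rw [hl]
        have hl2 : 0 < Real.log 2 := Real.log_pos (by norm_num)
        nlinarith
      refine h4.trans ?_
      exact mul_le_mul_of_nonneg_left h3 hc0.le)
  refine hmass.trans ?_
  apply mul_le_mul_of_nonneg_left _ (Z_pos hσ).le
  simp only [hF]
  rw [E_smul, E_prod (PL M i) q (fun _ => 1 / 4) b, mul_assoc]
  apply mul_le_mul_of_nonneg_left _ hc0.le
  rw [← Finset.prod_mul_distrib]
  apply Finset.prod_le_prod
  · intro p _
    have := hq0 p; have := hq1 p; have := hb0 p
    have : 0 ≤ 1 - q p := by linarith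
    positivity
  · intro p hp
    have hp3 := PL_three hp
    obtain ⟨hi0, hi3⟩ := inv_nat_le hp3
    have hqp := hqi p
    have hqp0 := hq0 p
    simp only [hb, wt, al2, be2]
    set z : ℝ := 1 / (p : ℝ) with hz
    by_cases hps : p ∣ s
    · simp only [hps, if_true]
      nlinarith
    · by_cases hpm : p ∣ m
      · simp only [hps, hpm, if_true, if_false]
        nlinarith
      · by_cases hpn : s % p = m % p
        · simp only [hps, hpm, hpn, if_true, if_false]
          nlinarith
        · simp only [hps, hpm, hpn, if_false]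
          linarith

end Pool.Agent.EG327
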