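import Pool.Agent.EG327.Scales

set_option autoImplicit false

namespace Pool.Agent.EG327

open Finset Real
open scoped Classical

/-- parametrisation of the pairs `a ≠ b` with `a + b ∣ a b` -/
theorem edge_param {a b : ℕ} (ha : 0 < a) (hb : 0 < b) (hab : a ≠ b) (h : a + b ∣ a * b) :
    ∃ k m s : ℕ, 0 < m ∧ m < s ∧ 3 ≤ s ∧ b = k * m * s ∧ a = k * (s - m) * s := by
  set g := Nat.gcd a b with hg
  have hg0 : 0 < g := Nat.gcd_pos_of_pos_left _ ha
  obtain ⟨n, hn⟩ : g ∣ a := Nat.gcd_dvd_left a b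
  obtain ⟨m, hm⟩ : g ∣ b := Nat.gcd_dvd_right a b
  have hcop : Nat.Coprime n m := by
    have h1 := Nat.coprime_div_gcd_div_gcd (m := a) (n := b) hg0
    rw [← hg] at h1
    have e1 : a / g = n := by rw [hn]; exact Nat.mul_div_cancel_left n hg0
    have e2 : b / g = m := by rw [hm]; exact Nat.mul_div_cancel_left m hg0
    rwa [e1, e2] at h1
  have hn0 : 0 < n := by
    rcases Nat.eq_zero_or_pos n with h0 | h0
    · rw [h0, mul_zero] at hn; omega
    · exact h0
  have hm0 : 0 < m := by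
    rcases Nat.eq_zero_or_pos m with h0 | h0
    · rw [h0, mul_zero] at hm; omega
    · exact h0
  have hnm : n ≠ m := by
    intro h0; apply hab; rw [hn, hm, h0]
  set s := n + m with hs
  have h1 : g * s ∣ g * (g * (n * m)) := by
    have e1 : a + b = g * s := by rw [hs, mul_add, ← hn, ← hm]
    have e2 : a * b = g * (g * (n * m)) := by
      conv_lhs => rw [hn, hm]
      ring
    rw [← e1, ← e2]; exact h
  have h2 : s ∣ g * (n * m) := Nat.dvd_of_mul_dvd_mul_left hg0 h1
  have hsn : Nat.Coprime s n := by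
    rw [hs]; rw [Nat.coprime_self_add_left]; exact hcop.symm
  have hsm : Nat.Coprime s m := by
    rw [hs, add_comm, Nat.coprime_self_add_left]; exact hcop
  have h3 : s ∣ g := (Nat.Coprime.mul_right hsn hsm).dvd_of_dvd_mul_right h2
  obtain ⟨k, hk⟩ := h3
  refine ⟨k, m, s, hm0, by omega, by omega, ?_, ?_⟩
  · rw [hm, hk]; ring
  · have e : s - m = n := by omega
    rw [e, hn, hk]; ring

/-- the union of the two parts -/
def A0 (M i0 i1 I : ℕ) : Set ℕ := Oset M i1 I ∪ Bset M i0 i1 I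

/-- larger endpoints of the edges inside `A0` -/
def RR (M i0 i1 I : ℕ) : Set ℕ :=
  {x : ℕ | ∃ a ∈ A0 M i0 i1 I, ∃ b ∈ A0 M i0 i1 I, a ≠ b ∧ a + b ∣ a * b ∧ x = max a b}

/-- the admissible set -/
def AA (M i0 i1 I : ℕ) : Set ℕ := A0 M i0 i1 I \ RR M i0 i1 I

theorem A0_sub_T {M i0 i1 I : ℕ} (h01 : i0 ≤ i1) : A0 M i0 i1 I ⊆ Tset M i1 I := by
  rintro x (hx | hx)
  · exact hx.2
  · exact Bset_sub_Tset h01 hx

theorem AA_pos {M i0 i1 I : ℕ} (h01 : i0 ≤ i1) {x : ℕ} (hx : x ∈ AA M i0 i1 I) : 0 < x :=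
  (A0_sub_T h01 hx.1).1

theorem AA_adm (M i0 i1 I : ℕ) (a b : ℕ) (ha : a ∈ AA M i0 i1 I)
    (hb : b ∈ AA M i0 i1 I) (hab : a ≠ b) : ¬ (a + b ∣ a * b) := by
  intro h
  have h1 : max a b ∈ RR M i0 i1 I := ⟨a, ha.1, b, hb.1, hab, h, rfl⟩
  rcases max_choice a b with h2 | h2
  · rw [h2] at h1; exact ha.2 h1
  · rw [h2] at h1; exact hb.2 h1

/-- an element of `Rset t` -/
theorem mem_Rset_of {M i0 i1 I : ℕ} {a b : ℕ} (ha : a ∈ Tset M i1 I)
    (hb : b ∈ Bset M i0 i1 I) (hab : a ≠ b) (h : a + b ∣ a * b) :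
    ∃ t, 1 ≤ t ∧ max a b ∈ Rset M i0 i1 I t := by
  have hb0 := (Bset_facts hb).1
  obtain ⟨k, m, s, hm, hms, hs, e1, e2⟩ := edge_param ha.1 hb0 hab h
  refine ⟨Nat.log 2 (s - 1), ?_, k, m, s, ?_, ?_, hm, hms, ?_, ?_⟩
  · exact Nat.log_pos (by norm_num) (by omega)
  · have := Nat.pow_log_le_self 2 (x := s - 1) (by omega)
    omega
  · have := Nat.lt_pow_succ_log_self (b := 2) (by norm_num) (s - 1)
    rw [Nat.succ_eq_add_one] at this
    omega
  · refine ⟨?_, ?_⟩
    · rw [← e1]; exact hb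
    · rw [← e2]; exact ha
  · have hmax : max a b = k * s * max m (s - m) := by
      rw [e1, e2]
      have e3 : k * (s - m) * s = k * s * (s - m) := by ring
      have e4 : k * m * s = k * s * m := by ring
      rw [e3, e4]
      rcases le_total m (s - m) with h1 | h1
      · rw [max_eq_right h1, max_eq_left (Nat.mul_le_mul_left _ h1)]
      · rw [max_eq_left h1, max_eq_right (Nat.mul_le_mul_left _ h1)]
    rw [hmax]; ring

theorem RR_sub {M i0 i1 I : ℕ} (h01 : i0 ≤ i1) {x : ℕ} (hx : x ∈ RR M i0 i1 I) :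
    ∃ t, 1 ≤ t ∧ x ∈ Rset M i0 i1 I t := by
  obtain ⟨a, ha, b, hb, hab, h, rfl⟩ := hx
  rcases hb with hb | hb
  · rcases ha with ha | ha
    · exfalso
      have h1 : ¬ 2 ∣ a * b := by
        rw [Nat.prime_two.dvd_mul]
        push Not
        exact ⟨ha.1, hb.1⟩
      apply h1
      refine dvd_trans ?_ h
      have := ha.1; have := hb.1
      omega
    · have h2 := mem_Rset_of (a := b) (b := a) hb.2 ha (Ne.symm hab)
        (by rw [add_comm, mul_comm]; exact h)
      rwa [max_comm] at h2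
  · exact mem_Rset_of (A0_sub_T h01 ha) hb hab h

theorem Rset_lt {M i0 i1 I t x : ℕ} (hx : x ∈ Rset M i0 i1 I t) : t < x := by
  obtain ⟨k, m, s, h1, h2, h3, h4, h5, rfl⟩ := hx
  have hk := (Bset_facts h5.1).1
  have hk0 : 0 < k := by
    rcases Nat.eq_zero_or_pos k with h | h
    · rw [h] at hk; simp at hk
    · exact h
  have h6 : t < 2 ^ t := Nat.lt_two_pow_self
  have h7 : 1 ≤ max m (s - m) := le_trans h3 (le_max_left _ _)
  have h8 : s ≤ s * max m (s - m) * k := by
    calc s = s * 1 * 1 := by ring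
      _ ≤ s * max m (s - m) * k := Nat.mul_le_mul (Nat.mul_le_mul_left _ h7) hk0
  omega

theorem Rset_scale {M i0 i1 I t x : ℕ} (h01 : i0 ≤ i1) (h1I : i1 ≤ I) (ht : 1 ≤ t)
    (hx : x ∈ Rset M i0 i1 I t) : 2 ^ (M * i0) ≤ t := by
  obtain ⟨k, m, s, h1, h2, h3, h4, h5, _⟩ := hx
  obtain ⟨hx0, hx2, hx4, hB⟩ := Bset_facts h5.1
  have h2t : 2 ≤ 2 ^ t := by
    calc 2 = 2 ^ 1 := by norm_num
      _ ≤ 2 ^ t := Nat.pow_le_pow_right (by norm_num) ht
  have hs3 : 3 ≤ s := by omega
  have hs4 : ¬ 4 ∣ s := fun h => hx4 (Dvd.dvd.mul_left h _)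
  -- an odd prime factor of s
  obtain ⟨p, hp, hps, hp3⟩ : ∃ p, p.Prime ∧ p ∣ s ∧ 3 ≤ p := by
    rcases Nat.even_or_odd s with he | ho
    · obtain ⟨c, hc⟩ := he
      have hc1 : c ≠ 1 := by omega
      obtain ⟨p, hp, hpc⟩ := Nat.exists_prime_and_dvd hc1
      refine ⟨p, hp, hc ▸ Dvd.dvd.trans hpc ⟨2, by ring⟩, ?_⟩
      rcases hp.eq_two_or_odd with h | h
      · exfalso
        subst h
        obtain ⟨d, hd⟩ := hpc
        apply hs4
        exact ⟨d, by rw [hc, hd]; ring⟩
      · have := hp.two_le; omega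
    · obtain ⟨p, hp, hpc⟩ := Nat.exists_prime_and_dvd (show s ≠ 1 by omega)
      refine ⟨p, hp, hpc, ?_⟩
      rcases hp.eq_two_or_odd with h | h
      · exfalso
        subst h
        obtain ⟨c, hc⟩ := ho
        omega
      · have := hp.two_le; omega
  have hpB : p ∣ k * m * s := Dvd.dvd.mul_left hps _
  have hpgt : yy M i0 < p := by
    by_contra hcon
    push Not at hcon
    have hp0 : p ∈ PL M i0 := mem_PP.2 ⟨hp3, hcon, hp⟩
    exact hB.1 p hp0 (mem_D.2 ⟨PL_mono M (h01.trans h1I) hp0, hpB⟩)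
  have hps' : p ≤ s := Nat.le_of_dvd (by omega) hps
  have h6 : 2 ^ (2 ^ (M * i0)) < 2 ^ (t + 1) := by
    have : yy M i0 = 2 ^ (2 ^ (M * i0)) := rfl
    omega
  have h7 := (Nat.pow_lt_pow_iff_right (by norm_num : 1 < 2)).1 h6
  omega

/-- sum over scales -/
theorem mass_RR_le (M i0 i1 I : ℕ) (h01 : i0 ≤ i1) (h1I : i1 ≤ I) (B : ℝ)
    (hB : ∀ X : ℕ, ∑ t ∈ Finset.Ico (max 1 (2 ^ (M * i0))) X, mass (sg M I) (Rset M i0 i1 I t) ≤ B) :
    mass (sg M I) (RR M i0 i1 I) ≤ B := by
  have hσ := one_lt_sg M I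
  unfold mass
  apply Real.tsum_le_of_sum_range_le
  · intro n; exact Set.indicator_nonneg (fun _ _ => w_nonneg _ _) n
  · intro X
    refine le_trans ?_ (hB X)
    calc ∑ x ∈ Finset.range X, (RR M i0 i1 I).indicator (w (sg M I)) x
        ≤ ∑ x ∈ Finset.range X, ∑ t ∈ Finset.Ico (max 1 (2 ^ (M * i0))) X,
          (Rset M i0 i1 I t).indicator (w (sg M I)) x := by
          apply Finset.sum_le_sum
          intro x hx
          rw [Finset.mem_range] at hx
          rw [Set.indicator_apply]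
          split_ifs with h
          · obtain ⟨t, ht1, ht⟩ := RR_sub h01 h
            have h2 := Rset_lt ht
            have h3 := Rset_scale h01 h1I ht1 ht
            have h4 := Finset.single_le_sum (f := fun t => (Rset M i0 i1 I t).indicator (w (sg M I)) x)
              (s := Finset.Ico (max 1 (2 ^ (M * i0))) X)
              (fun t _ => Set.indicator_nonneg (fun _ _ => w_nonneg _ _) x)
              (Finset.mem_Ico.2 ⟨max_le ht1 h3, by omega⟩)
            simp only [Set.indicator_apply, if_pos ht] at h4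
            simp only [Set.indicator_apply]
            exact h4
          · apply Finset.sum_nonneg
            intro t _
            exact Set.indicator_nonneg (fun _ _ => w_nonneg _ _) x
      _ = ∑ t ∈ Finset.Ico (max 1 (2 ^ (M * i0))) X, ∑ x ∈ Finset.range X,
          (Rset M i0 i1 I t).indicator (w (sg M I)) x := Finset.sum_comm
      _ ≤ ∑ t ∈ Finset.Ico (max 1 (2 ^ (M * i0))) X, mass (sg M I) (Rset M i0 i1 I t) := by
          apply Finset.sum_le_sum
          intro t _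
          exact (summable_ind hσ _).sum_le_tsum _
            (fun x _ => Set.indicator_nonneg (fun _ _ => w_nonneg _ _) x)

/-- the odd numbers -/
theorem mass_odd_ge (M I : ℕ) : Z (sg M I) / 2 ≤ mass (sg M I) {x : ℕ | ¬ 2 ∣ x} := by
  have hσ := one_lt_sg M I
  have h := le_mass_E hσ {2} (by intro p hp; rw [Finset.mem_singleton.1 hp]; exact Nat.prime_two)
    (fun S => if 2 ∈ S then 0 else 1) {x : ℕ | ¬ 2 ∣ x}
    (by intro S _; split_ifs <;> norm_num)
    (by
      intro k _ hk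
      have : 2 ∣ k := by
        by_contra hcon; exact hk hcon
      rw [if_pos (mem_D.2 ⟨Finset.mem_singleton_self _, this⟩)])
  refine le_trans ?_ h
  have e1 : ({2} : Finset ℕ) = insert 2 ∅ := rfl
  rw [e1, E_insert (Finset.notMem_empty _), E_empty, E_empty]
  simp only [Finset.notMem_empty, if_false, Finset.mem_insert_self, if_true, mul_one, mul_zero, add_zero]
  have hw2' : w (sg M I) 2 ≤ 1 / 2 := by
    have := w_le_inv hσ 2
    norm_num at this ⊢
    exact this
  have hZ := Z_pos hσ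
  nlinarith

theorem mass_bad_le (M i1 I : ℕ) (hM : 300000 ≤ M) :
    mass (sg M I) {x : ℕ | 0 < x ∧ x ∉ Tset M i1 I} ≤
      Z (sg M I) * (4 * Real.exp (-(9 / 1000) * la M i1)) := by
  have hσ := one_lt_sg M I
  have hZ := Z_pos hσ
  have hsub : {x : ℕ | 0 < x ∧ x ∉ Tset M i1 I} ⊆
      ⋃ i ∈ Finset.Icc i1 I, {x : ℕ | ¬ ((D (PL M i) x).card : ℝ) ≤ 114 / 100 * la M i} := by
    rintro x ⟨hx0, hx⟩
    simp only [Set.mem_iUnion]
    by_contra hcon
    push Not at hcon
    apply hx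
    refine ⟨hx0, fun i h1 h2 => ?_⟩
    have h3 := hcon i (Finset.mem_Icc.2 ⟨h1, h2⟩)
    by_contra h4
    exact h3 (not_le.1 h4)
  have h1 : ∀ i ∈ Finset.Icc i1 I,
      mass (sg M I) {x : ℕ | ¬ ((D (PL M i) x).card : ℝ) ≤ 114 / 100 * la M i} ≤
      Z (sg M I) * (Real.exp (-(9 / 1000) * la M i1) * (2 * (1 / 2 : ℝ) ^ i)) := by
    intro i hi
    rw [Finset.mem_Icc] at hi
    have hw := w01 M I i (PL M i) (Finset.Subset.refl _)
    have h2 := mass_le_E hσ (PL M i) (fun p hp => PL_prime hp)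
      (fun S => if ((S ∩ PL M i).card : ℝ) ≤ 114 / 100 * la M i then 0 else 1)
      {x : ℕ | ¬ ((D (PL M i) x).card : ℝ) ≤ 114 / 100 * la M i}
      (by intro S _; split_ifs <;> norm_num)
      (by
        intro k hk
        have e : D (PL M i) k ∩ PL M i = D (PL M i) k :=
          Finset.inter_eq_left.2 (Finset.filter_subset _ _)
        rw [e, if_neg hk])
    refine h2.trans ?_
    apply mul_le_mul_of_nonneg_left _ hZ.le
    have h3 := chernoff_upper (Finset.Subset.refl (PL M i)) (w (sg M I)) hw.1 hw.2 (la M i)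
      (114 / 100) (by norm_num) (sum_w_le _)
    refine h3.trans ?_
    have hr := rate114
    have hla := la_nonneg M i
    have hmono := la_mono M hi.1
    have hge := le_la M i
    have hl2 := Real.log_two_gt_d9
    have hM' : (300000 : ℝ) ≤ M := by exact_mod_cast hM
    have h5 : (200000 : ℝ) * i - 3 ≤ la M i := by
      have h6 : (200000 : ℝ) * i ≤ M * i * Real.log 2 := by
        have : (200000 : ℝ) ≤ M * Real.log 2 := by nlinarith
        have hi0 : (0 : ℝ) ≤ i := by positivity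
        nlinarith
      linarith
    have e2 : (2 : ℝ) * (1 / 2 : ℝ) ^ i = Real.exp (Real.log 2 - i * Real.log 2) := by
      rw [Real.exp_sub, Real.exp_log (by norm_num), Real.exp_nat_mul, Real.exp_log (by norm_num),
        one_div, inv_pow]
      rfl
    rw [e2, ← Real.exp_add]
    apply Real.exp_le_exp.2
    have h7 : (915 / 100000) * la M i ≤
        (114 / 100 * Real.log (114 / 100) - 114 / 100 + 1) * la M i :=
      mul_le_mul_of_nonneg_right hr hla
    have hi0 : (0 : ℝ) ≤ i := by positivity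
    have hl2' := Real.log_two_lt_d9
    nlinarith
  calc mass (sg M I) {x : ℕ | 0 < x ∧ x ∉ Tset M i1 I}
      ≤ ∑ i ∈ Finset.Icc i1 I, mass (sg M I) {x : ℕ | ¬ ((D (PL M i) x).card : ℝ) ≤ 114 / 100 * la M i} :=
        (mass_mono hσ hsub).trans (mass_iUnion_le hσ _ _)
    _ ≤ ∑ i ∈ Finset.Icc i1 I, Z (sg M I) * (Real.exp (-(9 / 1000) * la M i1) * (2 * (1 / 2 : ℝ) ^ i)) :=
        Finset.sum_le_sum h1
    _ = Z (sg M I) * (Real.exp (-(9 / 1000) * la M i1) * (2 * ∑ i ∈ Finset.Icc i1 I, (1 / 2 : ℝ) ^ i)) := by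
        rw [Finset.mul_sum, Finset.mul_sum, Finset.mul_sum]
    _ ≤ Z (sg M I) * (Real.exp (-(9 / 1000) * la M i1) * (2 * 2)) := by
        have h2 : ∑ i ∈ Finset.Icc i1 I, (1 / 2 : ℝ) ^ i ≤ 2 := by
          have h3 : ∑ i ∈ Finset.Icc i1 I, (1 / 2 : ℝ) ^ i ≤ ∑' i : ℕ, (1 / 2 : ℝ) ^ i :=
            summable_geometric_two.sum_le_tsum _ (fun i _ => by positivity)
          rw [tsum_geometric_two] at h3
          exact h3
        have := Real.exp_pos (-(9 / 1000) * la M i1)
        apply mul_le_mul_of_nonneg_left _ hZ.le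
        apply mul_le_mul_of_nonneg_left _ this.le
        linarith
    _ = _ := by ring

end Pool.Agent.EG327
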