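import Pool.Agent.EG327.Main

set_option autoImplicit false

namespace Pool.Agent.EG327

open Finset Real
open scoped Classical

/-- no two distinct elements with `a + b ∣ a * b` -/
def Adm (A : Finset ℕ) : Prop := ∀ a ∈ A, ∀ b ∈ A, a ≠ b → ¬ (a + b ∣ a * b)

/-- some admissible subset of `{1, ..., u}` has at least `(1/2 + ε) u` elements -/
def Big (ε : ℝ) (u : ℕ) : Prop :=
  ∃ A : Finset ℕ, A ⊆ Finset.Icc 1 u ∧ Adm A ∧ (1 / 2 + ε) * (u : ℝ) ≤ (A.card : ℝ)

/-- `δ (m+1)^(-1-δ) ≤ m^(-δ) - (m+1)^(-δ)` -/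
theorem w_le_diff {σ : ℝ} (hσ : 1 < σ) {m : ℕ} (hm : 1 ≤ m) :
    (σ - 1) * w σ (m + 1) ≤ (m : ℝ) ^ (-(σ - 1)) - ((m : ℝ) + 1) ^ (-(σ - 1)) := by
  have hm0 : (0 : ℝ) < m := by exact_mod_cast hm
  have hm1 : (0 : ℝ) < (m : ℝ) + 1 := by linarith
  have e1 : w σ (m + 1) = ((m : ℝ) + 1) ^ (-(σ - 1)) * (1 / ((m : ℝ) + 1)) := by
    unfold w
    push_cast
    rw [show -σ = -(σ - 1) + (-1) by ring, Real.rpow_add hm1, Real.rpow_neg_one, one_div]
  have e2 : (m : ℝ) ^ (-(σ - 1)) =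
      ((m : ℝ) + 1) ^ (-(σ - 1)) * Real.exp (-(σ - 1) * Real.log ((m : ℝ) / (m + 1))) := by
    rw [Real.rpow_def_of_pos hm0, Real.rpow_def_of_pos hm1, ← Real.exp_add]
    congr 1
    rw [Real.log_div hm0.ne' hm1.ne']
    ring
  have hx : (0 : ℝ) < (m : ℝ) / (m + 1) := by positivity
  have h1 : Real.log ((m : ℝ) / (m + 1)) ≤ (m : ℝ) / (m + 1) - 1 := Real.log_le_sub_one_of_pos hx
  have h2 := Real.add_one_le_exp (-(σ - 1) * Real.log ((m : ℝ) / (m + 1)))
  have h3 : (m : ℝ) / (m + 1) - 1 = -(1 / ((m : ℝ) + 1)) := by field_simp; ring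
  have h4 : 1 + (σ - 1) * (1 / ((m : ℝ) + 1)) ≤
      Real.exp (-(σ - 1) * Real.log ((m : ℝ) / (m + 1))) := by
    have h5 : (σ - 1) * (1 / ((m : ℝ) + 1)) ≤ -(σ - 1) * Real.log ((m : ℝ) / (m + 1)) := by
      have h6 : 1 / ((m : ℝ) + 1) ≤ -Real.log ((m : ℝ) / (m + 1)) := by linarith
      have h7 := mul_le_mul_of_nonneg_left h6 (by linarith : (0 : ℝ) ≤ σ - 1)
      linarith
    linarith
  rw [e1, e2]
  have h8 : (0 : ℝ) < ((m : ℝ) + 1) ^ (-(σ - 1)) := Real.rpow_pos_of_pos hm1 _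
  have h9 := mul_le_mul_of_nonneg_left h4 h8.le
  linarith

theorem tail_aux {σ : ℝ} (hσ : 1 < σ) {X : ℕ} (hX : 1 ≤ X) (m : ℕ) :
    (σ - 1) * ∑ n ∈ Finset.range m, w σ (X + n + 1) ≤
      (X : ℝ) ^ (-(σ - 1)) - ((X : ℝ) + m) ^ (-(σ - 1)) := by
  induction m with
  | zero => simp
  | succ m ih =>
    rw [Finset.sum_range_succ, mul_add]
    have h := w_le_diff hσ (m := X + m) (by omega)
    push_cast at h ⊢
    rw [← add_assoc]
    linarith

/-- the tail of the zeta sum -/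
theorem tail_le {σ : ℝ} (hσ : 1 < σ) {X : ℕ} (hX : 1 ≤ X) (m : ℕ) :
    ∑ n ∈ Finset.range m, w σ (X + n + 1) ≤ (X : ℝ) ^ (-(σ - 1)) / (σ - 1) := by
  have h := tail_aux hσ hX m
  rw [le_div_iff₀ (by linarith)]
  have h2 : (0 : ℝ) ≤ ((X : ℝ) + m) ^ (-(σ - 1)) := by positivity
  linarith

theorem mass_le_partial {σ : ℝ} (hσ : 1 < σ) {X : ℕ} (hX : 1 ≤ X) (A : Set ℕ) :
    mass σ A ≤ ∑ n ∈ Finset.range (X + 1), A.indicator (w σ) n +
      (X : ℝ) ^ (-(σ - 1)) / (σ - 1) := by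
  unfold mass
  have hnn : ∀ n, 0 ≤ A.indicator (w σ) n :=
    fun n => Set.indicator_nonneg (fun _ _ => w_nonneg _ _) n
  have ht := tail_le hσ hX
  apply Real.tsum_le_of_sum_range_le hnn
  intro T
  rcases le_or_gt T (X + 1) with h | h
  · have h1 : ∑ n ∈ Finset.range T, A.indicator (w σ) n ≤
        ∑ n ∈ Finset.range (X + 1), A.indicator (w σ) n :=
      Finset.sum_le_sum_of_subset_of_nonneg (Finset.range_mono h) (fun n _ _ => hnn n)
    have h2 := ht 0
    simp only [Finset.range_zero, Finset.sum_empty] at h2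
    linarith
  · obtain ⟨m, rfl⟩ : ∃ m, T = X + 1 + m := ⟨T - (X + 1), by omega⟩
    rw [Finset.sum_range_add]
    have h1 : ∑ x ∈ Finset.range m, A.indicator (w σ) (X + 1 + x) ≤
        ∑ n ∈ Finset.range m, w σ (X + n + 1) := by
      apply Finset.sum_le_sum
      intro n _
      rw [show X + 1 + n = X + n + 1 by ring]
      exact Set.indicator_le_self' (fun _ _ => w_nonneg _ _) _
    have h2 := ht m
    linarith

/-- `n (n^(-σ) - (n+1)^(-σ)) ≤ 2 n^(-σ)` -/
theorem diff_le {σ : ℝ} (hσ : 1 < σ) (hσ2 : σ ≤ 2) {n : ℕ} (hn : 1 ≤ n) :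
    (n : ℝ) * (w σ n - w σ (n + 1)) ≤ 2 * w σ n := by
  have hn0 : (0 : ℝ) < n := by exact_mod_cast hn
  have hn1 : (0 : ℝ) < (n : ℝ) + 1 := by linarith
  have e2 : w σ (n + 1) = w σ n * Real.exp (-σ * Real.log (((n : ℝ) + 1) / n)) := by
    unfold w
    push_cast
    rw [Real.rpow_def_of_pos hn0, Real.rpow_def_of_pos hn1, ← Real.exp_add]
    congr 1
    rw [Real.log_div hn1.ne' hn0.ne']
    ring
  have hx : (0 : ℝ) < ((n : ℝ) + 1) / n := by positivity
  have h1 : Real.log (((n : ℝ) + 1) / n) ≤ ((n : ℝ) + 1) / n - 1 := Real.log_le_sub_one_of_pos hx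
  have h2 := Real.add_one_le_exp (-σ * Real.log (((n : ℝ) + 1) / n))
  have h3 : ((n : ℝ) + 1) / n - 1 = 1 / n := by field_simp; ring
  have h4 : 1 - 2 * (1 / n) ≤ Real.exp (-σ * Real.log (((n : ℝ) + 1) / n)) := by
    have h5 : σ * Real.log (((n : ℝ) + 1) / n) ≤ 2 * (1 / n) := by
      have h6 : Real.log (((n : ℝ) + 1) / n) ≤ 1 / n := by linarith
      calc σ * Real.log (((n : ℝ) + 1) / n) ≤ σ * (1 / n) :=
            mul_le_mul_of_nonneg_left h6 (by linarith)
        _ ≤ 2 * (1 / n) := mul_le_mul_of_nonneg_right hσ2 (by positivity)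
    linarith
  have h8 := w_nonneg σ n
  have h9 := mul_le_mul_of_nonneg_left h4 h8
  rw [← e2] at h9
  have h10 : w σ n - w σ (n + 1) ≤ w σ n * (2 * (1 / n)) := by linarith
  calc (n : ℝ) * (w σ n - w σ (n + 1)) ≤ n * (w σ n * (2 * (1 / n))) :=
        mul_le_mul_of_nonneg_left h10 hn0.le
    _ = 2 * w σ n := by field_simp

theorem w_anti {σ : ℝ} (hσ : 1 < σ) {n : ℕ} (hn : 1 ≤ n) : w σ (n + 1) ≤ w σ n := by
  unfold w
  apply Real.rpow_le_rpow_of_nonpos (by exact_mod_cast hn) (by push_cast; linarith) (by linarith)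

/-- the counting function -/
noncomputable def cnt (A : Set ℕ) (n : ℕ) : ℝ := (((Finset.Icc 1 n).filter (fun x => x ∈ A)).card : ℝ)

theorem cnt_zero (A : Set ℕ) : cnt A 0 = 0 := by simp [cnt]

theorem cnt_succ (A : Set ℕ) (n : ℕ) :
    cnt A (n + 1) = cnt A n + (if n + 1 ∈ A then 1 else 0) := by
  unfold cnt
  have : Finset.Icc 1 (n + 1) = insert (n + 1) (Finset.Icc 1 n) := by
    ext x; simp only [Finset.mem_Icc, Finset.mem_insert]; omega
  rw [this, Finset.filter_insert]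
  split_ifs with h
  · rw [Finset.card_insert_of_notMem (by simp)]
    push_cast; ring
  · simp

theorem cnt_le (A : Set ℕ) (n : ℕ) : cnt A n ≤ n := by
  unfold cnt
  have := Finset.card_filter_le (Finset.Icc 1 n) (fun x => x ∈ A)
  rw [Nat.card_Icc] at this
  exact_mod_cast (by omega : ((Finset.Icc 1 n).filter (fun x => x ∈ A)).card ≤ n)

theorem cnt_nonneg (A : Set ℕ) (n : ℕ) : 0 ≤ cnt A n := by unfold cnt; positivity

/-- Abel summation for a set -/
theorem abel_set (σ : ℝ) (A : Set ℕ) (X : ℕ) :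
    ∑ k ∈ Finset.range X, (if k + 1 ∈ A then w σ (k + 1) else 0) =
      ∑ k ∈ Finset.range X, cnt A (k + 1) * (w σ (k + 1) - w σ (k + 2)) + cnt A X * w σ (X + 1) := by
  induction X with
  | zero => simp [cnt_zero]
  | succ X ih =>
    rw [Finset.sum_range_succ, ih, Finset.sum_range_succ, cnt_succ A X]
    split_ifs with h <;> ring

theorem cnt_univ (n : ℕ) : cnt Set.univ n = n := by
  unfold cnt
  simp

theorem partial_le {σ : ℝ} (hσ : 1 < σ) (hσ2 : σ ≤ 2) (A : Set ℕ) {c : ℝ} (hc : 1 / 2 ≤ c)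
    (B : ℕ → Prop) (hB : ∀ n, 1 ≤ n → ¬ B n → cnt A n ≤ c * n) (X : ℕ) :
    ∑ k ∈ Finset.range X, (if k + 1 ∈ A then w σ (k + 1) else 0) ≤
      c * Z σ + ∑ k ∈ Finset.range X, (if B (k + 1) then w σ (k + 1) else 0) + 1 := by
  rw [abel_set]
  have h1 : ∀ k ∈ Finset.range X, cnt A (k + 1) * (w σ (k + 1) - w σ (k + 2)) ≤
      c * (((k + 1 : ℕ) : ℝ) * (w σ (k + 1) - w σ (k + 2))) +
        (if B (k + 1) then w σ (k + 1) else 0) := by
    intro k _
    have hd : 0 ≤ w σ (k + 1) - w σ (k + 2) := by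
      have := w_anti hσ (n := k + 1) (by omega)
      rw [show k + 1 + 1 = k + 2 by ring] at this
      linarith
    split_ifs with hk
    · have h2 := diff_le hσ hσ2 (n := k + 1) (by omega)
      rw [show k + 1 + 1 = k + 2 by ring] at h2
      have h3 := mul_le_mul_of_nonneg_right (cnt_le A (k + 1)) hd
      have h4 : 0 ≤ ((k + 1 : ℕ) : ℝ) * (w σ (k + 1) - w σ (k + 2)) := by positivity
      have h5 := mul_le_mul_of_nonneg_right hc h4
      linarith
    · have h3 := mul_le_mul_of_nonneg_right (hB (k + 1) (by omega) hk) hd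
      linarith
  have h2 := Finset.sum_le_sum h1
  rw [Finset.sum_add_distrib, ← Finset.mul_sum] at h2
  have h3 := abel_set σ Set.univ X
  simp only [Set.mem_univ, if_true, cnt_univ] at h3
  have h4 : ∑ k ∈ Finset.range X, w σ (k + 1) ≤ Z σ := by
    have h8 : ∑ k ∈ Finset.range (X + 1), w σ k ≤ Z σ :=
      (summable_w hσ).sum_le_tsum _ (fun k _ => w_nonneg _ k)
    rw [Finset.sum_range_succ', w_zero hσ, add_zero] at h8
    exact h8
  have h5 : 0 ≤ (X : ℝ) * w σ (X + 1) := mul_nonneg (by positivity) (w_nonneg _ _)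
  have h6 : cnt A X * w σ (X + 1) ≤ 1 := by
    have h7 := w_le_inv hσ (X + 1)
    have h8 := cnt_le A X
    have h9 := cnt_nonneg A X
    calc cnt A X * w σ (X + 1) ≤ X * (1 / ((X + 1 : ℕ) : ℝ)) :=
          mul_le_mul h8 h7 (w_nonneg _ _) (by positivity)
      _ ≤ 1 := by
          rw [mul_one_div, div_le_one (by positivity)]
          push_cast; linarith
  have h7 : c * ∑ k ∈ Finset.range X, ((k + 1 : ℕ) : ℝ) * (w σ (k + 1) - w σ (k + 2)) ≤ c * Z σ := by
    apply mul_le_mul_of_nonneg_left _ (by linarith)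
    linarith
  linarith

theorem sum_Icc_eq (f : ℕ → ℝ) (P : ℕ → Prop) (X : ℕ) :
    ∑ k ∈ Finset.range X, (if P (k + 1) then f (k + 1) else 0) =
      ∑ n ∈ (Finset.Icc 1 X).filter P, f n := by
  rw [Finset.sum_filter, Finset.range_eq_Ico,
    Finset.sum_Ico_add' (fun k => if P k then f k else 0) 0 X 1]
  apply Finset.sum_congr
  · ext x; simp only [Finset.mem_Ico, Finset.mem_Icc]; omega
  · intro x _; rfl

theorem log_mass : ∃ (M : ℕ) (ε η K : ℝ) (I1 : ℕ), 0 < ε ∧ 0 < η ∧ 0 < K ∧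
    ∀ I, I1 ≤ I → ∀ X Y : ℕ, K * 2 ^ ((M + 1) * I) ≤ Real.log X →
      Real.log Y ≤ η * 2 ^ ((M + 1) * I) →
      η * 2 ^ ((M + 1) * I) ≤ ∑ n ∈ (Finset.Ioc Y X).filter (Big ε), (1 : ℝ) / n := by
  obtain ⟨M, ε, hε, I0, hmain⟩ := main_est
  obtain ⟨J, hJ⟩ := exists_nat_gt (48 / ε)
  refine ⟨M, ε / 2, ε / 48, 24 / ε, max I0 J, by positivity, by positivity, by positivity, ?_⟩
  intro I hI X Y hX hY
  obtain ⟨A, hApos, hAadm, hAmass⟩ := hmain I ((le_max_left _ _).trans hI)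
  have hσ := one_lt_sg M I
  have hσ2 := sg_le_two M I
  have hZ := Z_large M I
  obtain ⟨L, hL⟩ : ∃ L : ℝ, L = 2 ^ ((M + 1) * I) := ⟨_, rfl⟩
  rw [← hL] at hX hY hZ ⊢
  have hL0 : 0 < L := by rw [hL]; positivity
  have hδ : sg M I - 1 = 1 / L := by rw [hL]; unfold sg; ring
  have hLbig : 48 / ε < L := by
    refine hJ.trans_le ?_
    have h1 : J ≤ 2 ^ ((M + 1) * I) := by
      calc J ≤ 2 ^ J := Nat.lt_two_pow_self.le
        _ ≤ 2 ^ ((M + 1) * I) := by
            apply Nat.pow_le_pow_right (by norm_num)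
            calc J ≤ I := (le_max_right _ _).trans hI
              _ ≤ (M + 1) * I := Nat.le_mul_of_pos_left _ (by omega)
    rw [hL]; exact_mod_cast h1
  have hLbig' : 48 < ε * L := by
    rw [div_lt_iff₀ hε] at hLbig; linarith
  have hX1 : 1 ≤ X := by
    rcases Nat.eq_zero_or_pos X with h0 | h0
    · exfalso
      subst h0
      rw [Nat.cast_zero, Real.log_zero] at hX
      have : 0 < 24 / ε * L := by positivity
      linarith
    · exact h0
  have hX0 : (0 : ℝ) < X := by exact_mod_cast hX1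
  -- tail
  have htail : (X : ℝ) ^ (-(sg M I - 1)) / (sg M I - 1) ≤ ε / 24 * L := by
    rw [hδ, div_div_eq_mul_div, div_one]
    apply mul_le_mul_of_nonneg_right _ hL0.le
    rw [Real.rpow_def_of_pos hX0]
    have h1 : 24 / ε ≤ Real.log X * (1 / L) := by
      rw [mul_one_div, le_div_iff₀ hL0]; exact hX
    have h2 : Real.exp (24 / ε) ≤ Real.exp (Real.log X * (1 / L)) := Real.exp_le_exp.2 h1
    have h3 := Real.add_one_le_exp (24 / ε)
    have h4 : Real.log X * -(1 / L) = -(Real.log X * (1 / L)) := by ring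
    rw [h4, Real.exp_neg]
    have h5 : 24 / ε ≤ Real.exp (Real.log X * (1 / L)) := by linarith
    have h6 : (Real.exp (Real.log X * (1 / L)))⁻¹ ≤ (24 / ε)⁻¹ :=
      inv_anti₀ (by positivity) h5
    rwa [inv_div] at h6
  have hpart := mass_le_partial hσ hX1 A
  have hsum : ∑ n ∈ Finset.range (X + 1), A.indicator (w (sg M I)) n =
      ∑ k ∈ Finset.range X, (if k + 1 ∈ A then w (sg M I) (k + 1) else 0) := by
    rw [Finset.sum_range_succ']
    have e0 : A.indicator (w (sg M I)) 0 = 0 := by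
      rw [Set.indicator_apply]
      split_ifs
      · exact w_zero hσ
      · rfl
    rw [e0, add_zero]
    apply Finset.sum_congr rfl
    intro k _
    rw [Set.indicator_apply]
  rw [hsum] at hpart
  have hB : ∀ n, 1 ≤ n → ¬ Big (ε / 2) n → cnt A n ≤ (1 / 2 + ε / 2) * n := by
    intro n _ hn
    by_contra hcon
    push Not at hcon
    apply hn
    refine ⟨(Finset.Icc 1 n).filter (fun x => x ∈ A), Finset.filter_subset _ _, ?_, hcon.le⟩
    intro a ha b hb hab
    exact hAadm a (Finset.mem_filter.1 ha).2 b (Finset.mem_filter.1 hb).2 hab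
  have h1 := partial_le hσ hσ2 A (c := 1 / 2 + ε / 2) (by linarith) (Big (ε / 2)) hB X
  rw [sum_Icc_eq (w (sg M I)) (Big (ε / 2)) X] at h1
  have hl2 := Real.log_two_gt_d9
  have hZ3 : L / 3 ≤ Z (sg M I) := by
    refine le_trans ?_ hZ
    have := mul_le_mul_of_nonneg_left (show (2 / 3 : ℝ) ≤ Real.log 2 by linarith) hL0.le
    linarith
  have hZ4 := mul_le_mul_of_nonneg_left hZ3 (show (0 : ℝ) ≤ ε / 2 by positivity)
  -- the sum over all good n up to X
  have hS : ε / 12 * L ≤ ∑ n ∈ (Finset.Icc 1 X).filter (Big (ε / 2)), w (sg M I) n := by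
    linarith
  -- split
  have hsplit : ∑ n ∈ (Finset.Icc 1 X).filter (Big (ε / 2)), w (sg M I) n ≤
      ∑ n ∈ Finset.Icc 1 Y, (1 : ℝ) / n +
        ∑ n ∈ (Finset.Ioc Y X).filter (Big (ε / 2)), (1 : ℝ) / n := by
    have h2 : (Finset.Icc 1 X).filter (Big (ε / 2)) ⊆
        Finset.Icc 1 Y ∪ (Finset.Ioc Y X).filter (Big (ε / 2)) := by
      intro x hx
      simp only [Finset.mem_filter, Finset.mem_Icc, Finset.mem_union, Finset.mem_Ioc] at hx ⊢
      rcases le_or_gt x Y with h | h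
      · left; exact ⟨hx.1.1, h⟩
      · right; exact ⟨⟨h, hx.1.2⟩, hx.2⟩
    have h3 : Disjoint (Finset.Icc 1 Y) ((Finset.Ioc Y X).filter (Big (ε / 2))) := by
      rw [Finset.disjoint_left]
      intro x hx hx2
      simp only [Finset.mem_filter, Finset.mem_Icc, Finset.mem_Ioc] at hx hx2
      omega
    rw [← Finset.sum_union h3]
    refine le_trans (Finset.sum_le_sum (fun n _ => w_le_inv hσ n)) ?_
    exact Finset.sum_le_sum_of_subset_of_nonneg h2 (fun n _ _ => by positivity)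
  have hharm : ∑ n ∈ Finset.Icc 1 Y, (1 : ℝ) / n ≤ 1 + Real.log Y := by
    have h4 := harmonic_le_one_add_log Y
    rw [harmonic_eq_sum_Icc] at h4
    push_cast at h4
    refine le_trans (le_of_eq ?_) h4
    apply Finset.sum_congr rfl
    intro n _
    rw [one_div]
  linarith

end Pool.Agent.EG327
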