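import Pool.Agent.EG327.Edges

set_option autoImplicit false

namespace Pool.Agent.EG327

open Finset Real
open scoped Classical

theorem ex_le_one (M I t : ℕ) : Real.exp (-(sg M I - 1) * (t * Real.log 4)) ≤ 1 := by
  apply Real.exp_le_one_iff.2
  have h1 : 0 ≤ Real.log 4 := Real.log_nonneg (by norm_num)
  have h4 : 0 ≤ sg M I - 1 := by have := one_lt_sg M I; linarith
  have : 0 ≤ (sg M I - 1) * (t * Real.log 4) := by positivity
  linarith

/-- bound for a single dyadic scale -/
theorem scale_bound {M i0 i1 I t : ℕ} (hM1 : 1 ≤ M)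
    (hsmall : ∀ i0 i1 I i t : ℕ, i0 ≤ i1 → i ≤ i1 → i1 ≤ I → 1 ≤ I → LevelOK M i t →
      mass (sg M I) (Rset M i0 i1 I t) ≤
        5000 * (mass (sg M I) (Bset M i0 i1 I) * Real.exp (-(1004 / 1000) * la M i)))
    (h01 : i0 ≤ i1) (h1I : i1 ≤ I) (hI1 : 1 ≤ I) (ht : 1 ≤ t) (hi1 : 34 * M + 276 ≤ i1)
    (htt : (2 ^ (M + 1)) ^ (34 * M + 276) ≤ t) :
    mass (sg M I) (Rset M i0 i1 I t) ≤
      5000 * (mass (sg M I) (Bset M i0 i1 I) * ff M t) +
      710 * (Z (sg M I) * (Real.exp (-(9 / 1000) * la M i1) * ff M t)) +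
      710 * (Z (sg M I) * (Real.exp (-(9 / 1000) * la M i1) *
        (Real.exp (-(1004 / 1000) * la M I) * Real.exp (-(sg M I - 1) * (t * Real.log 4))))) := by
  have hσ := one_lt_sg M I
  have hZ := Z_pos hσ
  have hB := mass_nonneg (sg M I) (Bset M i0 i1 I)
  have hff := ff_nonneg M t
  have ht0 : t ≠ 0 := by omega
  have hffe : ff M t = Real.exp (-(1004 / 1000) * la M (iv M t)) := by
    unfold ff; rw [if_neg ht0]
  have hiv : 34 * M + 276 ≤ iv M t := by
    unfold iv
    exact Nat.le_log_of_pow_le (Nat.one_lt_two_pow (by omega)) htt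
  have hivt : (2 ^ (M + 1)) ^ iv M t ≤ t := iv_le ht0
  have t1 : 0 ≤ 5000 * (mass (sg M I) (Bset M i0 i1 I) * ff M t) := by positivity
  have e9 := Real.exp_pos (-(9 / 1000) * la M i1)
  have eI := Real.exp_pos (-(1004 / 1000) * la M I)
  have eX := Real.exp_pos (-(sg M I - 1) * (t * Real.log 4))
  have hX1 := ex_le_one M I t
  have t2 : 0 ≤ 710 * (Z (sg M I) * (Real.exp (-(9 / 1000) * la M i1) * ff M t)) := by positivity
  have t3 : 0 ≤ 710 * (Z (sg M I) * (Real.exp (-(9 / 1000) * la M i1) *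
        (Real.exp (-(1004 / 1000) * la M I) * Real.exp (-(sg M I - 1) * (t * Real.log 4))))) := by
    positivity
  rcases lt_or_ge (iv M t) i1 with hc | hc
  · have h := hsmall i0 i1 I (iv M t) t h01 hc.le h1I hI1 (level_ok M _ t hiv hivt)
    rw [← hffe] at h
    linarith
  · rcases le_or_gt (iv M t) I with hc2 | hc2
    · have h := mass_Rset_large M i0 i1 I (iv M t) t hM1 h01 hc hc2 hI1 (level_ok M _ t hiv hivt)
      have h2 : Real.exp (-(1013 / 1000) * la M (iv M t)) ≤
          Real.exp (-(9 / 1000) * la M i1) * ff M t := by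
        rw [hffe, ← Real.exp_add]
        apply Real.exp_le_exp.2
        have := la_mono M hc
        linarith
      have h3 : Real.exp (-(sg M I - 1) * (t * Real.log 4)) * Real.exp (-(1013 / 1000) * la M (iv M t)) ≤
          1 * (Real.exp (-(9 / 1000) * la M i1) * ff M t) :=
        mul_le_mul hX1 h2 (Real.exp_pos _).le (by norm_num)
      rw [one_mul] at h3
      have h4 : 710 * (Z (sg M I) * (Real.exp (-(sg M I - 1) * (t * Real.log 4)) *
          Real.exp (-(1013 / 1000) * la M (iv M t)))) ≤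
          710 * (Z (sg M I) * (Real.exp (-(9 / 1000) * la M i1) * ff M t)) := by
        apply mul_le_mul_of_nonneg_left _ (by norm_num)
        exact mul_le_mul_of_nonneg_left h3 hZ.le
      linarith
    · have hok : LevelOK M I t := by
        apply level_ok M I t (by omega)
        exact le_trans (Nat.pow_le_pow_right (by positivity) hc2.le) hivt
      have h := mass_Rset_large M i0 i1 I I t hM1 h01 h1I le_rfl hI1 hok
      have h2 : Real.exp (-(1013 / 1000) * la M I) ≤
          Real.exp (-(9 / 1000) * la M i1) * Real.exp (-(1004 / 1000) * la M I) := by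
        rw [← Real.exp_add]
        apply Real.exp_le_exp.2
        have := la_mono M h1I
        linarith
      have h3 : Real.exp (-(sg M I - 1) * (t * Real.log 4)) * Real.exp (-(1013 / 1000) * la M I) ≤
          Real.exp (-(sg M I - 1) * (t * Real.log 4)) *
            (Real.exp (-(9 / 1000) * la M i1) * Real.exp (-(1004 / 1000) * la M I)) :=
        mul_le_mul_of_nonneg_left h2 eX.le
      have h4 : 710 * (Z (sg M I) * (Real.exp (-(sg M I - 1) * (t * Real.log 4)) *
          Real.exp (-(1013 / 1000) * la M I))) ≤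
          710 * (Z (sg M I) * (Real.exp (-(9 / 1000) * la M i1) *
        (Real.exp (-(1004 / 1000) * la M I) * Real.exp (-(sg M I - 1) * (t * Real.log 4))))) := by
        apply mul_le_mul_of_nonneg_left _ (by norm_num)
        apply mul_le_mul_of_nonneg_left _ hZ.le
        refine h3.trans (le_of_eq ?_)
        ring
      linarith

/-- summing over all scales -/
theorem mass_RR_bound {M i0 i1 I : ℕ} (hM : 300000 ≤ M)
    (hsmall : ∀ i0 i1 I i t : ℕ, i0 ≤ i1 → i ≤ i1 → i1 ≤ I → 1 ≤ I → LevelOK M i t →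
      mass (sg M I) (Rset M i0 i1 I t) ≤
        5000 * (mass (sg M I) (Bset M i0 i1 I) * Real.exp (-(1004 / 1000) * la M i)))
    (htail : ∀ X : ℕ, ∑ t ∈ Finset.Ico (max 1 (2 ^ (M * i0))) X, ff M t ≤ 1 / 40000)
    (h01 : i0 ≤ i1) (h1I : i1 ≤ I) (hI1 : 1 ≤ I) (hi0 : 2 * (34 * M + 276) ≤ i0) :
    mass (sg M I) (RR M i0 i1 I) ≤ mass (sg M I) (Bset M i0 i1 I) / 8 +
      710 * (Z (sg M I) * (Real.exp (-(9 / 1000) * la M i1) * (∑' t, ff M t + 120))) := by
  have hσ := one_lt_sg M I
  have hZ := Z_pos hσ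
  have hB := mass_nonneg (sg M I) (Bset M i0 i1 I)
  have hM1003 : 1003 ≤ M := le_trans (by norm_num) hM
  apply mass_RR_le M i0 i1 I h01 h1I
  intro X
  set T0 := max 1 (2 ^ (M * i0)) with hT0
  have h1 : ∀ t ∈ Finset.Ico T0 X, mass (sg M I) (Rset M i0 i1 I t) ≤
      5000 * (mass (sg M I) (Bset M i0 i1 I) * ff M t) +
      710 * (Z (sg M I) * (Real.exp (-(9 / 1000) * la M i1) * ff M t)) +
      710 * (Z (sg M I) * (Real.exp (-(9 / 1000) * la M i1) *
        (Real.exp (-(1004 / 1000) * la M I) * Real.exp (-(sg M I - 1) * (t * Real.log 4))))) := by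
    intro t ht
    rw [Finset.mem_Ico] at ht
    have ht1 : 1 ≤ t := (le_max_left _ _).trans ht.1
    have ht2 : 2 ^ (M * i0) ≤ t := (le_max_right _ _).trans ht.1
    apply scale_bound (by omega) hsmall h01 h1I hI1 ht1 (by omega)
    refine le_trans ?_ ht2
    rw [← pow_mul]
    apply Nat.pow_le_pow_right (by norm_num)
    calc (M + 1) * (34 * M + 276) ≤ (2 * M) * (34 * M + 276) := Nat.mul_le_mul_right _ (by omega)
      _ = M * (2 * (34 * M + 276)) := by ring
      _ ≤ M * i0 := Nat.mul_le_mul_left M hi0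
  refine (Finset.sum_le_sum h1).trans ?_
  rw [Finset.sum_add_distrib, Finset.sum_add_distrib, ← Finset.mul_sum, ← Finset.mul_sum,
    ← Finset.mul_sum, ← Finset.mul_sum, ← Finset.mul_sum, ← Finset.mul_sum, ← Finset.mul_sum,
    ← Finset.mul_sum, ← Finset.mul_sum]
  have s1 := htail X
  have s2 := sum_ff_le M hM1003 (Finset.Ico T0 X)
  have s3 := sum_ex_le M I X (Finset.Ico T0 X) (by
    intro t ht; rw [Finset.mem_Ico] at ht; rw [Finset.mem_range]; exact ht.2)
  have s4 := exp_la_last M I hM1003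
  have e9 := Real.exp_pos (-(9 / 1000) * la M i1)
  have eI := Real.exp_pos (-(1004 / 1000) * la M I)
  have s5 : Real.exp (-(1004 / 1000) * la M I) *
      ∑ t ∈ Finset.Ico T0 X, Real.exp (-(sg M I - 1) * (t * Real.log 4)) ≤ 120 := by
    calc Real.exp (-(1004 / 1000) * la M I) *
      ∑ t ∈ Finset.Ico T0 X, Real.exp (-(sg M I - 1) * (t * Real.log 4))
        ≤ Real.exp (-(1004 / 1000) * la M I) * (2 * 2 ^ ((M + 1) * I)) :=
          mul_le_mul_of_nonneg_left s3 eI.le
      _ = 2 * (Real.exp (-(1004 / 1000) * la M I) * 2 ^ ((M + 1) * I)) := by ring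
      _ ≤ 120 := by linarith
  have u1 : 5000 * (mass (sg M I) (Bset M i0 i1 I) * ∑ t ∈ Finset.Ico T0 X, ff M t) ≤
      mass (sg M I) (Bset M i0 i1 I) / 8 := by
    have := mul_le_mul_of_nonneg_left s1 hB
    linarith
  have u2 : 710 * (Z (sg M I) * (Real.exp (-(9 / 1000) * la M i1) * ∑ t ∈ Finset.Ico T0 X, ff M t)) ≤
      710 * (Z (sg M I) * (Real.exp (-(9 / 1000) * la M i1) * ∑' t, ff M t)) := by
    apply mul_le_mul_of_nonneg_left _ (by norm_num)
    apply mul_le_mul_of_nonneg_left _ hZ.le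
    exact mul_le_mul_of_nonneg_left s2 e9.le
  have u3 : 710 * (Z (sg M I) * (Real.exp (-(9 / 1000) * la M i1) *
      (Real.exp (-(1004 / 1000) * la M I) *
        ∑ t ∈ Finset.Ico T0 X, Real.exp (-(sg M I - 1) * (t * Real.log 4))))) ≤
      710 * (Z (sg M I) * (Real.exp (-(9 / 1000) * la M i1) * 120)) := by
    apply mul_le_mul_of_nonneg_left _ (by norm_num)
    apply mul_le_mul_of_nonneg_left _ hZ.le
    exact mul_le_mul_of_nonneg_left s5 e9.le
  calc _ ≤ mass (sg M I) (Bset M i0 i1 I) / 8 +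
        710 * (Z (sg M I) * (Real.exp (-(9 / 1000) * la M i1) * ∑' t, ff M t)) +
        710 * (Z (sg M I) * (Real.exp (-(9 / 1000) * la M i1) * 120)) :=
        add_le_add (add_le_add u1 u2) u3
    _ = _ := by ring

theorem main_est : ∃ M : ℕ, ∃ ε : ℝ, 0 < ε ∧ ∃ I0 : ℕ, ∀ I, I0 ≤ I → ∃ A : Set ℕ,
    (∀ x ∈ A, 0 < x) ∧ (∀ a ∈ A, ∀ b ∈ A, a ≠ b → ¬ (a + b ∣ a * b)) ∧
    (1 / 2 + ε) * Z (sg M I) ≤ mass (sg M I) A := by
  obtain ⟨M1, hM1⟩ := mass_Rset_small
  obtain ⟨M2, hM2⟩ := pr_chain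
  set M := max (max M1 M2) 300000 with hMdef
  have hMM1 : M1 ≤ M := (le_max_left _ _).trans (le_max_left _ _)
  have hMM2 : M2 ≤ M := (le_max_right _ _).trans (le_max_left _ _)
  have hM : 300000 ≤ M := le_max_right _ _
  clear_value M
  have hsmall := hM1 M hMM1
  have hchain := hM2 M hMM2
  obtain ⟨t0, ht0⟩ := tail_ff M (by omega) (1 / 40000) (by norm_num)
  obtain ⟨i0, hi0a, hi0b⟩ : ∃ i0 : ℕ, 2 * (34 * M + 276) ≤ i0 ∧ t0 ≤ i0 :=
    ⟨max (2 * (34 * M + 276)) t0, le_max_left _ _, le_max_right _ _⟩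
  have htail : ∀ X : ℕ, ∑ t ∈ Finset.Ico (max 1 (2 ^ (M * i0))) X, ff M t ≤ 1 / 40000 := by
    intro X
    apply ht0
    refine le_trans hi0b (le_trans ?_ (le_max_right _ _))
    calc i0 ≤ 2 ^ i0 := Nat.lt_two_pow_self.le
      _ ≤ 2 ^ (M * i0) := Nat.pow_le_pow_right (by norm_num) (Nat.le_mul_of_pos_left _ (by omega))
  -- constants
  obtain ⟨Ph, hPh⟩ : ∃ Ph : ℝ, Ph = ∏ p ∈ PL M i0, (1 - 1 / (p : ℝ)) := ⟨_, rfl⟩
  have hPh0 : 0 < Ph := by
    rw [hPh]
    apply Finset.prod_pos
    intro p hp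
    have := (inv_nat_le (PL_three hp)).2
    linarith
  obtain ⟨Sf, hSf⟩ : ∃ Sf : ℝ, Sf = ∑' t, ff M t := ⟨_, rfl⟩
  have hSf0 : 0 ≤ Sf := by rw [hSf]; exact tsum_nonneg (ff_nonneg M)
  obtain ⟨C, hC⟩ : ∃ C : ℝ, C = 4 + 710 * (Sf + 120) := ⟨_, rfl⟩
  have hC0 : 0 < C := by rw [hC]; positivity
  -- choice of i1
  obtain ⟨i1, h01, hi1⟩ : ∃ i1 : ℕ, i0 ≤ i1 ∧ -(2000 * Real.log (Ph / 16 / (4 * C))) ≤ la M i1 := by
    set K := -(2000 * Real.log (Ph / 16 / (4 * C))) with hK
    refine ⟨max i0 ⌈K + 3⌉₊, le_max_left _ _, ?_⟩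
    have h1 : K + 3 ≤ (max i0 ⌈K + 3⌉₊ : ℕ) := (Nat.le_ceil _).trans (by exact_mod_cast le_max_right _ _)
    have h2 := le_la M (max i0 ⌈K + 3⌉₊)
    have hl2 := Real.log_two_gt_d9
    have hM' : (300000 : ℝ) ≤ M := by exact_mod_cast hM
    have h3 : (((max i0 ⌈K + 3⌉₊ : ℕ)) : ℝ) ≤ M * ((max i0 ⌈K + 3⌉₊ : ℕ) : ℝ) * Real.log 2 := by
      have h4 : 1 ≤ M * Real.log 2 := by nlinarith
      have h5 : (0 : ℝ) ≤ ((max i0 ⌈K + 3⌉₊ : ℕ) : ℝ) := by positivity
      nlinarith
    linarith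
  have hkey : C * Real.exp (-(9 / 1000) * la M i1) ≤
      Ph / 16 / 4 * Real.exp (-(85 / 10000) * la M i1) := by
    have h1 : Real.exp (-(5 / 10000) * la M i1) ≤ Ph / 16 / (4 * C) := by
      rw [← Real.exp_log (show (0 : ℝ) < Ph / 16 / (4 * C) by positivity)]
      apply Real.exp_le_exp.2
      linarith
    have h2 : Real.exp (-(9 / 1000) * la M i1) =
        Real.exp (-(5 / 10000) * la M i1) * Real.exp (-(85 / 10000) * la M i1) := by
      rw [← Real.exp_add]; congr 1; ring
    rw [h2]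
    have h3 : C * Real.exp (-(5 / 10000) * la M i1) ≤ Ph / 16 / 4 := by
      calc C * Real.exp (-(5 / 10000) * la M i1) ≤ C * (Ph / 16 / (4 * C)) :=
            mul_le_mul_of_nonneg_left h1 hC0.le
        _ = Ph / 16 / 4 := by field_simp
    calc C * (Real.exp (-(5 / 10000) * la M i1) * Real.exp (-(85 / 10000) * la M i1))
        = (C * Real.exp (-(5 / 10000) * la M i1)) * Real.exp (-(85 / 10000) * la M i1) := by ring
      _ ≤ _ := mul_le_mul_of_nonneg_right h3 (Real.exp_pos _).le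
  refine ⟨M, Ph / 32 * Real.exp (-(85 / 10000) * la M i1), by positivity, max i1 1, ?_⟩
  intro I hI
  have h1I : i1 ≤ I := (le_max_left _ _).trans hI
  have hI1 : 1 ≤ I := (le_max_right _ _).trans hI
  refine ⟨AA M i0 i1 I, fun x hx => AA_pos h01 hx,
    fun a ha b hb hab => AA_adm M i0 i1 I a b ha hb hab, ?_⟩
  have hσ := one_lt_sg M I
  have hZ := Z_pos hσ
  -- mass of B
  have hBge : Z (sg M I) * (Ph / 16 * Real.exp (-(85 / 10000) * la M i1)) ≤
      mass (sg M I) (Bset M i0 i1 I) := by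
    refine le_trans ?_ (mass_Bset_ge M i0 i1 I h01 h1I)
    apply mul_le_mul_of_nonneg_left _ hZ.le
    have h1 : Ph ≤ Phi M i0 I := by
      rw [hPh]
      unfold Phi
      apply Finset.prod_le_prod
      · intro p hp
        have := (inv_nat_le (PL_three hp)).2
        linarith
      · intro p hp
        have := w_le_inv hσ p
        linarith
    have h2 := hchain i0 i1 I i1 h01 le_rfl h1I
    have h3 := tail_prob M i1 I hM h1I
    have h4 : Real.exp (-(85 / 10000) * la M i1) * (1 / 2) ≤ pr M i1 I i0 := by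
      refine le_trans ?_ h2
      apply mul_le_mul _ h3 (by norm_num) (Real.exp_pos _).le
      apply Real.exp_le_exp.2
      have := la_nonneg M i0
      linarith
    have h5 : Ph * (Real.exp (-(85 / 10000) * la M i1) * (1 / 2)) ≤ Phi M i0 I * pr M i1 I i0 :=
      mul_le_mul h1 h4 (by positivity) (Phi_nonneg _ _ _)
    linarith
  have hR := mass_RR_bound hM hsmall htail h01 h1I hI1 hi0a
  rw [← hSf] at hR
  have hbad := mass_bad_le M i1 I hM
  have hodd := mass_odd_ge M I
  -- decomposition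
  have h1 : mass (sg M I) {x : ℕ | ¬ 2 ∣ x} ≤
      mass (sg M I) (Oset M i1 I) + mass (sg M I) {x : ℕ | 0 < x ∧ x ∉ Tset M i1 I} := by
    refine le_trans (mass_mono hσ ?_) (mass_union_le hσ _ _)
    intro x hx
    by_cases hT : x ∈ Tset M i1 I
    · left; exact ⟨hx, hT⟩
    · right
      refine ⟨?_, hT⟩
      rcases Nat.eq_zero_or_pos x with h0 | h0
      · exfalso; rw [h0] at hx; exact hx (dvd_zero 2)
      · exact h0
  have hdisj : Disjoint (Oset M i1 I) (Bset M i0 i1 I) := by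
    rw [Set.disjoint_left]
    intro x hx hx2
    exact hx.1 (Bset_facts hx2).2.1
  have h2 : mass (sg M I) (A0 M i0 i1 I) =
      mass (sg M I) (Oset M i1 I) + mass (sg M I) (Bset M i0 i1 I) :=
    mass_union_of_disjoint hσ hdisj
  have h3 : mass (sg M I) (A0 M i0 i1 I) ≤ mass (sg M I) (AA M i0 i1 I) + mass (sg M I) (RR M i0 i1 I) := by
    refine le_trans (mass_mono hσ ?_) (mass_union_le hσ _ _)
    intro x hx
    by_cases hR : x ∈ RR M i0 i1 I
    · right; exact hR
    · left; exact ⟨hx, hR⟩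
  have h4 : Z (sg M I) * (C * Real.exp (-(9 / 1000) * la M i1)) ≤
      mass (sg M I) (Bset M i0 i1 I) / 4 := by
    have := mul_le_mul_of_nonneg_left hkey hZ.le
    linarith
  have h5 : Z (sg M I) * (C * Real.exp (-(9 / 1000) * la M i1)) =
      Z (sg M I) * (4 * Real.exp (-(9 / 1000) * la M i1)) +
      710 * (Z (sg M I) * (Real.exp (-(9 / 1000) * la M i1) * (Sf + 120))) := by
    rw [hC]; ring
  have h6 : (1 / 2 + Ph / 32 * Real.exp (-(85 / 10000) * la M i1)) * Z (sg M I) =
      Z (sg M I) / 2 + (Z (sg M I) * (Ph / 16 * Real.exp (-(85 / 10000) * la M i1))) / 2 := by ring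
  rw [h6]
  have hB0 := mass_nonneg (sg M I) (Bset M i0 i1 I)
  linarith

/-- the partial sums of the zeta function blow up -/
theorem Z_large (M I : ℕ) : 2 ^ ((M + 1) * I) * Real.log 2 / 2 ≤ Z (sg M I) := by
  have hσ := one_lt_sg M I
  have h0 : sg M I - 1 = 1 / 2 ^ ((M + 1) * I) := by unfold sg; ring
  obtain ⟨J, hJ⟩ : ∃ J : ℕ, J = 2 ^ ((M + 1) * I) := ⟨_, rfl⟩
  have hJ' : (J : ℝ) = 2 ^ ((M + 1) * I) := by rw [hJ]; push_cast; rfl
  have hJ1 : 1 ≤ J := by rw [hJ]; exact Nat.one_le_two_pow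
  have h1 : ∀ k ∈ Finset.Icc (1 : ℕ) (2 ^ J), (1 / 2 : ℝ) * ((k : ℝ))⁻¹ ≤ w (sg M I) k := by
    intro k hk
    rw [Finset.mem_Icc] at hk
    have hk0 : (0 : ℝ) < k := by exact_mod_cast hk.1
    unfold w
    rw [show -sg M I = -1 + -(sg M I - 1) by ring, Real.rpow_add hk0, Real.rpow_neg_one, mul_comm]
    apply mul_le_mul_of_nonneg_left _ (by positivity)
    have h2 : Real.log k ≤ J * Real.log 2 := by
      have h3 : Real.log k ≤ Real.log ((2 : ℝ) ^ J) := by
        apply Real.log_le_log hk0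
        exact_mod_cast hk.2
      rwa [Real.log_pow] at h3
    have h3 : (sg M I - 1) * Real.log k ≤ Real.log 2 := by
      rw [h0, ← hJ', div_mul_eq_mul_div, one_mul, div_le_iff₀ (by exact_mod_cast hJ1)]
      linarith
    rw [Real.rpow_def_of_pos hk0]
    have e : (1 / 2 : ℝ) = Real.exp (-Real.log 2) := by
      rw [Real.exp_neg, Real.exp_log (by norm_num), one_div]
    rw [e]
    apply Real.exp_le_exp.2
    linarith
  have h2 : ∑ k ∈ Finset.Icc (1 : ℕ) (2 ^ J), w (sg M I) k ≤ Z (sg M I) :=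
    (summable_w hσ).sum_le_tsum _ (fun k _ => w_nonneg _ k)
  have h3 : Real.log ((2 : ℝ) ^ J) ≤ ∑ k ∈ Finset.Icc (1 : ℕ) (2 ^ J), ((k : ℝ))⁻¹ := by
    have h4 := log_add_one_le_harmonic (2 ^ J)
    rw [harmonic_eq_sum_Icc] at h4
    push_cast at h4
    refine le_trans ?_ h4
    apply Real.log_le_log (by positivity)
    linarith
  have h4 := Finset.sum_le_sum h1
  rw [← Finset.mul_sum] at h4
  rw [Real.log_pow] at h3
  rw [← hJ']
  linarith

/-- Abel summation inequality -/
theorem abel_ineq (f w : ℕ → ℝ) (N : ℝ) (hF : ∀ n, ∑ k ∈ Finset.range n, f k ≤ N)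
    (hw : ∀ n, w (n + 1) ≤ w n) (X : ℕ) :
    ∑ k ∈ Finset.range (X + 1), f k * w k ≤
      N * (w 0 - w X) + (∑ k ∈ Finset.range (X + 1), f k) * w X := by
  induction X with
  | zero => simp
  | succ X ih =>
    rw [Finset.sum_range_succ, Finset.sum_range_succ (fun k => f k)]
    have h1 := hF (X + 1)
    have h2 := hw X
    have h3 : 0 ≤ (N - ∑ k ∈ Finset.range (X + 1), f k) * (w X - w (X + 1)) :=
      mul_nonneg (by linarith) (by linarith)
    nlinarith

theorem not_density : ¬ (∀ ε : ℝ, 0 < ε → ∃ N : ℕ, ∀ n : ℕ, N ≤ n → ∀ A : Finset ℕ,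
      A ⊆ Finset.Icc 1 n →
      (∀ a ∈ A, ∀ b ∈ A, a ≠ b → ¬ (a + b ∣ a * b)) →
      (A.card : ℝ) ≤ (1 / 2 + ε) * (n : ℝ)) := by
  intro hcon
  obtain ⟨M, ε, hε, I0, hmain⟩ := main_est
  obtain ⟨N, hN⟩ := hcon (ε / 2) (by positivity)
  -- choose I
  obtain ⟨I, hI, hIbig⟩ : ∃ I, I0 ≤ I ∧ (N : ℝ) + 1 < ε / 2 * Z (sg M I) := by
    obtain ⟨K, hK⟩ := exists_nat_gt (((N : ℝ) + 1) / (ε / 2 * (Real.log 2 / 2)))
    refine ⟨max I0 K, le_max_left _ _, ?_⟩
    have h1 := Z_large M (max I0 K)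
    have hl2 := Real.log_two_gt_d9
    have h2 : (K : ℝ) ≤ 2 ^ ((M + 1) * max I0 K) := by
      have h3 : K ≤ 2 ^ ((M + 1) * max I0 K) := by
        calc K ≤ 2 ^ K := Nat.lt_two_pow_self.le
          _ ≤ 2 ^ ((M + 1) * max I0 K) := by
              apply Nat.pow_le_pow_right (by norm_num)
              calc K ≤ max I0 K := le_max_right _ _
                _ ≤ (M + 1) * max I0 K := Nat.le_mul_of_pos_left _ (by omega)
      exact_mod_cast h3
    rw [div_lt_iff₀ (by positivity)] at hK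
    calc (N : ℝ) + 1 < K * (ε / 2 * (Real.log 2 / 2)) := hK
      _ ≤ 2 ^ ((M + 1) * max I0 K) * (ε / 2 * (Real.log 2 / 2)) := by
          apply mul_le_mul_of_nonneg_right h2 (by positivity)
      _ = ε / 2 * (2 ^ ((M + 1) * max I0 K) * Real.log 2 / 2) := by ring
      _ ≤ _ := by
          apply mul_le_mul_of_nonneg_left h1 (by positivity)
  obtain ⟨A, hApos, hAadm, hAmass⟩ := hmain I hI
  have hσ := one_lt_sg M I
  have hZ := Z_pos hσ
  -- counting bound
  set c : ℝ := 1 / 2 + ε / 2 with hc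
  have hc0 : 0 ≤ c := by rw [hc]; positivity
  have hcount : ∀ n : ℕ, ∑ k ∈ Finset.range n, (A.indicator (fun _ => (1 : ℝ)) (k + 1) - c) ≤ N := by
    intro n
    have hcard : ∑ k ∈ Finset.range n, A.indicator (fun _ => (1 : ℝ)) (k + 1) =
        (((Finset.Icc 1 n).filter (fun x => x ∈ A)).card : ℝ) := by
      rw [Finset.card_filter]
      push_cast
      rw [Finset.range_eq_Ico, Finset.sum_Ico_add' (fun k => A.indicator (fun _ => (1 : ℝ)) k) 0 n 1]
      apply Finset.sum_congr
      · ext x; simp only [Finset.mem_Ico, Finset.mem_Icc]; omega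
      · intro x _
        rw [Set.indicator_apply]
    rw [Finset.sum_sub_distrib, hcard, Finset.sum_const, Finset.card_range, nsmul_eq_mul]
    rcases le_or_gt N n with h | h
    · have h1 := hN n h ((Finset.Icc 1 n).filter (fun x => x ∈ A)) (Finset.filter_subset _ _)
        (by
          intro a ha b hb hab
          exact hAadm a (Finset.mem_filter.1 ha).2 b (Finset.mem_filter.1 hb).2 hab)
      have hNn : (0 : ℝ) ≤ N := by positivity
      linarith
    · have h1 : (((Finset.Icc 1 n).filter (fun x => x ∈ A)).card : ℝ) ≤ n := by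
        have := Finset.card_filter_le (Finset.Icc 1 n) (fun x => x ∈ A)
        rw [Nat.card_Icc] at this
        have h2 : ((Finset.Icc 1 n).filter (fun x => x ∈ A)).card ≤ n := by omega
        exact_mod_cast h2
      have h2 : (n : ℝ) ≤ N := by exact_mod_cast h.le
      have h3 : 0 ≤ n * c := by positivity
      linarith
  -- Abel summation
  have hbound : mass (sg M I) A ≤ N + c * Z (sg M I) := by
    unfold mass
    apply Real.tsum_le_of_sum_range_le
    · intro n; exact Set.indicator_nonneg (fun _ _ => w_nonneg _ _) n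
    · intro X
      have hN0 : (0 : ℝ) ≤ N := by positivity
      rcases Nat.eq_zero_or_pos X with h0 | h0
      · subst h0; simp; positivity
      · obtain ⟨Y, rfl⟩ : ∃ Y, X = Y + 1 := ⟨X - 1, by omega⟩
        rw [Finset.sum_range_succ']
        have e0 : A.indicator (w (sg M I)) 0 = 0 := by
          rw [Set.indicator_apply]
          split_ifs
          · exact w_zero hσ
          · rfl
        rw [e0, add_zero]
        rcases Nat.eq_zero_or_pos Y with h1 | h1
        · subst h1; simp; positivity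
        · obtain ⟨V, rfl⟩ : ∃ V, Y = V + 1 := ⟨Y - 1, by omega⟩
          have hwanti : ∀ n : ℕ, w (sg M I) (n + 1 + 1) ≤ w (sg M I) (n + 1) := by
            intro n
            unfold w
            apply Real.rpow_le_rpow_of_nonpos (by positivity) (by push_cast; linarith) (by linarith)
          have h2 := abel_ineq (fun k => A.indicator (fun _ => (1 : ℝ)) (k + 1) - c)
            (fun k => w (sg M I) (k + 1)) N hcount hwanti V
          have h3 := hcount (V + 1)
          have h4 : w (sg M I) (0 + 1) = 1 := by rw [zero_add]; exact w_one _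
          have h5 := w_nonneg (sg M I) (V + 1)
          have h6 : ∑ k ∈ Finset.range (V + 1), A.indicator (w (sg M I)) (k + 1) =
              ∑ k ∈ Finset.range (V + 1), (A.indicator (fun _ => (1 : ℝ)) (k + 1) - c) * w (sg M I) (k + 1) +
              c * ∑ k ∈ Finset.range (V + 1), w (sg M I) (k + 1) := by
            rw [Finset.mul_sum, ← Finset.sum_add_distrib]
            apply Finset.sum_congr rfl
            intro k _
            rw [Set.indicator_apply, Set.indicator_apply]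
            split_ifs <;> ring
          have h7 : ∑ k ∈ Finset.range (V + 1), w (sg M I) (k + 1) ≤ Z (sg M I) := by
            have h8 : ∑ k ∈ Finset.range (V + 1 + 1), w (sg M I) k ≤ Z (sg M I) :=
              (summable_w hσ).sum_le_tsum _ (fun k _ => w_nonneg _ k)
            rw [Finset.sum_range_succ', w_zero hσ, add_zero] at h8
            exact h8
          rw [h6]
          simp only [h4] at h2
          have h8 : c * ∑ k ∈ Finset.range (V + 1), w (sg M I) (k + 1) ≤ c * Z (sg M I) :=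
            mul_le_mul_of_nonneg_left h7 hc0
          have h9 : (∑ k ∈ Finset.range (V + 1), (A.indicator (fun _ => (1 : ℝ)) (k + 1) - c)) *
              w (sg M I) (V + 1) ≤ N * w (sg M I) (V + 1) := mul_le_mul_of_nonneg_right h3 h5
          linarith
  rw [hc] at hbound
  linarith

end Pool.Agent.EG327
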