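import Mathlib

set_option autoImplicit false

namespace Pool.Agent.EG327

open Finset Real

/-- the odd primes up to `y` -/
def PP (y : ℕ) : Finset ℕ := (Finset.Icc 3 y).filter Nat.Prime

/-- sum of the reciprocals of the elements of a finite set -/
noncomputable def lam (P : Finset ℕ) : ℝ := ∑ p ∈ P, (1 : ℝ) / p

theorem mem_PP {y p : ℕ} : p ∈ PP y ↔ 3 ≤ p ∧ p ≤ y ∧ p.Prime := by
  simp [PP, and_assoc]

theorem PP_mono {a b : ℕ} (h : a ≤ b) : PP a ⊆ PP b := by
  intro p hp
  rw [mem_PP] at *
  exact ⟨hp.1, hp.2.1.trans h, hp.2.2⟩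

theorem lam_nonneg (P : Finset ℕ) : 0 ≤ lam P :=
  Finset.sum_nonneg fun _ _ => by positivity

theorem lam_mono {P Q : Finset ℕ} (h : P ⊆ Q) : lam P ≤ lam Q :=
  Finset.sum_le_sum_of_subset_of_nonneg h fun _ _ _ => by positivity

theorem sum_floor_log_le (P : Finset ℕ) (hP : ∀ p ∈ P, p.Prime) (n : ℕ) :
    ∑ p ∈ P, ((n / p : ℕ) : ℝ) * Real.log p ≤ Real.log (n.factorial) := by
  induction n with
  | zero => simp
  | succ n ih =>
    have h1 : ∀ p ∈ P, (((n + 1) / p : ℕ) : ℝ) * Real.log p =
        ((n / p : ℕ) : ℝ) * Real.log p + (if p ∣ n + 1 then Real.log p else 0) := by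
      intro p hp
      rw [Nat.succ_div]
      split_ifs with h
      · push_cast; ring
      · simp
    rw [Finset.sum_congr rfl h1, Finset.sum_add_distrib]
    have h2 : ∑ p ∈ P, (if p ∣ n + 1 then Real.log p else 0) ≤ Real.log ((n + 1 : ℕ) : ℝ) := by
      rw [← Finset.sum_filter]
      have h3 : P.filter (fun p => p ∣ n + 1) ⊆ (n + 1).primeFactors := by
        intro p hp
        rw [Finset.mem_filter] at hp
        rw [Nat.mem_primeFactors]
        exact ⟨hP p hp.1, hp.2, by omega⟩
      calc ∑ p ∈ P.filter (fun p => p ∣ n + 1), Real.log p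
          ≤ ∑ p ∈ (n + 1).primeFactors, Real.log p := by
            apply Finset.sum_le_sum_of_subset_of_nonneg h3
            intro p hp _
            exact Real.log_natCast_nonneg p
        _ = Real.log (∏ p ∈ (n + 1).primeFactors, (p : ℝ)) := by
            rw [Real.log_prod]
            intro p hp
            have := (Nat.prime_of_mem_primeFactors hp).pos
            positivity
        _ ≤ Real.log ((n + 1 : ℕ) : ℝ) := by
            apply Real.log_le_log
            · apply Finset.prod_pos
              intro p hp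
              have := (Nat.prime_of_mem_primeFactors hp).pos
              positivity
            · have := Nat.le_of_dvd (by omega) (Nat.prod_primeFactors_dvd (n + 1))
              calc (∏ p ∈ (n + 1).primeFactors, (p : ℝ)) = ((∏ p ∈ (n + 1).primeFactors, p : ℕ) : ℝ) := by
                    push_cast; rfl
                _ ≤ ((n + 1 : ℕ) : ℝ) := by exact_mod_cast this
    have h4 : Real.log ((n + 1).factorial) = Real.log (n.factorial) + Real.log ((n + 1 : ℕ) : ℝ) := by
      rw [Nat.factorial_succ]
      push_cast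
      rw [Real.log_mul (by positivity) (by positivity)]
      ring
    rw [h4]
    linarith

/-- `∑ log p / p ≤ log n + log 4` -/
theorem sum_log_div_le (n : ℕ) (hn : 1 ≤ n) :
    ∑ p ∈ PP n, Real.log p / p ≤ Real.log n + Real.log 4 := by
  have hn0 : (0 : ℝ) < n := by exact_mod_cast hn
  have h1 := sum_floor_log_le (PP n) (fun p hp => (mem_PP.1 hp).2.2) n
  have h2 : Real.log (n.factorial) ≤ n * Real.log n := by
    have : (n.factorial : ℝ) ≤ (n : ℝ) ^ n := by
      exact_mod_cast Nat.factorial_le_pow n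
    calc Real.log (n.factorial) ≤ Real.log ((n : ℝ) ^ n) := by
          apply Real.log_le_log (by exact_mod_cast Nat.factorial_pos n) this
      _ = n * Real.log n := by rw [Real.log_pow]
  have h3 : ∑ p ∈ PP n, Real.log p ≤ Real.log 4 * n := by
    have := Chebyshev.theta_le_log4_mul_x (x := (n : ℝ)) (by positivity)
    refine le_trans ?_ this
    rw [Chebyshev.theta_eq_sum_Icc]
    rw [Nat.floor_natCast]
    apply Finset.sum_le_sum_of_subset_of_nonneg
    · intro p hp
      rw [mem_PP] at hp
      simp [hp.2.1, hp.2.2]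
    · intro p hp _
      exact Real.log_natCast_nonneg p
  have h4 : n * ∑ p ∈ PP n, Real.log p / p ≤ ∑ p ∈ PP n, (((n / p : ℕ) : ℝ) * Real.log p + Real.log p) := by
    rw [Finset.mul_sum]
    apply Finset.sum_le_sum
    intro p hp
    rw [mem_PP] at hp
    have hp0 : (0 : ℝ) < p := by exact_mod_cast hp.2.2.pos
    have h5 : (n : ℝ) / p ≤ ((n / p : ℕ) : ℝ) + 1 := by
      rw [div_le_iff₀ hp0]
      have := Nat.lt_div_mul_add hp.2.2.pos (a := n)
      have h6 : n ≤ (n / p + 1) * p := by
        rw [add_mul, one_mul]; omega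
      exact_mod_cast h6
    have h6 : 0 ≤ Real.log p := Real.log_natCast_nonneg p
    calc (n : ℝ) * (Real.log p / p) = ((n : ℝ) / p) * Real.log p := by ring
      _ ≤ (((n / p : ℕ) : ℝ) + 1) * Real.log p := by gcongr
      _ = _ := by ring
  rw [Finset.sum_add_distrib] at h4
  have h5 : n * ∑ p ∈ PP n, Real.log p / p ≤ n * (Real.log n + Real.log 4) := by
    nlinarith
  exact le_of_mul_le_mul_left h5 hn0

theorem PP_succ (n : ℕ) (hn : 2 ≤ n) :
    PP (n + 1) = if (n + 1).Prime then insert (n + 1) (PP n) else PP n := by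
  ext p
  split_ifs with h
  · simp only [mem_PP, Finset.mem_insert]
    constructor
    · rintro ⟨h1, h2, h3⟩
      rcases Nat.lt_or_ge n p with h4 | h4
      · left; omega
      · right; exact ⟨h1, h4, h3⟩
    · rintro (h1 | h1)
      · subst h1; exact ⟨by omega, le_rfl, h⟩
      · exact ⟨h1.1, by omega, h1.2.2⟩
  · simp only [mem_PP]
    constructor
    · rintro ⟨h1, h2, h3⟩
      rcases Nat.lt_or_ge n p with h4 | h4
      · exfalso; have : p = n + 1 := by omega
        subst this; exact h h3
      · exact ⟨h1, h4, h3⟩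
    · rintro h1
      exact ⟨h1.1, by omega, h1.2.2⟩

theorem PP_two : PP 2 = ∅ := by
  ext p
  simp only [mem_PP, Finset.notMem_empty, iff_false]
  omega

/-- the partial summation step -/
theorem lam_PP_le_aux (n : ℕ) (hn : 2 ≤ n) :
    lam (PP n) ≤ (∑ p ∈ PP n, Real.log p / p) / Real.log n +
      (Real.log (Real.log n) - Real.log (Real.log 2)) +
      Real.log 4 * (1 / Real.log 2 - 1 / Real.log n) := by
  induction n, hn using Nat.le_induction with
  | base =>
    rw [PP_two]; simp [lam]
  | succ n hn ih =>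
    have hn' : (2 : ℝ) ≤ n := by exact_mod_cast hn
    have hlog : 0 < Real.log n := Real.log_pos (by linarith)
    have hlog' : Real.log n < Real.log ((n + 1 : ℕ) : ℝ) := by
      apply Real.log_lt_log (by linarith)
      push_cast; linarith
    have hlogp : 0 < Real.log ((n + 1 : ℕ) : ℝ) := hlog.trans hlog'
    set A := ∑ p ∈ PP n, Real.log p / p with hA
    have hAle : A ≤ Real.log n + Real.log 4 := sum_log_div_le n (by omega)
    set u := Real.log n with hu
    set v := Real.log ((n + 1 : ℕ) : ℝ) with hv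
    -- A (1/u - 1/v) ≤ (log v - log u) + log 4 (1/u - 1/v)
    have h1 : 0 ≤ 1 / u - 1 / v := by
      rw [sub_nonneg]
      exact one_div_le_one_div_of_le hlog hlog'.le
    have h2 : u * (1 / u - 1 / v) ≤ Real.log v - Real.log u := by
      have h3 : 1 - (v / u)⁻¹ ≤ Real.log (v / u) := Real.one_sub_inv_le_log_of_pos (by positivity)
      rw [Real.log_div (by positivity) (by positivity)] at h3
      have h4 : u * (1 / u - 1 / v) = 1 - (v / u)⁻¹ := by
        field_simp
      rw [h4]; exact h3
    have h3 : A * (1 / u - 1 / v) ≤ (Real.log v - Real.log u) + Real.log 4 * (1 / u - 1 / v) := by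
      calc A * (1 / u - 1 / v) ≤ (u + Real.log 4) * (1 / u - 1 / v) := by gcongr
        _ = u * (1 / u - 1 / v) + Real.log 4 * (1 / u - 1 / v) := by ring
        _ ≤ _ := by linarith
    rw [PP_succ n hn]
    split_ifs with hp
    · have hnot : (n + 1) ∉ PP n := by rw [mem_PP]; omega
      have e1 : lam (insert (n + 1) (PP n)) = 1 / ((n + 1 : ℕ) : ℝ) + lam (PP n) := by
        unfold lam; rw [Finset.sum_insert hnot]
      have e2 : ∑ p ∈ insert (n + 1) (PP n), Real.log p / p = v / ((n + 1 : ℕ) : ℝ) + A := by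
        rw [Finset.sum_insert hnot]
      rw [e1, e2]
      have e3 : (v / ((n + 1 : ℕ) : ℝ) + A) / v = 1 / ((n + 1 : ℕ) : ℝ) + A / v := by
        field_simp
      rw [e3]
      have e4 : A / u - A / v = A * (1 / u - 1 / v) := by ring
      nlinarith
    · have e4 : A / u - A / v = A * (1 / u - 1 / v) := by ring
      rw [← hA]
      nlinarith

/-- upper Mertens bound -/
theorem lam_PP_le (n : ℕ) (hn : 2 ≤ n) :
    lam (PP n) ≤ Real.log (Real.log n) + 8 := by
  have h := lam_PP_le_aux n hn
  have hn' : (2 : ℝ) ≤ n := by exact_mod_cast hn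
  have hlog2 : 0.69 < Real.log 2 := by have := Real.log_two_gt_d9; linarith
  have hlog2' : Real.log 2 ≤ Real.log n := Real.log_le_log (by norm_num) hn'
  have hlog : 0 < Real.log n := by linarith
  have h4 : Real.log 4 = 2 * Real.log 2 := by
    rw [show (4 : ℝ) = 2 ^ 2 by norm_num, Real.log_pow]; norm_num
  have h1 : (∑ p ∈ PP n, Real.log p / p) / Real.log n ≤ 3 := by
    rw [div_le_iff₀ hlog]
    have := sum_log_div_le n (by omega)
    linarith
  have h2 : -1 ≤ Real.log (Real.log 2) := by
    have h3 : 1 - (Real.log 2)⁻¹ ≤ Real.log (Real.log 2) :=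
      Real.one_sub_inv_le_log_of_pos (by linarith)
    have h5 : (Real.log 2)⁻¹ ≤ 2 := by
      rw [inv_le_comm₀ (by linarith) (by norm_num)]; norm_num; linarith
    linarith
  have h3 : Real.log 4 * (1 / Real.log 2 - 1 / Real.log n) ≤ 2 := by
    rw [h4]
    have : 0 < 1 / Real.log n := by positivity
    have h6 : 2 * Real.log 2 * (1 / Real.log 2) = 2 := by field_simp
    nlinarith
  linarith


/-- telescoping bound -/
theorem sum_inv_mul_pred_le (n : ℕ) :
    ∑ k ∈ Finset.Icc 2 n, (1 : ℝ) / (k * (k - 1)) ≤ 1 := by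
  have h : ∀ n : ℕ, 1 ≤ n → ∑ k ∈ Finset.Icc 2 n, (1 : ℝ) / (k * (k - 1)) = 1 - 1 / n := by
    intro n hn
    induction n, hn using Nat.le_induction with
    | base => simp
    | succ n hn ih =>
      rw [Finset.sum_Icc_succ_top (by omega), ih]
      have : (0 : ℝ) < n := by exact_mod_cast hn
      push_cast
      rw [show (n : ℝ) + 1 - 1 = n by ring]
      field_simp
      ring
  rcases Nat.eq_zero_or_pos n with h0 | h0
  · subst h0; simp
  · rw [h n h0]
    have : (0 : ℝ) < n := by exact_mod_cast h0
    have : 0 ≤ 1 / (n : ℝ) := by positivity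
    linarith

/-- the map `n ↦ 1/n` as a monoid hom -/
noncomputable def invHom : ℕ →* ℝ where
  toFun n := (n : ℝ)⁻¹
  map_one' := by simp
  map_mul' := by intro a b; push_cast; rw [mul_inv]

theorem log_le_prod (n : ℕ) :
    Real.log ((n : ℝ) + 1) ≤ ∏ p ∈ (n + 1).primesBelow, (1 - (p : ℝ)⁻¹)⁻¹ := by
  have h := EulerProduct.summable_and_hasSum_smoothNumbers_prod_primesBelow_geometric
    (f := invHom) (by
      intro p hp
      simp only [invHom, MonoidHom.coe_mk, OneHom.coe_mk, norm_inv, Real.norm_natCast]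
      have : (1 : ℝ) < p := by exact_mod_cast hp.one_lt
      exact inv_lt_one_of_one_lt₀ this) (n + 1)
  have h2 := h.2
  simp only [invHom, MonoidHom.coe_mk, OneHom.coe_mk] at h2
  have h1 : Real.log ((n : ℝ) + 1) ≤ ∑ k ∈ Finset.Icc 1 n, ((k : ℝ))⁻¹ := by
    have := log_add_one_le_harmonic n
    rw [harmonic_eq_sum_Icc] at this
    push_cast at this
    exact this
  refine h1.trans ?_
  -- Icc 1 n inside smooth numbers
  let g : {x // x ∈ Finset.Icc 1 n} → (n + 1).smoothNumbers := fun k =>
    ⟨k.1, by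
      have hk := Finset.mem_Icc.1 k.2
      rw [Nat.mem_smoothNumbers]
      refine ⟨by omega, fun p hp => ?_⟩
      have := Nat.le_of_mem_primeFactorsList hp
      omega⟩
  have hg : Function.Injective g := by
    intro a b hab
    simp only [g, Subtype.mk.injEq] at hab
    exact Subtype.ext hab
  have h3 := sum_le_hasSum (Finset.univ.map ⟨g, hg⟩) (fun i _ => by positivity) h2
  rw [Finset.sum_map] at h3
  simp only [Function.Embedding.coeFn_mk, g] at h3
  rw [← Finset.sum_coe_sort (Finset.Icc 1 n)]
  convert h3 using 2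

/-- lower Mertens bound -/
theorem le_lam_PP (n : ℕ) (hn : 2 ≤ n) :
    Real.log (Real.log n) - 2 ≤ lam (PP n) := by
  have hn' : (2 : ℝ) ≤ n := by exact_mod_cast hn
  have hlog : 0 < Real.log n := Real.log_pos (by linarith)
  have h := log_le_prod n
  have h1 : Real.log (Real.log n) ≤ ∑ p ∈ (n + 1).primesBelow, Real.log ((1 - (p : ℝ)⁻¹)⁻¹) := by
    rw [← Real.log_prod]
    · apply Real.log_le_log hlog
      refine le_trans ?_ h
      apply Real.log_le_log (by linarith) (by linarith)
    · intro p hp
      have hp' := Nat.prime_of_mem_primesBelow hp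
      have : (1 : ℝ) < p := by exact_mod_cast hp'.one_lt
      have h2 : (p : ℝ)⁻¹ < 1 := inv_lt_one_of_one_lt₀ this
      have : 0 < 1 - (p : ℝ)⁻¹ := by linarith
      positivity
  have h2 : ∀ p ∈ (n + 1).primesBelow, Real.log ((1 - (p : ℝ)⁻¹)⁻¹) ≤ 1 / (p : ℝ) + 1 / (p * (p - 1)) := by
    intro p hp
    have hp' := Nat.prime_of_mem_primesBelow hp
    have h1 : (1 : ℝ) < p := by exact_mod_cast hp'.one_lt
    have h2 : (p : ℝ)⁻¹ < 1 := inv_lt_one_of_one_lt₀ h1
    have h3 : 0 < 1 - (p : ℝ)⁻¹ := by linarith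
    have h4 := Real.log_le_sub_one_of_pos (inv_pos.2 h3)
    refine h4.trans (le_of_eq ?_)
    have h5 : (p : ℝ) - 1 ≠ 0 := by linarith
    have h6 : (p : ℝ) ≠ 0 := by linarith
    have h7 : 1 - (p : ℝ)⁻¹ = (p - 1) / p := by field_simp
    rw [h7]
    field_simp
    ring
  have h3 := Finset.sum_le_sum h2
  rw [Finset.sum_add_distrib] at h3
  have h4 : ∑ p ∈ (n + 1).primesBelow, (1 : ℝ) / (p * (p - 1)) ≤ 1 := by
    refine le_trans ?_ (sum_inv_mul_pred_le n)
    apply Finset.sum_le_sum_of_subset_of_nonneg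
    · intro p hp
      have hp' := Nat.prime_of_mem_primesBelow hp
      have := Nat.lt_of_mem_primesBelow hp
      rw [Finset.mem_Icc]
      exact ⟨hp'.two_le, by omega⟩
    · intro k hk _
      rw [Finset.mem_Icc] at hk
      have : (2 : ℝ) ≤ k := by exact_mod_cast hk.1
      have : 0 < (k : ℝ) - 1 := by linarith
      positivity
  have h5 : ∑ p ∈ (n + 1).primesBelow, (1 : ℝ) / p ≤ 1 / 2 + lam (PP n) := by
    have h6 : (n + 1).primesBelow ⊆ insert 2 (PP n) := by
      intro p hp
      have hp' := Nat.prime_of_mem_primesBelow hp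
      have := Nat.lt_of_mem_primesBelow hp
      rw [Finset.mem_insert, mem_PP]
      rcases hp'.eq_two_or_odd with h | h
      · left; exact h
      · right
        have := hp'.two_le
        exact ⟨by omega, by omega, hp'⟩
    calc ∑ p ∈ (n + 1).primesBelow, (1 : ℝ) / p ≤ ∑ p ∈ insert 2 (PP n), (1 : ℝ) / p :=
          Finset.sum_le_sum_of_subset_of_nonneg h6 fun _ _ _ => by positivity
      _ = 1 / 2 + lam (PP n) := by
          rw [Finset.sum_insert (by rw [mem_PP]; omega)]
          unfold lam
          norm_num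
  linarith


theorem sum_inv_sq_le (y : ℕ) (P : Finset ℕ) (hP : P ⊆ PP y) : ∑ p ∈ P, (1 : ℝ) / p ^ 2 ≤ 1 := by
  refine le_trans ?_ (sum_inv_mul_pred_le y)
  calc ∑ p ∈ P, (1 : ℝ) / p ^ 2 ≤ ∑ p ∈ P, (1 : ℝ) / (p * (p - 1)) := by
        apply Finset.sum_le_sum
        intro p hp
        have h := (mem_PP.1 (hP hp)).1
        have h' : (3 : ℝ) ≤ p := by exact_mod_cast h
        apply one_div_le_one_div_of_le
        · nlinarith
        · nlinarith
    _ ≤ _ := by
        apply Finset.sum_le_sum_of_subset_of_nonneg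
        · intro p hp
          have h := mem_PP.1 (hP hp)
          rw [Finset.mem_Icc]
          exact ⟨by omega, by omega⟩
        · intro k hk _
          rw [Finset.mem_Icc] at hk
          have : (2 : ℝ) ≤ k := by exact_mod_cast hk.1
          have : 0 < (k : ℝ) - 1 := by linarith
          positivity

end Pool.Agent.EG327
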