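import Pool.Agent.EG327.Prob

set_option autoImplicit false

namespace Pool.Agent.EG327

open Finset Real

/-- levels -/
def yy (M i : ℕ) : ℕ := 2 ^ (2 ^ (M * i))

/-- primes up to level `i` -/
def PL (M i : ℕ) : Finset ℕ := PP (yy M i)

/-- reciprocal sum up to level `i` -/
noncomputable def la (M i : ℕ) : ℝ := lam (PL M i)

/-- the exponent -/
noncomputable def sg (M I : ℕ) : ℝ := 1 + 1 / 2 ^ ((M + 1) * I)

theorem two_le_yy (M i : ℕ) : 2 ≤ yy M i := by
  unfold yy
  calc 2 = 2 ^ 1 := by norm_num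
    _ ≤ 2 ^ (2 ^ (M * i)) := Nat.pow_le_pow_right (by norm_num) Nat.one_le_two_pow

theorem yy_mono (M : ℕ) {i j : ℕ} (h : i ≤ j) : yy M i ≤ yy M j := by
  unfold yy
  apply Nat.pow_le_pow_right (by norm_num)
  apply Nat.pow_le_pow_right (by norm_num)
  exact Nat.mul_le_mul_left M h

theorem PL_mono (M : ℕ) {i j : ℕ} (h : i ≤ j) : PL M i ⊆ PL M j := PP_mono (yy_mono M h)

theorem PL_prime {M i p : ℕ} (h : p ∈ PL M i) : p.Prime := (mem_PP.1 h).2.2

theorem PL_three {M i p : ℕ} (h : p ∈ PL M i) : 3 ≤ p := (mem_PP.1 h).1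

theorem la_mono (M : ℕ) {i j : ℕ} (h : i ≤ j) : la M i ≤ la M j := lam_mono (PL_mono M h)

theorem la_nonneg (M i : ℕ) : 0 ≤ la M i := lam_nonneg _

theorem log_yy (M i : ℕ) : Real.log (yy M i) = 2 ^ (M * i) * Real.log 2 := by
  unfold yy
  push_cast
  rw [Real.log_pow]
  push_cast
  ring

theorem loglog_two : -1 ≤ Real.log (Real.log 2) ∧ Real.log (Real.log 2) ≤ 0 := by
  have h1 := Real.log_two_gt_d9
  have h2 := Real.log_two_lt_d9
  constructor
  · have h3 : 1 - (Real.log 2)⁻¹ ≤ Real.log (Real.log 2) :=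
      Real.one_sub_inv_le_log_of_pos (by linarith)
    have h5 : (Real.log 2)⁻¹ ≤ 2 := by
      rw [inv_le_comm₀ (by linarith) (by norm_num)]; norm_num; linarith
    linarith
  · apply Real.log_nonpos (by linarith) (by linarith)

theorem loglog_yy (M i : ℕ) :
    Real.log (Real.log (yy M i)) = M * i * Real.log 2 + Real.log (Real.log 2) := by
  have h1 := Real.log_two_gt_d9
  rw [log_yy, Real.log_mul (by positivity) (by linarith), Real.log_pow]
  push_cast; ring

theorem le_la (M i : ℕ) : M * i * Real.log 2 - 3 ≤ la M i := by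
  have h := le_lam_PP (yy M i) (two_le_yy M i)
  rw [loglog_yy] at h
  have := loglog_two.1
  unfold la PL
  linarith

theorem la_le (M i : ℕ) : la M i ≤ M * i * Real.log 2 + 8 := by
  have h := lam_PP_le (yy M i) (two_le_yy M i)
  rw [loglog_yy] at h
  have := loglog_two.2
  unfold la PL
  linarith

theorem la_diff (M i j : ℕ) : M * (j - i : ℝ) * Real.log 2 - 11 ≤ la M j - la M i := by
  have h1 := le_la M j
  have h2 := la_le M i
  have : M * (j - i : ℝ) * Real.log 2 = M * j * Real.log 2 - M * i * Real.log 2 := by ring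
  linarith

theorem one_lt_sg (M I : ℕ) : 1 < sg M I := by
  unfold sg
  have : (0 : ℝ) < 1 / 2 ^ ((M + 1) * I) := by positivity
  linarith

theorem sg_le_two (M I : ℕ) : sg M I ≤ 2 := by
  unfold sg
  have : (1 : ℝ) / 2 ^ ((M + 1) * I) ≤ 1 := by
    rw [div_le_one (by positivity)]
    exact one_le_pow₀ (by norm_num)
  linarith

/-- on the primes up to level `I` the weights `p^{-σ}` and `1/p` are close -/
theorem sum_diff_le (M I : ℕ) (hM : 1 ≤ M) (hI : 1 ≤ I) (Q : Finset ℕ) (hQ : Q ⊆ PL M I) :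
    ∑ p ∈ Q, (1 : ℝ) / p - 1 ≤ ∑ p ∈ Q, w (sg M I) p := by
  have h1 : ∀ p ∈ PL M I, (1 : ℝ) / p - w (sg M I) p ≤ (sg M I - 1) * (Real.log p / p) := by
    intro p hp
    have hp3 : (3 : ℝ) ≤ p := by exact_mod_cast PL_three hp
    have hp0 : (0 : ℝ) < p := by linarith
    have e1 : w (sg M I) p = (1 / p) * Real.exp (-(sg M I - 1) * Real.log p) := by
      unfold w
      rw [show -sg M I = -1 + -(sg M I - 1) by ring, Real.rpow_add hp0, Real.rpow_neg_one,
        Real.rpow_def_of_pos hp0, one_div, mul_comm (Real.log p)]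
    rw [e1]
    have h2 := Real.add_one_le_exp (-(sg M I - 1) * Real.log p)
    have h3 : (1 : ℝ) / p - 1 / p * Real.exp (-(sg M I - 1) * Real.log p) =
        (1 / p) * (1 - Real.exp (-(sg M I - 1) * Real.log p)) := by ring
    rw [h3]
    calc (1 : ℝ) / p * (1 - Real.exp (-(sg M I - 1) * Real.log p))
        ≤ 1 / p * ((sg M I - 1) * Real.log p) := by
          apply mul_le_mul_of_nonneg_left _ (by positivity)
          linarith
      _ = _ := by ring
  have h2 : ∑ p ∈ Q, ((1 : ℝ) / p - w (sg M I) p) ≤ ∑ p ∈ PL M I, (sg M I - 1) * (Real.log p / p) := by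
    refine (Finset.sum_le_sum fun p hp => h1 p (hQ hp)).trans ?_
    apply Finset.sum_le_sum_of_subset_of_nonneg hQ
    intro p hp _
    have := one_lt_sg M I
    have hp3 : (3 : ℝ) ≤ p := by exact_mod_cast PL_three hp
    have : 0 ≤ Real.log p := Real.log_nonneg (by linarith)
    have : 0 ≤ sg M I - 1 := by linarith
    positivity
  rw [← Finset.mul_sum] at h2
  have h3 := sum_log_div_le (yy M I) (by have := two_le_yy M I; omega)
  rw [log_yy] at h3
  have h4 : Real.log 4 = 2 * Real.log 2 := by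
    rw [show (4 : ℝ) = 2 ^ 2 by norm_num, Real.log_pow]; norm_num
  have hl2 := Real.log_two_lt_d9
  have hl2' := Real.log_two_gt_d9
  have h5 : (sg M I - 1) * ∑ p ∈ PL M I, Real.log p / p ≤ 1 := by
    have h6 : sg M I - 1 = 1 / 2 ^ ((M + 1) * I) := by unfold sg; ring
    rw [h6]
    have h7 : (2 : ℝ) ^ ((M + 1) * I) = 2 ^ (M * I) * 2 ^ I := by rw [← pow_add]; ring_nf
    rw [h7]
    have hA : (2 : ℝ) ≤ 2 ^ (M * I) := by
      calc (2 : ℝ) = 2 ^ 1 := by norm_num
        _ ≤ 2 ^ (M * I) := pow_le_pow_right₀ (by norm_num) (Nat.mul_pos hM hI)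
    have hB : (2 : ℝ) ≤ 2 ^ I := by
      calc (2 : ℝ) = 2 ^ 1 := by norm_num
        _ ≤ 2 ^ I := pow_le_pow_right₀ (by norm_num) hI
    set A : ℝ := 2 ^ (M * I) with hAdef
    set B : ℝ := 2 ^ I with hBdef
    rw [div_mul_eq_mul_div, one_mul, div_le_one (by positivity)]
    refine h3.trans ?_
    rw [h4]
    nlinarith
  rw [Finset.sum_sub_distrib] at h2
  linarith

theorem sum_w_le {M I : ℕ} (Q : Finset ℕ) : ∑ p ∈ Q, w (sg M I) p ≤ lam Q := by
  unfold lam
  apply Finset.sum_le_sum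
  intro p _
  exact w_le_inv (one_lt_sg M I) p

theorem sum_w_sq_le {M I i : ℕ} (Q : Finset ℕ) (hQ : Q ⊆ PL M i) : ∑ p ∈ Q, w (sg M I) p ^ 2 ≤ 1 := by
  refine le_trans ?_ (sum_inv_sq_le (yy M i) Q hQ)
  apply Finset.sum_le_sum
  intro p _
  have h1 := w_le_inv (one_lt_sg M I) p
  have h0 := w_nonneg (sg M I) p
  calc w (sg M I) p ^ 2 ≤ (1 / (p : ℝ)) ^ 2 := pow_le_pow_left₀ h0 h1 2
    _ = 1 / (p : ℝ) ^ 2 := by rw [div_pow, one_pow]

theorem lam_sdiff {A B : Finset ℕ} (h : A ⊆ B) : lam (B \ A) = lam B - lam A := by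
  unfold lam
  rw [← Finset.sum_sdiff h]; ring

end Pool.Agent.EG327
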