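import Pool.Agent.EG327.Zeta

set_option autoImplicit false

namespace Pool.Agent.EG327

open Finset Real

theorem pow_card_inter {P Q S : Finset ℕ} (hQ : Q ⊆ P) (x : ℝ) :
    x ^ (S ∩ Q).card = ∏ p ∈ P, (if p ∈ S then (if p ∈ Q then x else 1) else 1) := by
  rw [← Finset.prod_const]
  have h : S ∩ Q ⊆ P := (Finset.inter_subset_right).trans hQ
  rw [← Finset.prod_subset h]
  · apply Finset.prod_congr rfl
    intro p hp
    rw [Finset.mem_inter] at hp
    simp [hp.1, hp.2]
  · intro p _ hp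
    rw [Finset.mem_inter] at hp
    by_cases h1 : p ∈ S
    · have : p ∉ Q := fun h2 => hp ⟨h1, h2⟩
      simp [this]
    · simp [h1]

theorem E_pow_card {P Q : Finset ℕ} (hQ : Q ⊆ P) (q : ℕ → ℝ) (x : ℝ) :
    E P q (fun S => x ^ (S ∩ Q).card) = ∏ p ∈ Q, (1 - (1 - x) * q p) := by
  have h1 : E P q (fun S => x ^ (S ∩ Q).card) =
      E P q (fun S => ∏ p ∈ P, (if p ∈ S then (if p ∈ Q then x else 1) else 1)) := by
    apply E_congr
    intro S _
    exact pow_card_inter hQ x
  rw [h1, E_prod P q (fun p => if p ∈ Q then x else 1) (fun _ => 1)]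
  rw [← Finset.prod_subset hQ]
  · apply Finset.prod_congr rfl
    intro p hp
    simp only [hp, if_true]; ring
  · intro p _ hp
    simp only [hp, if_false]; ring

theorem prod_one_sub_le (Q : Finset ℕ) (q : ℕ → ℝ) (c : ℝ) (h : ∀ p ∈ Q, 0 ≤ 1 - c * q p) :
    ∏ p ∈ Q, (1 - c * q p) ≤ Real.exp (-c * ∑ p ∈ Q, q p) := by
  calc ∏ p ∈ Q, (1 - c * q p) ≤ ∏ p ∈ Q, Real.exp (-c * q p) := by
        apply Finset.prod_le_prod h
        intro p _
        have := Real.add_one_le_exp (-c * q p)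
        linarith
    _ = _ := by rw [← Real.exp_sum, Finset.mul_sum]

/-- Chernoff bound for the upper tail -/
theorem chernoff_upper {P Q : Finset ℕ} (hQ : Q ⊆ P) (q : ℕ → ℝ) (hq0 : ∀ p ∈ P, 0 ≤ q p)
    (hq1 : ∀ p ∈ P, q p ≤ 1) (l φ : ℝ) (hφ : 1 < φ) (hl : ∑ p ∈ Q, q p ≤ l) :
    E P q (fun S => if ((S ∩ Q).card : ℝ) ≤ φ * l then 0 else 1) ≤
      Real.exp (-(φ * Real.log φ - φ + 1) * l) := by
  have hlog : 0 < Real.log φ := Real.log_pos hφ
  have h1 : E P q (fun S => if ((S ∩ Q).card : ℝ) ≤ φ * l then 0 else 1) ≤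
      E P q (fun S => Real.exp (-(φ * Real.log φ) * l) * φ ^ (S ∩ Q).card) := by
    apply E_mono hq0 hq1
    intro S _
    split_ifs with h
    · positivity
    · push Not at h
      rw [← Real.exp_log (show (0 : ℝ) < φ by linarith), ← Real.exp_nat_mul, ← Real.exp_add,
        Real.exp_log (show (0 : ℝ) < φ by linarith)]
      apply Real.one_le_exp
      nlinarith
  refine h1.trans ?_
  rw [E_smul, E_pow_card hQ]
  have h2 : ∏ p ∈ Q, (1 - (1 - φ) * q p) ≤ Real.exp (-(1 - φ) * ∑ p ∈ Q, q p) := by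
    apply prod_one_sub_le
    intro p hp
    have := hq0 p (hQ hp)
    nlinarith
  calc Real.exp (-(φ * Real.log φ) * l) * ∏ p ∈ Q, (1 - (1 - φ) * q p)
      ≤ Real.exp (-(φ * Real.log φ) * l) * Real.exp (-(1 - φ) * ∑ p ∈ Q, q p) := by gcongr
    _ = Real.exp (-(φ * Real.log φ) * l + -(1 - φ) * ∑ p ∈ Q, q p) := by rw [Real.exp_add]
    _ ≤ _ := by
        apply Real.exp_le_exp.2
        have : (φ - 1) * ∑ p ∈ Q, q p ≤ (φ - 1) * l := by
          apply mul_le_mul_of_nonneg_left hl; linarith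
        linarith

theorem exp_le_one_sub {u : ℝ} (h0 : 0 ≤ u) (h1 : u ≤ 1 / 2) : Real.exp (-u - 2 * u ^ 2) ≤ 1 - u := by
  have h2 : 0 < 1 - u := by linarith
  rw [← Real.exp_log h2]
  apply Real.exp_le_exp.2
  have h3 := Real.one_sub_inv_le_log_of_pos h2
  refine le_trans ?_ h3
  have h4 : (1 - u)⁻¹ ≤ 1 + u + 2 * u ^ 2 := by
    rw [inv_le_comm₀ h2 (by positivity)]
    rw [inv_le_iff_one_le_mul₀ (by positivity)]
    nlinarith [mul_nonneg h0 h0, mul_nonneg (mul_nonneg h0 h0) (sub_nonneg.2 h1)]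
  linarith

theorem prod_one_sub_ge (Q : Finset ℕ) (q : ℕ → ℝ) (c : ℝ) (hc0 : 0 ≤ c) (hc1 : c ≤ 1 / 2)
    (hq0 : ∀ p ∈ Q, 0 ≤ q p) (hq1 : ∀ p ∈ Q, q p ≤ 1) (hsq : ∑ p ∈ Q, q p ^ 2 ≤ 1) :
    Real.exp (-c * ∑ p ∈ Q, q p - 1) ≤ ∏ p ∈ Q, (1 - c * q p) := by
  calc Real.exp (-c * ∑ p ∈ Q, q p - 1) ≤ Real.exp (∑ p ∈ Q, (-(c * q p) - 2 * (c * q p) ^ 2)) := by
        apply Real.exp_le_exp.2
        rw [Finset.sum_sub_distrib]
        have h1 : ∑ p ∈ Q, -(c * q p) = -c * ∑ p ∈ Q, q p := by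
          rw [Finset.mul_sum]; apply Finset.sum_congr rfl; intro p _; ring
        have h2 : ∑ p ∈ Q, 2 * (c * q p) ^ 2 = 2 * c ^ 2 * ∑ p ∈ Q, q p ^ 2 := by
          rw [Finset.mul_sum]; apply Finset.sum_congr rfl; intro p _; ring
        rw [h1, h2]
        have h3 : 2 * c ^ 2 ≤ 1 := by nlinarith
        have h4 : 0 ≤ ∑ p ∈ Q, q p ^ 2 := Finset.sum_nonneg fun p _ => by positivity
        nlinarith
    _ = ∏ p ∈ Q, Real.exp (-(c * q p) - 2 * (c * q p) ^ 2) := by rw [Real.exp_sum]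
    _ ≤ _ := by
        apply Finset.prod_le_prod
        · intro p _; positivity
        · intro p hp
          apply exp_le_one_sub
          · exact mul_nonneg hc0 (hq0 p hp)
          · have := hq0 p hp
            have := hq1 p hp
            nlinarith

theorem pow_eq_exp {x : ℝ} (hx : 0 < x) (n : ℕ) : x ^ n = Real.exp (n * Real.log x) := by
  rw [Real.exp_nat_mul, Real.exp_log hx]

/-- lower bound for the probability of having few primes -/
theorem block_aux (Q : Finset ℕ) (q : ℕ → ℝ) (hq0 : ∀ p ∈ Q, 0 ≤ q p) (hq1 : ∀ p ∈ Q, q p ≤ 1)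
    (hsq : ∑ p ∈ Q, q p ^ 2 ≤ 1) (a x b : ℝ) (ha : 0 < a) (hax : a < x) (hxb : x < b) (hb : b < 1)
    (hx : 1 / 2 ≤ x) :
    Real.exp (-(1 - x) * (∑ p ∈ Q, q p) - 1) ≤
      Real.exp (a * (∑ p ∈ Q, q p) * Real.log x) *
        E Q q (fun S => if (S.card : ℝ) ≤ b * ∑ p ∈ Q, q p then 1 else 0) +
      Real.exp (b * (∑ p ∈ Q, q p) * Real.log (x / b)) * Real.exp (-(1 - b) * ∑ p ∈ Q, q p) +
      Real.exp (a * (∑ p ∈ Q, q p) * Real.log (x / a)) * Real.exp (-(1 - a) * ∑ p ∈ Q, q p) := by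
  set L := ∑ p ∈ Q, q p with hL
  have hL0 : 0 ≤ L := Finset.sum_nonneg hq0
  have hx0 : 0 < x := by linarith
  have hb0 : 0 < b := by linarith
  have hlx : Real.log x < 0 := Real.log_neg hx0 (by linarith)
  have hlxb : Real.log (x / b) < 0 := by
    apply Real.log_neg (by positivity)
    rw [div_lt_one hb0]; exact hxb
  have hlxa : 0 < Real.log (x / a) := by
    apply Real.log_pos
    rw [lt_div_iff₀ ha]; linarith
  have hdb : Real.log x = Real.log b + Real.log (x / b) := by
    rw [Real.log_div (by positivity) (by positivity)]; ring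
  have hda : Real.log x = Real.log a + Real.log (x / a) := by
    rw [Real.log_div (by positivity) (by positivity)]; ring
  have h1 : Real.exp (-(1 - x) * L - 1) ≤ E Q q (fun S => x ^ (S ∩ Q).card) := by
    rw [E_pow_card (Finset.Subset.refl Q)]
    exact prod_one_sub_ge Q q (1 - x) (by linarith) (by linarith) hq0 hq1 hsq
  have h2 : E Q q (fun S => x ^ (S ∩ Q).card) ≤
      E Q q (fun S => (Real.exp (a * L * Real.log x) * (if (S.card : ℝ) ≤ b * L then 1 else 0) +
        Real.exp (b * L * Real.log (x / b)) * b ^ (S ∩ Q).card) +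
        Real.exp (a * L * Real.log (x / a)) * a ^ (S ∩ Q).card) := by
    apply E_mono hq0 hq1
    intro S hS
    rw [Finset.inter_eq_left.2 hS]
    rw [pow_eq_exp hx0, pow_eq_exp hb0, pow_eq_exp ha, ← Real.exp_add, ← Real.exp_add]
    set n : ℝ := (S.card : ℝ) with hn
    have hn0 : 0 ≤ n := by positivity
    have hpos1 := Real.exp_pos (b * L * Real.log (x / b) + n * Real.log b)
    have hpos2 := Real.exp_pos (a * L * Real.log (x / a) + n * Real.log a)
    have hpos3 := Real.exp_pos (a * L * Real.log x)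
    split_ifs with h
    · rcases le_or_gt (a * L) n with h3 | h3
      · have : Real.exp (n * Real.log x) ≤ Real.exp (a * L * Real.log x) := by
          apply Real.exp_le_exp.2
          nlinarith
        linarith
      · have : Real.exp (n * Real.log x) ≤ Real.exp (a * L * Real.log (x / a) + n * Real.log a) := by
          apply Real.exp_le_exp.2
          nlinarith
        linarith
    · push Not at h
      have : Real.exp (n * Real.log x) ≤ Real.exp (b * L * Real.log (x / b) + n * Real.log b) := by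
        apply Real.exp_le_exp.2
        nlinarith
      linarith
  refine (h1.trans h2).trans ?_
  rw [E_add, E_add, E_smul, E_smul, E_smul, E_pow_card (Finset.Subset.refl Q),
    E_pow_card (Finset.Subset.refl Q)]
  have h3 : ∏ p ∈ Q, (1 - (1 - b) * q p) ≤ Real.exp (-(1 - b) * L) := by
    apply prod_one_sub_le
    intro p hp
    have := hq0 p hp
    have := hq1 p hp
    nlinarith
  have h4 : ∏ p ∈ Q, (1 - (1 - a) * q p) ≤ Real.exp (-(1 - a) * L) := by
    apply prod_one_sub_le
    intro p hp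
    have := hq0 p hp
    have := hq1 p hp
    nlinarith
  gcongr

/-- numerical constants: cost of having at most `0.89` of the expected number of primes -/
theorem cost_bound : (1 - 885 / 1000 : ℝ) + (88 / 100) * Real.log (885 / 1000) ≤ 77 / 10000 := by
  have h1 := Real.le_log_one_add_of_nonneg (x := (115 / 885 : ℝ)) (by norm_num)
  have h2 : Real.log (885 / 1000 : ℝ) = - Real.log (1 + 115 / 885 : ℝ) := by
    rw [← Real.log_inv]; norm_num
  rw [h2]
  have h3 : (2 * (115 / 885 : ℝ) / (115 / 885 + 2)) ≥ 0.122 := by norm_num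
  linarith

theorem block : ∃ L0 : ℝ, 0 < L0 ∧ ∀ (Q : Finset ℕ) (q : ℕ → ℝ), (∀ p ∈ Q, 0 ≤ q p) →
    (∀ p ∈ Q, q p ≤ 1) → (∑ p ∈ Q, q p ^ 2 ≤ 1) → L0 ≤ ∑ p ∈ Q, q p →
    Real.exp (-(85 / 10000) * ∑ p ∈ Q, q p) ≤
      E Q q (fun S => if (S.card : ℝ) ≤ (89 / 100) * ∑ p ∈ Q, q p then 1 else 0) := by
  set a : ℝ := 88 / 100 with ha
  set x : ℝ := 885 / 1000 with hx
  set b : ℝ := 89 / 100 with hb
  have hd1 : 0 < -(b * Real.log (x / b) + b - x) := by
    have h : Real.log (x / b) < x / b - 1 := Real.log_lt_sub_one_of_pos (by norm_num [hx, hb]) (by norm_num [hx, hb])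
    have h2 : b * (x / b - 1) = x - b := by rw [hx, hb]; norm_num
    have h3 : b * Real.log (x / b) < b * (x / b - 1) := by
      apply mul_lt_mul_of_pos_left h; norm_num [hb]
    linarith
  have hd2 : 0 < -(a * Real.log (x / a) + a - x) := by
    have h : Real.log (x / a) < x / a - 1 := Real.log_lt_sub_one_of_pos (by norm_num [hx, ha]) (by norm_num [hx, ha])
    have h2 : a * (x / a - 1) = x - a := by rw [hx, ha]; norm_num
    have h3 : a * Real.log (x / a) < a * (x / a - 1) := by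
      apply mul_lt_mul_of_pos_left h; norm_num [ha]
    linarith
  set d1 := -(b * Real.log (x / b) + b - x) with hd1'
  set d2 := -(a * Real.log (x / a) + a - x) with hd2'
  refine ⟨max (max (3 / d1) (3 / d2)) 2500, by positivity, ?_⟩
  intro Q q hq0 hq1 hsq hL
  set L := ∑ p ∈ Q, q p with hLdef
  have hL1 : 3 ≤ L * d1 := by
    have : 3 / d1 ≤ L := ((le_max_left _ _).trans (le_max_left _ _)).trans hL
    rwa [div_le_iff₀ hd1] at this
  have hL2 : 3 ≤ L * d2 := by
    have : 3 / d2 ≤ L := ((le_max_right _ _).trans (le_max_left _ _)).trans hL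
    rwa [div_le_iff₀ hd2] at this
  have hL3 : 2500 ≤ L := (le_max_right _ _).trans hL
  have haux := block_aux Q q hq0 hq1 hsq a x b (by norm_num [ha]) (by norm_num [ha, hx])
    (by norm_num [hx, hb]) (by norm_num [hb]) (by norm_num [hx])
  rw [← hLdef] at haux
  set Pr := E Q q (fun S => if (S.card : ℝ) ≤ b * L then 1 else 0) with hPr
  have e1 : Real.exp (b * L * Real.log (x / b)) * Real.exp (-(1 - b) * L) =
      Real.exp (-(1 - x) * L) * Real.exp (-(L * d1)) := by
    rw [← Real.exp_add, ← Real.exp_add]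
    congr 1
    rw [hd1']; ring
  have e2 : Real.exp (a * L * Real.log (x / a)) * Real.exp (-(1 - a) * L) =
      Real.exp (-(1 - x) * L) * Real.exp (-(L * d2)) := by
    rw [← Real.exp_add, ← Real.exp_add]
    congr 1
    rw [hd2']; ring
  rw [e1, e2] at haux
  have f1 : Real.exp (-(L * d1)) ≤ Real.exp (-3) := Real.exp_le_exp.2 (by linarith)
  have f2 : Real.exp (-(L * d2)) ≤ Real.exp (-3) := Real.exp_le_exp.2 (by linarith)
  have f3 : Real.exp (-(1 - x) * L - 1) = Real.exp (-(1 - x) * L) * Real.exp (-1) := by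
    rw [← Real.exp_add]; congr 1
  have f4 : Real.exp (-2) + 2 * Real.exp (-3) ≤ Real.exp (-1) := by
    have g1 := Real.exp_one_gt_d9
    have g0 := Real.exp_pos (-3)
    have g2 : Real.exp (-2) = Real.exp (-3) * Real.exp 1 := by rw [← Real.exp_add]; norm_num
    have g3 : Real.exp (-1) = Real.exp (-3) * (Real.exp 1 * Real.exp 1) := by
      rw [← Real.exp_add, ← Real.exp_add]; norm_num
    rw [g2, g3]
    have g4 : Real.exp 1 + 2 ≤ Real.exp 1 * Real.exp 1 := by nlinarith
    nlinarith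
  have hE0 : 0 < Real.exp (-(1 - x) * L) := Real.exp_pos _
  have h5 : Real.exp (-(1 - x) * L) * Real.exp (-2) ≤ Real.exp (a * L * Real.log x) * Pr := by
    rw [f3] at haux
    nlinarith
  -- conclude
  have h6 : Real.exp (-(85 / 10000) * L) ≤
      Real.exp (-(1 - x) * L) * Real.exp (-2) * Real.exp (-(a * L * Real.log x)) := by
    rw [← Real.exp_add, ← Real.exp_add]
    apply Real.exp_le_exp.2
    have hc := cost_bound
    have h7 : (1 - x + a * Real.log x) * L ≤ (77 / 10000) * L := by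
      apply mul_le_mul_of_nonneg_right _ (by linarith)
      rw [hx, ha]; exact hc
    nlinarith
  have h7 : Real.exp (-(1 - x) * L) * Real.exp (-2) * Real.exp (-(a * L * Real.log x)) ≤ Pr := by
    calc Real.exp (-(1 - x) * L) * Real.exp (-2) * Real.exp (-(a * L * Real.log x))
        ≤ (Real.exp (a * L * Real.log x) * Pr) * Real.exp (-(a * L * Real.log x)) := by gcongr
      _ = Pr * (Real.exp (a * L * Real.log x) * Real.exp (-(a * L * Real.log x))) := by ring
      _ = Pr := by rw [← Real.exp_add]; simp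
  exact h6.trans h7

/-- rate for the upper tail with factor `1.14` -/
theorem rate114 : (915 / 100000 : ℝ) ≤ (114 / 100) * Real.log (114 / 100) - 114 / 100 + 1 := by
  have h1 := Real.le_log_one_add_of_nonneg (x := (14 / 100 : ℝ)) (by norm_num)
  have h2 : (1 + 14 / 100 : ℝ) = 114 / 100 := by norm_num
  rw [h2] at h1
  have h3 : (2 * (14 / 100 : ℝ) / (14 / 100 + 2)) ≥ 0.13084 := by norm_num
  linarith

/-- rate for the upper tail with factor `1.005` -/
theorem rate1005 : (1 / 100000 : ℝ) ≤ (1005 / 1000) * Real.log (1005 / 1000) - 1005 / 1000 + 1 := by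
  have h1 := Real.le_log_one_add_of_nonneg (x := (5 / 1000 : ℝ)) (by norm_num)
  have h2 : (1 + 5 / 1000 : ℝ) = 1005 / 1000 := by norm_num
  rw [h2] at h1
  have h3 : (2 * (5 / 1000 : ℝ) / (5 / 1000 + 2)) ≥ 0.0049875 := by norm_num
  linarith

end Pool.Agent.EG327
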