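import Pool.Agent.EG327.LogMass

set_option autoImplicit false

namespace Pool.Agent.EG327

open Finset Real
open scoped Classical

/-- a multiple `p a` with `a ≤ n < p / 2` and a number not divisible by `p` never conflict -/
theorem no_conflict {p n a y : ℕ} (hp : p.Prime) (hpn : 2 * n < p) (ha : 1 ≤ a) (han : a ≤ n)
    (hy : ¬ p ∣ y) : ¬ (p * a + y ∣ p * a * y) := by
  intro h
  have hcop : Nat.Coprime (p * a + y) p := by
    rw [Nat.coprime_comm, Nat.Prime.coprime_iff_not_dvd hp]
    intro h2
    exact hy ((Nat.dvd_add_right (Dvd.intro a rfl)).1 h2)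
  have h1 : p * a + y ∣ a * y := by
    apply hcop.dvd_of_dvd_mul_left
    rwa [← mul_assoc]
  have h2 : p * a + y ∣ p * (a * a) := by
    have h3 : a * y + p * (a * a) = a * (p * a + y) := by ring
    have h4 : p * a + y ∣ a * y + p * (a * a) := by rw [h3]; exact Dvd.intro_left a rfl
    exact (Nat.dvd_add_right h1).1 h4
  have h3 : p * a + y ∣ a * a := hcop.dvd_of_dvd_mul_left h2
  have h4 := Nat.le_of_dvd (Nat.mul_pos ha ha) h3
  have h5 : a * a < p * a := Nat.mul_lt_mul_of_pos_right (by omega) ha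
  omega

theorem same_conflict {p n a b : ℕ} (hp : p.Prime) (hpn : 2 * n < p) (ha : 1 ≤ a) (han : a ≤ n)
    (hbn : b ≤ n) (h : p * a + p * b ∣ p * a * (p * b)) : a + b ∣ a * b := by
  have hp0 : 0 < p := hp.pos
  have hcop : Nat.Coprime (a + b) p := by
    rw [Nat.coprime_comm, Nat.Prime.coprime_iff_not_dvd hp]
    intro h2
    have := Nat.le_of_dvd (by omega) h2
    omega
  have h1 : p * (a + b) ∣ p * (p * (a * b)) := by
    have e1 : p * (a + b) = p * a + p * b := by ring
    have e2 : p * (p * (a * b)) = p * a * (p * b) := by ring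
    rw [e1, e2]; exact h
  have h2 : a + b ∣ p * (a * b) := Nat.dvd_of_mul_dvd_mul_left hp0 h1
  exact hcop.dvd_of_dvd_mul_left h2

/-- the odd numbers up to `m` -/
def Odds (m : ℕ) : Finset ℕ := (Finset.Icc 1 m).filter (fun x => ¬ 2 ∣ x)

theorem odd_conflict {x y : ℕ} (hx : ¬ 2 ∣ x) (hy : ¬ 2 ∣ y) : ¬ (x + y ∣ x * y) := by
  intro h
  have h1 : 2 ∣ x + y := by omega
  have h2 : 2 ∣ x * y := h1.trans h
  rcases (Nat.Prime.dvd_mul Nat.prime_two).1 h2 with h3 | h3
  · exact hx h3
  · exact hy h3

theorem adm_Odds (m : ℕ) : Adm (Odds m) := by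
  intro a ha b hb _
  exact odd_conflict (Finset.mem_filter.1 ha).2 (Finset.mem_filter.1 hb).2

theorem Odds_sub (m : ℕ) : Odds m ⊆ Finset.Icc 1 m := Finset.filter_subset _ _

theorem card_Odds (m : ℕ) : (Odds m).card = (m + 1) / 2 := by
  induction m with
  | zero => simp [Odds]
  | succ m ih =>
    unfold Odds at ih ⊢
    have : Finset.Icc 1 (m + 1) = insert (m + 1) (Finset.Icc 1 m) := by
      ext x; simp only [Finset.mem_Icc, Finset.mem_insert]; omega
    rw [this, Finset.filter_insert]
    split_ifs with h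
    · rw [ih]; omega
    · rw [Finset.card_insert_of_notMem (by simp), ih]; omega

/-- The recursion: an admissible set in `{1, ..., N}` from admissible sets in `{1, ..., N / p}`
for the primes `p > 2 n`, where `N ≤ 2 n²`. -/
theorem recursion {N n : ℕ} (hN : N ≤ 2 * n * n) (P : Finset ℕ)
    (hP : ∀ p ∈ P, p.Prime ∧ 2 * n < p) (A : ℕ → Finset ℕ)
    (hA : ∀ p ∈ P, A p ⊆ Finset.Icc 1 (N / p) ∧ Adm (A p)) :
    ∃ B : Finset ℕ, B ⊆ Finset.Icc 1 N ∧ Adm B ∧
      (Odds N).card + ∑ p ∈ P, (A p).card ≤ B.card + ∑ p ∈ P, (Odds (N / p)).card := by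
  set O := (Odds N).filter (fun x => ∀ p ∈ P, ¬ p ∣ x) with hO
  set Q := P.biUnion (fun p => (A p).image (fun a => p * a)) with hQ
  have hAn : ∀ p ∈ P, ∀ a ∈ A p, 1 ≤ a ∧ a ≤ n ∧ p * a ≤ N := by
    intro p hp a ha
    have h1 := Finset.mem_Icc.1 ((hA p hp).1 ha)
    obtain ⟨hpp, hpn⟩ := hP p hp
    have h2 : a * p ≤ N := (Nat.le_div_iff_mul_le hpp.pos).1 h1.2
    refine ⟨h1.1, ?_, by rw [mul_comm]; exact h2⟩
    by_contra hcon
    push Not at hcon
    have h3 : (n + 1) * (2 * n + 1) ≤ a * p := Nat.mul_le_mul (by omega) (by omega)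
    have h4 : (n + 1) * (2 * n + 1) = 2 * n * n + 3 * n + 1 := by ring
    omega
  have hdis : Disjoint O Q := by
    rw [Finset.disjoint_left]
    intro x hx hx2
    rw [hQ, Finset.mem_biUnion] at hx2
    obtain ⟨p, hp, hx3⟩ := hx2
    obtain ⟨a, ha, rfl⟩ := Finset.mem_image.1 hx3
    exact (Finset.mem_filter.1 hx).2 p hp (Dvd.intro a rfl)
  have hQcard : Q.card = ∑ p ∈ P, (A p).card := by
    rw [hQ, Finset.card_biUnion]
    · apply Finset.sum_congr rfl
      intro p hp
      apply Finset.card_image_of_injective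
      intro a b hab
      exact Nat.eq_of_mul_eq_mul_left (hP p hp).1.pos hab
    · intro p hp q hq hpq
      rw [Function.onFun, Finset.disjoint_left]
      intro x hx hx2
      obtain ⟨a, ha, rfl⟩ := Finset.mem_image.1 hx
      obtain ⟨b, hb, hb2⟩ := Finset.mem_image.1 hx2
      obtain ⟨ha1, ha2, _⟩ := hAn p hp a ha
      obtain ⟨hqq, hqn⟩ := hP q hq
      have h1 : q ∣ p * a := Dvd.intro b hb2
      rcases (Nat.Prime.dvd_mul hqq).1 h1 with h2 | h2
      · rcases (Nat.dvd_prime (hP p hp).1).1 h2 with h3 | h3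
        · exact hqq.one_lt.ne' h3
        · exact hpq h3.symm
      · have := Nat.le_of_dvd (by omega) h2
        omega
  refine ⟨O ∪ Q, ?_, ?_, ?_⟩
  · intro x hx
    rcases Finset.mem_union.1 hx with h | h
    · exact Odds_sub N (Finset.mem_filter.1 h).1
    · rw [hQ, Finset.mem_biUnion] at h
      obtain ⟨p, hp, hx3⟩ := h
      obtain ⟨a, ha, rfl⟩ := Finset.mem_image.1 hx3
      obtain ⟨ha1, ha2, ha3⟩ := hAn p hp a ha
      exact Finset.mem_Icc.2 ⟨Nat.mul_pos (hP p hp).1.pos ha1, ha3⟩
  · -- key fact: an element of Q against anything not divisible by its prime, or the same prime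
    have hkey : ∀ x ∈ Q, ∀ y ∈ O ∪ Q, x ≠ y → ¬ (x + y ∣ x * y) := by
      intro x hx y hy hxy
      rw [hQ, Finset.mem_biUnion] at hx
      obtain ⟨p, hp, hx3⟩ := hx
      obtain ⟨a, ha, rfl⟩ := Finset.mem_image.1 hx3
      obtain ⟨ha1, ha2, ha3⟩ := hAn p hp a ha
      obtain ⟨hpp, hpn⟩ := hP p hp
      by_cases hpy : p ∣ y
      · rcases Finset.mem_union.1 hy with h | h
        · exact absurd hpy ((Finset.mem_filter.1 h).2 p hp)
        · rw [hQ, Finset.mem_biUnion] at h
          obtain ⟨q, hq, hy3⟩ := h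
          obtain ⟨b, hb, rfl⟩ := Finset.mem_image.1 hy3
          obtain ⟨hb1, hb2, hb3⟩ := hAn q hq b hb
          obtain ⟨hqq, hqn⟩ := hP q hq
          have hpq : p = q := by
            rcases (Nat.Prime.dvd_mul hpp).1 hpy with h2 | h2
            · rcases (Nat.dvd_prime hqq).1 h2 with h3 | h3
              · exact absurd h3 hpp.one_lt.ne'
              · exact h3
            · exfalso
              have := Nat.le_of_dvd (by omega) h2
              omega
          subst hpq
          intro hdvd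
          have h5 := same_conflict hpp hpn ha1 ha2 hb2 hdvd
          have hab : a ≠ b := fun h => hxy (by rw [h])
          exact (hA p hp).2 a ha b hb hab h5
      · exact no_conflict hpp hpn ha1 ha2 hpy
    intro x hx y hy hxy
    rcases Finset.mem_union.1 hx with h | h
    · rcases Finset.mem_union.1 hy with h' | h'
      · exact odd_conflict (Finset.mem_filter.1 (Finset.mem_filter.1 h).1).2
          (Finset.mem_filter.1 (Finset.mem_filter.1 h').1).2
      · have := hkey y h' x hx (Ne.symm hxy)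
        rwa [add_comm, mul_comm] at this
    · exact hkey x h y hy hxy
  · rw [Finset.card_union_of_disjoint hdis, hQcard]
    have h1 : (Odds N).card ≤ O.card + ∑ p ∈ P, (Odds (N / p)).card := by
      have h2 : Odds N ⊆ O ∪ P.biUnion (fun p => (Odds (N / p)).image (fun a => p * a)) := by
        intro x hx
        by_cases h : ∀ p ∈ P, ¬ p ∣ x
        · exact Finset.mem_union_left _ (Finset.mem_filter.2 ⟨hx, h⟩)
        · push Not at h
          obtain ⟨p, hp, y, rfl⟩ := h
          apply Finset.mem_union_right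
          rw [Finset.mem_biUnion]
          refine ⟨p, hp, Finset.mem_image.2 ⟨y, ?_, rfl⟩⟩
          obtain ⟨h3, h4⟩ := Finset.mem_filter.1 hx
          have h5 := Finset.mem_Icc.1 h3
          refine Finset.mem_filter.2 ⟨Finset.mem_Icc.2 ⟨?_, ?_⟩, ?_⟩
          · rcases Nat.eq_zero_or_pos y with h0 | h0
            · subst h0; simp at h5
            · exact h0
          · rw [Nat.le_div_iff_mul_le (hP p hp).1.pos, mul_comm]
            exact h5.2
          · intro h6; exact h4 (Dvd.dvd.mul_left h6 p)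
      refine (Finset.card_le_card h2).trans ((Finset.card_union_le _ _).trans ?_)
      apply Nat.add_le_add_left
      refine Finset.card_biUnion_le.trans ?_
      exact Finset.sum_le_sum (fun p _ => Finset.card_image_le)
    omega

end Pool.Agent.EG327
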