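import Pool.Agent.EG327.Dyadic

set_option autoImplicit false

namespace Pool.Agent.EG327

open Finset Real
open scoped Classical

/-- the level belonging to the dyadic scale `t` -/
def iv (M t : ℕ) : ℕ := Nat.log (2 ^ (M + 1)) t

theorem iv_le {M t : ℕ} (ht : t ≠ 0) : (2 ^ (M + 1)) ^ iv M t ≤ t := Nat.pow_log_le_self _ ht

theorem lt_iv {M t : ℕ} : t < (2 ^ (M + 1)) ^ (iv M t + 1) :=
  Nat.lt_pow_succ_log_self (Nat.one_lt_two_pow (by omega)) t

/-- the summable majorant -/
noncomputable def ff (M t : ℕ) : ℝ := if t = 0 then 0 else Real.exp (-(1004 / 1000) * la M (iv M t))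

theorem ff_nonneg (M t : ℕ) : 0 ≤ ff M t := by
  unfold ff; split_ifs
  · exact le_rfl
  · exact (Real.exp_pos _).le

theorem ff_le (M : ℕ) (hM : 1003 ≤ M) (t : ℕ) :
    ff M t ≤ Real.exp (4 + 1003 / 1000 * (M + 1) * Real.log 2) * (t : ℝ) ^ (-(1003 / 1000) : ℝ) := by
  unfold ff
  split_ifs with h
  · positivity
  · have ht : (0 : ℝ) < t := by exact_mod_cast Nat.pos_of_ne_zero h
    have h1 : (t : ℝ) < (2 : ℝ) ^ ((M + 1) * (iv M t + 1)) := by
      have := lt_iv (M := M) (t := t)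
      rw [← pow_mul] at this
      exact_mod_cast this
    have h2 : Real.log t ≤ (M + 1) * (iv M t + 1) * Real.log 2 := by
      have h3 := Real.log_le_log ht h1.le
      rw [Real.log_pow] at h3
      push_cast at h3
      linarith
    rw [Real.rpow_def_of_pos ht, ← Real.exp_add]
    apply Real.exp_le_exp.2
    have h4 := le_la M (iv M t)
    have hl2 := Real.log_two_gt_d9
    have hM' : (1003 : ℝ) ≤ M := by exact_mod_cast hM
    have hi : (0 : ℝ) ≤ iv M t := by positivity
    have h5 : 1003 / 1000 * ((M : ℝ) + 1) * (iv M t * Real.log 2) ≤ 1004 / 1000 * M * (iv M t * Real.log 2) := by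
      apply mul_le_mul_of_nonneg_right _ (by positivity)
      linarith
    nlinarith

theorem summable_ff (M : ℕ) (hM : 1003 ≤ M) : Summable (ff M) := by
  apply Summable.of_nonneg_of_le (ff_nonneg M) (ff_le M hM)
  apply Summable.mul_left
  rw [Real.summable_nat_rpow]
  norm_num

theorem tail_ff (M : ℕ) (hM : 1003 ≤ M) (δ : ℝ) (hδ : 0 < δ) :
    ∃ t0 : ℕ, ∀ T X : ℕ, t0 ≤ T → ∑ t ∈ Finset.Ico T X, ff M t ≤ δ := by
  have hs := summable_ff M hM
  have h1 := hs.hasSum.tendsto_sum_nat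
  have h2 : ∀ᶠ n in Filter.atTop, ∑' t, ff M t - δ < ∑ t ∈ Finset.range n, ff M t :=
    h1.eventually_const_lt (by linarith)
  obtain ⟨t0, h3⟩ := Filter.eventually_atTop.1 h2
  refine ⟨t0, fun T X hT => ?_⟩
  have h4 := h3 T hT
  rcases le_or_gt T X with h | h
  · have h5 : ∑ t ∈ Finset.range X, ff M t ≤ ∑' t, ff M t :=
      hs.sum_le_tsum _ (fun t _ => ff_nonneg M t)
    rw [Finset.sum_Ico_eq_sub _ h]
    linarith
  · rw [Finset.Ico_eq_empty (by omega)]
    simpa using hδ.le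

theorem sum_ff_le (M : ℕ) (hM : 1003 ≤ M) (s : Finset ℕ) : ∑ t ∈ s, ff M t ≤ ∑' t, ff M t :=
  (summable_ff M hM).sum_le_tsum _ (fun t _ => ff_nonneg M t)

theorem sq_le_two_pow (n : ℕ) (hn : 4 ≤ n) : n ^ 2 ≤ 2 ^ n := by
  induction n, hn using Nat.le_induction with
  | base => norm_num
  | succ n hn ih =>
    rw [pow_succ 2 n]
    nlinarith

theorem level_ok (M i t : ℕ) (hi : 34 * M + 276 ≤ i) (ht : (2 ^ (M + 1)) ^ i ≤ t) : LevelOK M i t := by
  unfold LevelOK
  have h1 : 34 * M * i + 276 ≤ 2 ^ i := by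
    have := sq_le_two_pow i (by omega)
    nlinarith
  have h1' : (34 * M * i + 276 : ℝ) ≤ 2 ^ i := by exact_mod_cast h1
  have hl2 := Real.log_two_gt_d9
  have hl2' := Real.log_two_lt_d9
  have h2 : la M i ≤ M * i + 8 := by
    have h3 := la_le M i
    have : (M : ℝ) * i * Real.log 2 ≤ M * i * 1 := by
      apply mul_le_mul_of_nonneg_left (by linarith) (by positivity)
    linarith
  have h0 := la_nonneg M i
  rw [log_yy]
  have e1 : Real.log ((2 ^ t : ℕ) : ℝ) = t * Real.log 2 := by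
    push_cast
    rw [Real.log_pow]
  rw [e1]
  have h3 : (2 : ℝ) ^ (M * i) * 2 ^ i ≤ t := by
    have : (2 : ℝ) ^ (M * i) * 2 ^ i = ((2 ^ (M + 1)) ^ i : ℕ) := by
      push_cast
      rw [← pow_mul, ← pow_add]; ring_nf
    rw [this]; exact_mod_cast ht
  set Y : ℝ := 2 ^ (M * i) with hY
  have hY1 : 1 ≤ Y := one_le_pow₀ (by norm_num)
  have hMi : (0 : ℝ) ≤ M * i := by positivity
  calc (28 * la M i + 4) * (Y * Real.log 2) + 3 * la M i
      ≤ (28 * (M * i + 8) + 4) * (Y * Real.log 2) + 3 * (M * i + 8) := by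
        have : 0 ≤ Y * Real.log 2 := by positivity
        nlinarith
    _ ≤ (28 * (M * i + 8) + 4) * (Y * Real.log 2) + 3 * (M * i + 8) * (2 * (Y * Real.log 2)) := by
        have : 1 ≤ 2 * (Y * Real.log 2) := by nlinarith
        nlinarith
    _ = (34 * M * i + 276) * (Y * Real.log 2) := by ring
    _ ≤ 2 ^ i * (Y * Real.log 2) := by
        apply mul_le_mul_of_nonneg_right h1' (by positivity)
    _ = (Y * 2 ^ i) * Real.log 2 := by ring
    _ ≤ t * Real.log 2 := by
        apply mul_le_mul_of_nonneg_right h3 (by linarith)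

/-- geometric sum in the last scale -/
theorem sum_ex_le (M I X : ℕ) (s : Finset ℕ) (hs : s ⊆ Finset.range X) :
    ∑ t ∈ s, Real.exp (-(sg M I - 1) * (t * Real.log 4)) ≤ 2 * 2 ^ ((M + 1) * I) := by
  have h0 : sg M I - 1 = 1 / 2 ^ ((M + 1) * I) := by unfold sg; ring
  set N : ℝ := 2 ^ ((M + 1) * I) with hN
  have hN1 : 1 ≤ N := one_le_pow₀ (by norm_num)
  set r : ℝ := Real.exp (-(1 / N) * Real.log 4) with hr
  have hr0 : 0 < r := Real.exp_pos _
  have hl4 : 1 ≤ Real.log 4 := by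
    have h4 : Real.log 4 = 2 * Real.log 2 := by
      rw [show (4 : ℝ) = 2 ^ 2 by norm_num, Real.log_pow]; norm_num
    rw [h4]; have := Real.log_two_gt_d9; linarith
  have hr1 : r ≤ 1 - 1 / (2 * N) := by
    have h1 : r ≤ Real.exp (-(1 / N)) := by
      apply Real.exp_le_exp.2
      have : 0 < 1 / N := by positivity
      nlinarith
    have h2 : Real.exp (-(1 / N)) ≤ 1 / (1 + 1 / N) := by
      rw [Real.exp_neg]
      have h3 := Real.add_one_le_exp (1 / N)
      have h4 : (Real.exp (1 / N))⁻¹ ≤ (1 + 1 / N)⁻¹ := inv_anti₀ (by positivity) (by linarith)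
      rw [one_div (1 + 1 / N)]
      exact h4
    refine h1.trans (h2.trans ?_)
    rw [div_le_iff₀ (by positivity)]
    field_simp
    nlinarith
  have e : ∀ t : ℕ, Real.exp (-(sg M I - 1) * (t * Real.log 4)) = r ^ t := by
    intro t
    rw [hr, ← Real.exp_nat_mul, h0]
    congr 1; ring
  simp only [e]
  have h3 : ∑ t ∈ s, r ^ t ≤ ∑ t ∈ Finset.range X, r ^ t :=
    Finset.sum_le_sum_of_subset_of_nonneg hs (fun _ _ _ => by positivity)
  refine h3.trans ?_
  have hr1' : r < 1 := by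
    have : 0 < 1 / (2 * N) := by positivity
    linarith
  have h4 := geom_sum_eq (ne_of_lt hr1') X
  rw [h4]
  rw [← neg_div_neg_eq, neg_sub, neg_sub]
  rw [div_le_iff₀ (by linarith)]
  have h5 : 1 / (2 * N) ≤ 1 - r := by linarith
  have h6 : 2 * N * (1 / (2 * N)) = 1 := by field_simp
  have h7 : 0 ≤ r ^ X := by positivity
  nlinarith

theorem exp_la_last (M I : ℕ) (hM : 1003 ≤ M) :
    Real.exp (-(1004 / 1000) * la M I) * 2 ^ ((M + 1) * I) ≤ 60 := by
  have h4 := le_la M I
  have hl2 := Real.log_two_gt_d9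
  have hM' : (1003 : ℝ) ≤ M := by exact_mod_cast hM
  have hi : (0 : ℝ) ≤ I := by positivity
  have e : (2 : ℝ) ^ ((M + 1) * I) = Real.exp ((M + 1) * I * Real.log 2) := by
    rw [pow_eq_exp (by norm_num)]
    push_cast; ring_nf
  rw [e, ← Real.exp_add]
  have h5 : Real.exp 4 ≤ 60 := by
    have h1 := Real.exp_one_lt_d9
    have : Real.exp 4 = (Real.exp 1 * Real.exp 1) * (Real.exp 1 * Real.exp 1) := by
      rw [← Real.exp_add, ← Real.exp_add]; norm_num
    rw [this]
    have h0 := Real.exp_pos 1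
    have h2 : Real.exp 1 * Real.exp 1 ≤ 7.39 := by nlinarith
    have h3 : 0 ≤ Real.exp 1 * Real.exp 1 := by positivity
    nlinarith
  refine le_trans ?_ h5
  apply Real.exp_le_exp.2
  have h6 : ((M : ℝ) + 1) * (I * Real.log 2) ≤ 1004 / 1000 * M * (I * Real.log 2) := by
    apply mul_le_mul_of_nonneg_right _ (by positivity)
    linarith
  nlinarith

end Pool.Agent.EG327
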