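import Pool.Agent.EG327.Params

set_option autoImplicit false

namespace Pool.Agent.EG327

open Finset Real
open scoped Classical

/-- structure condition above level `i` -/
def G (M i1 I i : ℕ) (S : Finset ℕ) : Prop :=
  (∀ j, i ≤ j → j < i1 →
    ((S ∩ (PL M (j + 1) \ PL M j)).card : ℝ) ≤ 89 / 100 * (la M (j + 1) - la M j)) ∧
  (∀ j, i1 < j → j ≤ I →
    ((S ∩ (PL M j \ PL M i1)).card : ℝ) ≤ 1005 / 1000 * (la M j - la M i1))

theorem G_hered {M i1 I i : ℕ} {S S' : Finset ℕ} (h : S' ⊆ S) (hG : G M i1 I i S) : G M i1 I i S' := by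
  constructor
  · intro j h1 h2
    refine le_trans ?_ (hG.1 j h1 h2)
    exact_mod_cast Finset.card_le_card (Finset.inter_subset_inter_right h)
  · intro j h1 h2
    refine le_trans ?_ (hG.2 j h1 h2)
    exact_mod_cast Finset.card_le_card (Finset.inter_subset_inter_right h)

theorem G_level {M i1 I i i' : ℕ} {S : Finset ℕ} (h : i ≤ i') (hG : G M i1 I i S) : G M i1 I i' S :=
  ⟨fun j h1 h2 => hG.1 j (h.trans h1) h2, hG.2⟩

/-- probability of the structure condition above level `i` -/
noncomputable def pr (M i1 I i : ℕ) : ℝ :=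
  E (PL M I \ PL M i) (w (sg M I)) (fun S => if G M i1 I i S then 1 else 0)

theorem w01 (M I i : ℕ) (Q : Finset ℕ) (_hQ : Q ⊆ PL M i) :
    (∀ p ∈ Q, 0 ≤ w (sg M I) p) ∧ (∀ p ∈ Q, w (sg M I) p ≤ 1) :=
  ⟨fun p _ => w_nonneg _ p, fun p _ => w_le_one (one_lt_sg M I) p⟩

theorem pr_nonneg (M i1 I i : ℕ) : 0 ≤ pr M i1 I i := by
  unfold pr
  have h := w01 M I I (PL M I \ PL M i) Finset.sdiff_subset
  apply E_nonneg h.1 h.2
  intro S _
  split_ifs <;> norm_num

theorem pr_le_one (M i1 I i : ℕ) : pr M i1 I i ≤ 1 := by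
  unfold pr
  have h := w01 M I I (PL M I \ PL M i) Finset.sdiff_subset
  have h2 := E_mono h.1 h.2 (F := fun S => if G M i1 I i S then 1 else 0) (G := fun _ => 1) (by
    intro S _
    split_ifs <;> norm_num)
  rwa [E_const] at h2

theorem geom_aux (i1 I : ℕ) (h : i1 ≤ I) :
    ∑ j ∈ Finset.Ioc i1 I, (1 / 4 : ℝ) ^ (j - i1) ≤ 1 / 3 - (1 / 3) * (1 / 4 : ℝ) ^ (I - i1) := by
  induction I, h using Nat.le_induction with
  | base => simp
  | succ I h ih =>
    rw [← Finset.insert_Ioc_right_eq_Ioc_add_one (by omega), Finset.sum_insert (by simp)]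
    have e : I + 1 - i1 = (I - i1) + 1 := by omega
    rw [e, pow_succ]
    linarith

theorem tail_prob (M i1 I : ℕ) (hM : 300000 ≤ M) (hI : i1 ≤ I) : 1 / 2 ≤ pr M i1 I i1 := by
  have hw := w01 M I I (PL M I \ PL M i1) Finset.sdiff_subset
  have h1 : ∀ S, S ⊆ PL M I \ PL M i1 →
      1 ≤ (if G M i1 I i1 S then (1 : ℝ) else 0) +
        ∑ j ∈ Finset.Ioc i1 I,
          (if ((S ∩ (PL M j \ PL M i1)).card : ℝ) ≤ 1005 / 1000 * (la M j - la M i1) then 0 else 1) := by
    intro S _
    by_cases hG : G M i1 I i1 S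
    · rw [if_pos hG]
      have : 0 ≤ ∑ j ∈ Finset.Ioc i1 I,
          (if ((S ∩ (PL M j \ PL M i1)).card : ℝ) ≤ 1005 / 1000 * (la M j - la M i1) then (0 : ℝ) else 1) := by
        apply Finset.sum_nonneg
        intro j _
        split_ifs <;> norm_num
      linarith
    · rw [if_neg hG]
      have h2 : ∃ j, i1 < j ∧ j ≤ I ∧
          ¬ ((S ∩ (PL M j \ PL M i1)).card : ℝ) ≤ 1005 / 1000 * (la M j - la M i1) := by
        by_contra hcon
        push Not at hcon
        apply hG
        exact ⟨fun j h1 h2 => absurd h1 (by omega), fun j h1 h2 => hcon j h1 h2⟩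
      obtain ⟨j, hj1, hj2, hj3⟩ := h2
      have h3 := Finset.single_le_sum (f := fun j =>
          (if ((S ∩ (PL M j \ PL M i1)).card : ℝ) ≤ 1005 / 1000 * (la M j - la M i1) then (0 : ℝ) else 1))
        (s := Finset.Ioc i1 I) (fun j _ => by split_ifs <;> norm_num)
        (Finset.mem_Ioc.2 ⟨hj1, hj2⟩)
      simp only [if_neg hj3] at h3
      linarith
  have h2 := E_mono hw.1 hw.2 (F := fun _ => (1 : ℝ)) h1
  rw [E_const, E_add, E_sum] at h2
  have h3 : ∀ j ∈ Finset.Ioc i1 I,
      E (PL M I \ PL M i1) (w (sg M I)) (fun S =>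
        (if ((S ∩ (PL M j \ PL M i1)).card : ℝ) ≤ 1005 / 1000 * (la M j - la M i1) then 0 else 1)) ≤
      (1 / 4 : ℝ) ^ (j - i1) := by
    intro j hj
    rw [Finset.mem_Ioc] at hj
    have hsub : PL M j \ PL M i1 ⊆ PL M I \ PL M i1 :=
      Finset.sdiff_subset_sdiff (PL_mono M hj.2) (Finset.Subset.refl _)
    have hsum : ∑ p ∈ PL M j \ PL M i1, w (sg M I) p ≤ la M j - la M i1 := by
      refine (sum_w_le _).trans ?_
      rw [lam_sdiff (PL_mono M hj.1.le)]; rfl
    have h4 := chernoff_upper hsub (w (sg M I)) hw.1 hw.2 (la M j - la M i1) (1005 / 1000)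
      (by norm_num) hsum
    refine h4.trans ?_
    have hr := rate1005
    have hd := la_diff M i1 j
    have hl2 := Real.log_two_gt_d9
    obtain ⟨r, hr'⟩ : ∃ r, j = i1 + r := ⟨j - i1, by omega⟩
    have hr1 : 1 ≤ r := by omega
    have hr1' : (1 : ℝ) ≤ r := by exact_mod_cast hr1
    have hM' : (300000 : ℝ) ≤ M := by exact_mod_cast hM
    have e1 : ((j : ℝ) - i1) = r := by rw [hr']; push_cast; ring
    rw [e1] at hd
    have e2 : j - i1 = r := by omega
    rw [e2]
    have h5 : (200000 : ℝ) * r ≤ la M j - la M i1 := by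
      have h6 : (300000 : ℝ) * 0.69 * r ≤ M * r * Real.log 2 := by
        have : (300000 : ℝ) * 0.69 ≤ M * Real.log 2 := by
          apply mul_le_mul hM' (by linarith) (by norm_num) (by positivity)
        nlinarith
      nlinarith
    have h6 : -(1005 / 1000 * Real.log (1005 / 1000) - 1005 / 1000 + 1) * (la M j - la M i1) ≤ -2 * r := by
      have h7 : (1 / 100000) * ((200000 : ℝ) * r) ≤
          (1005 / 1000 * Real.log (1005 / 1000) - 1005 / 1000 + 1) * (la M j - la M i1) := by
        apply mul_le_mul hr h5 (by positivity) (by linarith)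
      linarith
    calc Real.exp (-(1005 / 1000 * Real.log (1005 / 1000) - 1005 / 1000 + 1) * (la M j - la M i1))
        ≤ Real.exp (-2 * r) := Real.exp_le_exp.2 h6
      _ = (Real.exp (-2)) ^ r := by rw [← Real.exp_nat_mul]; congr 1; ring
      _ ≤ (1 / 4 : ℝ) ^ r := by
          apply pow_le_pow_left₀ (Real.exp_pos _).le
          have g1 := Real.exp_one_gt_d9
          have g2 : Real.exp (-2) = (Real.exp 1 * Real.exp 1)⁻¹ := by
            rw [← Real.exp_add, ← Real.exp_neg]; norm_num
          rw [g2, one_div]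
          apply inv_anti₀ (by norm_num)
          nlinarith
  have h4 := Finset.sum_le_sum h3
  have h5 := geom_aux i1 I hI
  have h6 : 0 ≤ (1 / 3) * (1 / 4 : ℝ) ^ (I - i1) := by positivity
  have h7 : pr M i1 I i1 = E (PL M I \ PL M i1) (w (sg M I)) (fun S => if G M i1 I i1 S then 1 else 0) := rfl
  rw [← h7] at h2
  linarith

theorem sdiff_union_level {M i j I : ℕ} (h1 : i ≤ j) (h2 : j ≤ I) :
    PL M I \ PL M i = (PL M j \ PL M i) ∪ (PL M I \ PL M j) := by
  ext p
  simp only [Finset.mem_sdiff, Finset.mem_union]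
  constructor
  · rintro ⟨h3, h4⟩
    by_cases h5 : p ∈ PL M j
    · left; exact ⟨h5, h4⟩
    · right; exact ⟨h3, h5⟩
  · rintro (⟨h3, h4⟩ | ⟨h3, h4⟩)
    · exact ⟨PL_mono M h2 h3, h4⟩
    · exact ⟨h3, fun h => h4 (PL_mono M h1 h)⟩

theorem disj_level {M i j I : ℕ} : Disjoint (PL M j \ PL M i) (PL M I \ PL M j) := by
  rw [Finset.disjoint_left]
  intro p hp hp2
  exact (Finset.mem_sdiff.1 hp2).2 (Finset.mem_sdiff.1 hp).1

theorem pr_step : ∃ M0 : ℕ, ∀ M, M0 ≤ M → ∀ i1 I i : ℕ, i < i1 → i1 ≤ I →
    Real.exp (-(85 / 10000) * (la M (i + 1) - la M i)) * pr M i1 I (i + 1) ≤ pr M i1 I i := by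
  obtain ⟨L0, hL0, hblock⟩ := block
  refine ⟨⌈(L0 + 12) / (69 / 100)⌉₊ + 1, ?_⟩
  intro M hM i1 I i hi hI
  have hM' : (L0 + 12) / (69 / 100) ≤ M := by
    refine (Nat.le_ceil _).trans ?_
    exact_mod_cast (by omega : ⌈(L0 + 12) / (69 / 100)⌉₊ ≤ M)
  have hM1 : 1 ≤ M := by omega
  have hI1 : 1 ≤ I := by omega
  rw [div_le_iff₀ (by norm_num)] at hM'
  have hl2 := Real.log_two_gt_d9
  set Q := PL M (i + 1) \ PL M i with hQ
  have hQI : Q ⊆ PL M I := Finset.sdiff_subset.trans (PL_mono M (by omega))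
  have hlQ : lam Q = la M (i + 1) - la M i := lam_sdiff (PL_mono M (by omega))
  have hw := w01 M I I Q hQI
  have hw2 := w01 M I I (PL M I \ PL M i) Finset.sdiff_subset
  have hw3 := w01 M I I (PL M I \ PL M (i + 1)) Finset.sdiff_subset
  have h1 : L0 ≤ ∑ p ∈ Q, w (sg M I) p := by
    have h2 := sum_diff_le M I hM1 hI1 Q hQI
    have h3 : lam Q = ∑ p ∈ Q, (1 : ℝ) / p := rfl
    rw [← h3, hlQ] at h2
    have h4 := la_diff M i (i + 1)
    push_cast at h4
    have h5 : (M : ℝ) * ((i : ℝ) + 1 - i) * Real.log 2 = M * Real.log 2 := by ring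
    rw [h5] at h4
    have h6 : (M : ℝ) * (69 / 100) ≤ M * Real.log 2 := by
      apply mul_le_mul_of_nonneg_left _ (by positivity)
      linarith
    linarith
  have h2 := hblock Q (w (sg M I)) hw.1 hw.2 (sum_w_sq_le Q hQI) h1
  have h3 : ∑ p ∈ Q, w (sg M I) p ≤ la M (i + 1) - la M i := by
    rw [← hlQ]; exact sum_w_le Q
  have h4 : Real.exp (-(85 / 10000) * (la M (i + 1) - la M i)) ≤
      E Q (w (sg M I)) (fun S => if (S.card : ℝ) ≤ (89 / 100) * (la M (i + 1) - la M i) then 1 else 0) := by
    calc Real.exp (-(85 / 10000) * (la M (i + 1) - la M i))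
        ≤ Real.exp (-(85 / 10000) * ∑ p ∈ Q, w (sg M I) p) := by
          apply Real.exp_le_exp.2; linarith
      _ ≤ _ := h2
      _ ≤ _ := by
          apply E_mono hw.1 hw.2
          intro S _
          split_ifs with g1 g2
          · exact le_rfl
          · exfalso; apply g2; linarith
          · norm_num
          · norm_num
  unfold pr
  rw [sdiff_union_level (M := M) (i := i) (j := i + 1) (I := I) (by omega) (by omega),
    E_union disj_level]
  calc Real.exp (-(85 / 10000) * (la M (i + 1) - la M i)) *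
      E (PL M I \ PL M (i + 1)) (w (sg M I)) (fun S => if G M i1 I (i + 1) S then 1 else 0)
      ≤ E Q (w (sg M I)) (fun S => if (S.card : ℝ) ≤ (89 / 100) * (la M (i + 1) - la M i) then 1 else 0) *
        E (PL M I \ PL M (i + 1)) (w (sg M I)) (fun S => if G M i1 I (i + 1) S then 1 else 0) := by
        apply mul_le_mul_of_nonneg_right h4
        apply E_nonneg hw3.1 hw3.2
        intro S _
        split_ifs <;> norm_num
    _ = E Q (w (sg M I)) (fun S₁ =>
          E (PL M I \ PL M (i + 1)) (w (sg M I)) (fun S₂ =>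
            (if (S₁.card : ℝ) ≤ (89 / 100) * (la M (i + 1) - la M i) then 1 else 0) *
            (if G M i1 I (i + 1) S₂ then 1 else 0))) := by
        rw [mul_comm, ← E_smul]
        congr 1
        funext S₁
        rw [E_smul, mul_comm]
    _ ≤ _ := by
        apply E_mono hw.1 hw.2
        intro S₁ hS₁
        apply E_mono hw3.1 hw3.2
        intro S₂ hS₂
        by_cases g1 : (S₁.card : ℝ) ≤ (89 / 100) * (la M (i + 1) - la M i)
        · by_cases g2 : G M i1 I (i + 1) S₂
          · have g3 : G M i1 I i (S₁ ∪ S₂) := by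
              constructor
              · intro j hj1 hj2
                rcases Nat.eq_or_lt_of_le hj1 with hj3 | hj3
                · subst hj3
                  have e : (S₁ ∪ S₂) ∩ (PL M (i + 1) \ PL M i) = S₁ := by
                    ext p
                    simp only [Finset.mem_inter, Finset.mem_union]
                    constructor
                    · rintro ⟨h5 | h5, h6⟩
                      · exact h5
                      · exfalso
                        exact (Finset.mem_sdiff.1 (hS₂ h5)).2 (Finset.mem_sdiff.1 h6).1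
                    · intro h5; exact ⟨Or.inl h5, hS₁ h5⟩
                  rw [e]; exact g1
                · refine le_trans ?_ (g2.1 j hj3 hj2)
                  have e : (S₁ ∪ S₂) ∩ (PL M (j + 1) \ PL M j) ⊆ S₂ ∩ (PL M (j + 1) \ PL M j) := by
                    intro p
                    simp only [Finset.mem_inter, Finset.mem_union]
                    rintro ⟨h5 | h5, h6⟩
                    · exfalso
                      have h7 := (Finset.mem_sdiff.1 (hS₁ h5)).1
                      exact (Finset.mem_sdiff.1 h6).2 (PL_mono M hj3 h7)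
                    · exact ⟨h5, h6⟩
                  exact_mod_cast Finset.card_le_card e
              · intro j hj1 hj2
                refine le_trans ?_ (g2.2 j hj1 hj2)
                have e : (S₁ ∪ S₂) ∩ (PL M j \ PL M i1) ⊆ S₂ ∩ (PL M j \ PL M i1) := by
                  intro p
                  simp only [Finset.mem_inter, Finset.mem_union]
                  rintro ⟨h5 | h5, h6⟩
                  · exfalso
                    have h7 := (Finset.mem_sdiff.1 (hS₁ h5)).1
                    exact (Finset.mem_sdiff.1 h6).2 (PL_mono M (by omega) h7)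
                  · exact ⟨h5, h6⟩
                exact_mod_cast Finset.card_le_card e
            rw [if_pos g1, if_pos g2, if_pos g3]; norm_num
          · rw [if_neg g2]; split_ifs <;> norm_num
        · rw [if_neg g1]; split_ifs <;> norm_num

theorem pr_chain : ∃ M0 : ℕ, ∀ M, M0 ≤ M → ∀ i0 i1 I i : ℕ, i0 ≤ i → i ≤ i1 → i1 ≤ I →
    Real.exp (-(85 / 10000) * (la M i - la M i0)) * pr M i1 I i ≤ pr M i1 I i0 := by
  obtain ⟨M0, h0⟩ := pr_step
  refine ⟨M0, ?_⟩
  intro M hM i0 i1 I i hi hi1 hI
  induction i, hi using Nat.le_induction with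
  | base => simp
  | succ i hi ih =>
    have h1 := ih (by omega)
    have h2 := h0 M hM i1 I i (by omega) hI
    refine le_trans ?_ h1
    calc Real.exp (-(85 / 10000) * (la M (i + 1) - la M i0)) * pr M i1 I (i + 1)
        = Real.exp (-(85 / 10000) * (la M i - la M i0)) *
          (Real.exp (-(85 / 10000) * (la M (i + 1) - la M i)) * pr M i1 I (i + 1)) := by
          rw [← mul_assoc, ← Real.exp_add]; congr 2; ring
      _ ≤ _ := by gcongr

end Pool.Agent.EG327
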