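import Pool.Agent.EG327.Brun

set_option autoImplicit false

namespace Pool.Agent.EG327

open Finset Real

theorem tail_bound (U L : ℝ) (n : ℕ) (hU0 : 0 ≤ U) (hU : U ≤ 3 * L) (hn : 14 * L ≤ n) :
    U ^ n / (n.factorial : ℝ) ≤ Real.exp (-3 * L) := by
  have hL : 0 ≤ L := by linarith
  have h1 : (8 * U) ^ n / (n.factorial : ℝ) ≤ Real.exp (8 * U) :=
    Real.pow_div_factorial_le_exp _ (by positivity) n
  have h2 : U ^ n / (n.factorial : ℝ) = ((8 * U) ^ n / (n.factorial : ℝ)) * Real.exp (-(n * Real.log 8)) := by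
    have : Real.exp (-(n * Real.log 8)) = ((8 : ℝ) ^ n)⁻¹ := by
      rw [Real.exp_neg, mul_comm, ← Real.rpow_def_of_pos (by norm_num), Real.rpow_natCast]
    rw [this, mul_pow]
    field_simp
  rw [h2]
  have h8 : 2.07 ≤ Real.log 8 := by
    rw [show (8 : ℝ) = 2 ^ 3 by norm_num, Real.log_pow]
    have := Real.log_two_gt_d9
    push_cast; linarith
  calc ((8 * U) ^ n / (n.factorial : ℝ)) * Real.exp (-(n * Real.log 8))
      ≤ Real.exp (8 * U) * Real.exp (-(n * Real.log 8)) := by gcongr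
    _ = Real.exp (8 * U - n * Real.log 8) := by rw [← Real.exp_add]; ring_nf
    _ ≤ Real.exp (-3 * L) := by
        apply Real.exp_le_exp.2
        have h3 : 14 * L * 2.07 ≤ n * Real.log 8 := by
          apply mul_le_mul hn h8 (by norm_num) (by positivity)
        linarith

theorem one_add_sum_le (y : ℕ) (hy : 2 ≤ y) (P : Finset ℕ) (hP : P ⊆ PP y) :
    1 + ∑ p ∈ P, (p : ℝ) ≤ (y : ℝ) ^ 2 := by
  have h1 : ∑ p ∈ P, (p : ℝ) ≤ ∑ p ∈ P, (y : ℝ) := by
    apply Finset.sum_le_sum
    intro p hp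
    exact_mod_cast (mem_PP.1 (hP hp)).2.1
  have h2 : P.card ≤ y - 2 := by
    calc P.card ≤ (Finset.Icc 3 y).card := by
          apply Finset.card_le_card
          intro p hp
          have := mem_PP.1 (hP hp)
          rw [Finset.mem_Icc]; exact ⟨this.1, this.2.1⟩
      _ = y - 2 := by rw [Nat.card_Icc]; omega
  have hy' : (2 : ℝ) ≤ y := by exact_mod_cast hy
  have h3 : (P.card : ℝ) ≤ (y : ℝ) - 2 := by
    have : (P.card : ℝ) ≤ ((y - 2 : ℕ) : ℝ) := by exact_mod_cast h2
    rwa [Nat.cast_sub hy] at this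
  have h4 : ∑ p ∈ P, (y : ℝ) = P.card * y := by rw [Finset.sum_const, nsmul_eq_mul]
  rw [h4] at h1
  nlinarith

/-- Brun's sieve with clean error terms -/
theorem brun_clean (y : ℕ) (hy : 2 ≤ y) (P : Finset ℕ) (hP : P ⊆ PP y) (u : ℕ → ℕ → ℝ)
    (hu0 : ∀ p ∈ P, ∀ s, 0 ≤ u p s) (hu1 : ∀ p ∈ P, ∀ s, u p s ≤ 1)
    (hper : ∀ p ∈ P, ∀ s, u p (s + p) = u p s) (L : ℝ) (hL : 0 ≤ L)
    (havg : ∑ p ∈ P, avg u p ≤ 3 * L) (a N : ℕ) (hN : 1 ≤ N)
    (hlog : (28 * L + 4) * Real.log y + 3 * L ≤ Real.log N) :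
    ∑ i ∈ Finset.range N, ∏ p ∈ P, (1 - u p (a + i)) ≤
      N * ∏ p ∈ P, (1 - avg u p) + 2 * N * Real.exp (-3 * L) := by
  have hPp : ∀ p ∈ P, p.Prime := fun p hp => (mem_PP.1 (hP hp)).2.2
  have hav0 : ∀ p ∈ P, 0 ≤ avg u p := fun p hp => avg_nonneg u p (hu0 p hp)
  set r := ⌈7 * L⌉₊ with hr
  have hr1 : 7 * L ≤ r := Nat.le_ceil _
  have hr2 : (r : ℝ) < 7 * L + 1 := Nat.ceil_lt_add_one (by positivity)
  have h := brun P hPp u hu0 hu1 hper a N r
  have hN0 : (0 : ℝ) < N := by exact_mod_cast hN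
  have h1 := tail_bound (∑ p ∈ P, avg u p) L (2 * r + 1) (Finset.sum_nonneg hav0) havg
    (by push_cast; linarith)
  have hy' : (2 : ℝ) ≤ y := by exact_mod_cast hy
  have hlogy : 0 < Real.log y := Real.log_pos (by linarith)
  have h2 : (1 + ∑ p ∈ P, (p : ℝ)) ^ (2 * r) ≤ N * Real.exp (-3 * L) := by
    have h3 := one_add_sum_le y hy P hP
    have h0 : 0 ≤ 1 + ∑ p ∈ P, (p : ℝ) := by
      have : 0 ≤ ∑ p ∈ P, (p : ℝ) := Finset.sum_nonneg fun _ _ => by positivity
      linarith
    calc (1 + ∑ p ∈ P, (p : ℝ)) ^ (2 * r) ≤ ((y : ℝ) ^ 2) ^ (2 * r) := pow_le_pow_left₀ h0 h3 _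
      _ = Real.exp (4 * r * Real.log y) := by
          rw [← pow_mul, ← Real.rpow_natCast, Real.rpow_def_of_pos (by linarith)]
          congr 1
          push_cast; ring
      _ ≤ Real.exp (Real.log N + -3 * L) := by
          apply Real.exp_le_exp.2
          have : 4 * r * Real.log y ≤ (28 * L + 4) * Real.log y := by
            apply mul_le_mul_of_nonneg_right _ hlogy.le
            linarith
          linarith
      _ = N * Real.exp (-3 * L) := by rw [Real.exp_add, Real.exp_log hN0]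
  have h4 : N * ((∑ p ∈ P, avg u p) ^ (2 * r + 1) / ((2 * r + 1).factorial : ℝ)) ≤
      N * Real.exp (-3 * L) := by gcongr
  linarith

/-- the two dimensional weight -/
noncomputable def wt (α β γ : ℕ → ℝ) (m s p : ℕ) : ℝ :=
  if p ∣ s then α p else if p ∣ m then β p else if s % p = m % p then γ p else 1

theorem sum_ite_two (p b : ℕ) (hb0 : b ≠ 0) (hb : b < p) (A C : ℝ) :
    ∑ a ∈ Finset.range p, (if p ∣ a then A else if a % p = b then C else 0) = A + C := by
  have h1 : ∀ a ∈ Finset.range p, (if p ∣ a then A else if a % p = b then C else 0) =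
      (if a = 0 then A else 0) + (if a = b then C else 0) := by
    intro a ha
    rw [Finset.mem_range] at ha
    rw [Nat.mod_eq_of_lt ha]
    by_cases h0 : a = 0
    · subst h0
      simp [Ne.symm hb0]
    · have : ¬ p ∣ a := fun h => h0 (Nat.eq_zero_of_dvd_of_lt h ha)
      simp [this, h0]
  rw [Finset.sum_congr rfl h1, Finset.sum_add_distrib, Finset.sum_ite_eq', Finset.sum_ite_eq']
  have : (0 : ℕ) ∈ Finset.range p := by rw [Finset.mem_range]; omega
  simp [this, Finset.mem_range.2 hb]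

theorem sum_ite_one (p : ℕ) (hp : 0 < p) (A C : ℝ) :
    ∑ a ∈ Finset.range p, (if p ∣ a then A else C) = A + (p - 1) * C := by
  have h1 : ∀ a ∈ Finset.range p, (if p ∣ a then A else C) =
      (if a = 0 then A - C else 0) + C := by
    intro a ha
    rw [Finset.mem_range] at ha
    by_cases h0 : a = 0
    · subst h0; simp
    · have : ¬ p ∣ a := fun h => h0 (Nat.eq_zero_of_dvd_of_lt h ha)
      simp [this, h0]
  rw [Finset.sum_congr rfl h1, Finset.sum_add_distrib, Finset.sum_ite_eq']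
  have : (0 : ℕ) ∈ Finset.range p := by rw [Finset.mem_range]; omega
  simp [this]
  ring

theorem two_dim (y : ℕ) (hy : 2 ≤ y) (P : Finset ℕ) (hP : P ⊆ PP y) (α β γ : ℕ → ℝ)
    (hα0 : ∀ p ∈ P, 0 ≤ α p) (hαβ : ∀ p ∈ P, α p ≤ β p) (hβ1 : ∀ p ∈ P, β p ≤ 1)
    (hγ0 : ∀ p ∈ P, 0 ≤ γ p) (hγ1 : ∀ p ∈ P, γ p ≤ 1) (S : ℕ) (hS : 1 ≤ S)
    (hlog : (28 * lam P + 4) * Real.log y + 3 * lam P ≤ Real.log S) :
    ∑ m ∈ Finset.range (2 * S), ∑ i ∈ Finset.range S, ∏ p ∈ P, wt α β γ m (S + 1 + i) p ≤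
      24 * (S : ℝ) ^ 2 * Real.exp (-∑ p ∈ P, (3 - α p - β p - γ p) / p) := by
  classical
  set L := lam P with hL
  have hL0 : 0 ≤ L := lam_nonneg P
  have hS0 : (0 : ℝ) < S := by exact_mod_cast hS
  have hp3 : ∀ p ∈ P, (3 : ℝ) ≤ p := fun p hp => by exact_mod_cast (mem_PP.1 (hP hp)).1
  have hpp : ∀ p ∈ P, p.Prime := fun p hp => (mem_PP.1 (hP hp)).2.2
  have hα1 : ∀ p ∈ P, α p ≤ 1 := fun p hp => (hαβ p hp).trans (hβ1 p hp)
  have hβ0 : ∀ p ∈ P, 0 ≤ β p := fun p hp => (hα0 p hp).trans (hαβ p hp)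
  -- the inner sum
  set g : ℕ → ℕ → ℝ := fun p m => if p ∣ m then 1 - β p else (2 - α p - γ p) / p with hg
  have hinner : ∀ m : ℕ, ∑ i ∈ Finset.range S, ∏ p ∈ P, wt α β γ m (S + 1 + i) p ≤
      S * ∏ p ∈ P, (1 - g p m) + 2 * S * Real.exp (-3 * L) := by
    intro m
    set P1 := P.filter (fun p => p ∣ m) with hP1
    set P2 := P.filter (fun p => ¬ p ∣ m) with hP2
    have hsplit : ∀ f : ℕ → ℝ, ∏ p ∈ P, f p = (∏ p ∈ P1, f p) * ∏ p ∈ P2, f p := fun f =>
      (Finset.prod_filter_mul_prod_filter_not P _ f).symm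
    set u : ℕ → ℕ → ℝ := fun p s => if p ∣ s then 1 - α p else if s % p = m % p then 1 - γ p else 0 with hu
    have hP2P : ∀ p ∈ P2, p ∈ P := fun p hp => (Finset.mem_filter.1 hp).1
    have hP2m : ∀ p ∈ P2, ¬ p ∣ m := fun p hp => (Finset.mem_filter.1 hp).2
    have hu0 : ∀ p ∈ P2, ∀ s, 0 ≤ u p s := by
      intro p hp s
      simp only [hu]
      split_ifs
      · linarith [hα1 p (hP2P p hp)]
      · linarith [hγ1 p (hP2P p hp)]
      · exact le_rfl
    have hu1 : ∀ p ∈ P2, ∀ s, u p s ≤ 1 := by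
      intro p hp s
      simp only [hu]
      split_ifs
      · linarith [hα0 p (hP2P p hp)]
      · linarith [hγ0 p (hP2P p hp)]
      · norm_num
    have hper : ∀ p ∈ P2, ∀ s, u p (s + p) = u p s := by
      intro p hp s
      simp only [hu, Nat.dvd_add_self_right, Nat.add_mod_right]
    have hav : ∀ p ∈ P2, avg u p = (2 - α p - γ p) / p := by
      intro p hp
      unfold avg
      have hm0 : m % p ≠ 0 := fun h => hP2m p hp (Nat.dvd_of_mod_eq_zero h)
      have hmp : m % p < p := Nat.mod_lt _ (hpp p (hP2P p hp)).pos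
      have := sum_ite_two p (m % p) hm0 hmp (1 - α p) (1 - γ p)
      simp only [hu]
      rw [this]
      congr 1; ring
    have havsum : ∑ p ∈ P2, avg u p ≤ 3 * L := by
      rw [hL, lam, Finset.mul_sum]
      calc ∑ p ∈ P2, avg u p ≤ ∑ p ∈ P2, 3 * (1 / (p : ℝ)) := by
            apply Finset.sum_le_sum
            intro p hp
            rw [hav p hp]
            have h3 := hp3 p (hP2P p hp)
            have : 2 - α p - γ p ≤ 3 := by linarith [hα0 p (hP2P p hp), hγ0 p (hP2P p hp)]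
            calc (2 - α p - γ p) / p ≤ 3 / p := by gcongr
              _ = 3 * (1 / (p : ℝ)) := by ring
        _ ≤ _ := by
            apply Finset.sum_le_sum_of_subset_of_nonneg (Finset.filter_subset _ _)
            intro p _ _; positivity
    have hb := brun_clean y hy P2 ((Finset.filter_subset _ _).trans hP) u hu0 hu1 hper L hL0 havsum
      (S + 1) S hS hlog
    have hpt : ∀ i ∈ Finset.range S, ∏ p ∈ P, wt α β γ m (S + 1 + i) p ≤
        (∏ p ∈ P1, β p) * ∏ p ∈ P2, (1 - u p (S + 1 + i)) := by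
      intro i _
      rw [hsplit]
      apply mul_le_mul
      · apply Finset.prod_le_prod
        · intro p hp
          have hpP := (Finset.mem_filter.1 hp).1
          unfold wt; split_ifs
          · exact hα0 p hpP
          · exact hβ0 p hpP
          · exact hγ0 p hpP
          · norm_num
        · intro p hp
          have hpP := (Finset.mem_filter.1 hp).1
          have hpm := (Finset.mem_filter.1 hp).2
          unfold wt
          simp only [hpm, if_true]
          split_ifs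
          · exact hαβ p hpP
          · exact le_rfl
      · apply le_of_eq
        apply Finset.prod_congr rfl
        intro p hp
        have hpm := hP2m p hp
        unfold wt
        simp only [hu, hpm, if_false]
        split_ifs <;> ring
      · apply Finset.prod_nonneg
        intro p hp
        have hpP := hP2P p hp
        unfold wt; split_ifs
        · exact hα0 p hpP
        · exact hβ0 p hpP
        · exact hγ0 p hpP
        · norm_num
      · apply Finset.prod_nonneg
        intro p hp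
        exact hβ0 p (Finset.mem_filter.1 hp).1
    have hβprod0 : 0 ≤ ∏ p ∈ P1, β p :=
      Finset.prod_nonneg fun p hp => hβ0 p (Finset.mem_filter.1 hp).1
    have hβprod1 : ∏ p ∈ P1, β p ≤ 1 :=
      Finset.prod_le_one (fun p hp => hβ0 p (Finset.mem_filter.1 hp).1)
        (fun p hp => hβ1 p (Finset.mem_filter.1 hp).1)
    calc ∑ i ∈ Finset.range S, ∏ p ∈ P, wt α β γ m (S + 1 + i) p
        ≤ ∑ i ∈ Finset.range S, (∏ p ∈ P1, β p) * ∏ p ∈ P2, (1 - u p (S + 1 + i)) :=
          Finset.sum_le_sum hpt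
      _ = (∏ p ∈ P1, β p) * ∑ i ∈ Finset.range S, ∏ p ∈ P2, (1 - u p (S + 1 + i)) := by
          rw [Finset.mul_sum]
      _ ≤ (∏ p ∈ P1, β p) * (S * ∏ p ∈ P2, (1 - avg u p) + 2 * S * Real.exp (-3 * L)) := by
          gcongr
      _ = S * ((∏ p ∈ P1, β p) * ∏ p ∈ P2, (1 - avg u p)) +
          (∏ p ∈ P1, β p) * (2 * S * Real.exp (-3 * L)) := by ring
      _ ≤ S * ((∏ p ∈ P1, β p) * ∏ p ∈ P2, (1 - avg u p)) +
          1 * (2 * S * Real.exp (-3 * L)) := by gcongr
      _ = S * ∏ p ∈ P, (1 - g p m) + 2 * S * Real.exp (-3 * L) := by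
          rw [hsplit (fun p => 1 - g p m), one_mul]
          congr 3
          · apply Finset.prod_congr rfl
            intro p hp
            have hpm := (Finset.mem_filter.1 hp).2
            simp [hg, hpm]
          · apply Finset.prod_congr rfl
            intro p hp
            rw [hav p hp]
            have hpm := hP2m p hp
            simp [hg, hpm]
  -- the outer sum
  have hg0 : ∀ p ∈ P, ∀ m, 0 ≤ g p m := by
    intro p hp m
    simp only [hg]
    split_ifs
    · linarith [hβ1 p hp]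
    · have := hp3 p hp
      have : 0 ≤ 2 - α p - γ p := by linarith [hα1 p hp, hγ1 p hp]
      positivity
  have hg1 : ∀ p ∈ P, ∀ m, g p m ≤ 1 := by
    intro p hp m
    simp only [hg]
    split_ifs
    · linarith [hβ0 p hp]
    · have h3 := hp3 p hp
      rw [div_le_one (by linarith)]
      linarith [hα0 p hp, hγ0 p hp]
  have hgper : ∀ p ∈ P, ∀ s, g p (s + p) = g p s := by
    intro p hp s
    simp only [hg, Nat.dvd_add_self_right]
  have hgav : ∀ p ∈ P, avg g p = (3 - α p - β p - γ p) / p - (2 - α p - γ p) / p ^ 2 := by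
    intro p hp
    unfold avg
    have h3 := hp3 p hp
    simp only [hg]
    rw [sum_ite_one p (hpp p hp).pos]
    field_simp
    ring
  have hgsum : ∑ p ∈ P, avg g p ≤ 3 * L := by
    rw [hL, lam, Finset.mul_sum]
    apply Finset.sum_le_sum
    intro p hp
    rw [hgav p hp]
    have h3 := hp3 p hp
    have h4 : 3 - α p - β p - γ p ≤ 3 := by linarith [hα0 p hp, hβ0 p hp, hγ0 p hp]
    have h5 : 0 ≤ (2 - α p - γ p) / (p : ℝ) ^ 2 := by
      have : 0 ≤ 2 - α p - γ p := by linarith [hα1 p hp, hγ1 p hp]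
      positivity
    calc (3 - α p - β p - γ p) / p - (2 - α p - γ p) / p ^ 2 ≤ (3 - α p - β p - γ p) / p := by linarith
      _ ≤ 3 / p := by gcongr
      _ = 3 * (1 / (p : ℝ)) := by ring
  have hlog2 : (28 * L + 4) * Real.log y + 3 * L ≤ Real.log ((2 * S : ℕ) : ℝ) := by
    refine hlog.trans ?_
    apply Real.log_le_log hS0
    push_cast; linarith
  have hout := brun_clean y hy P hP g hg0 hg1 hgper L hL0 hgsum 0 (2 * S) (by omega) hlog2
  simp only [zero_add] at hout
  -- product bound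
  have hprod : ∏ p ∈ P, (1 - avg g p) ≤
      Real.exp 2 * Real.exp (-∑ p ∈ P, (3 - α p - β p - γ p) / p) := by
    calc ∏ p ∈ P, (1 - avg g p) ≤ ∏ p ∈ P, Real.exp (-avg g p) := by
          apply Finset.prod_le_prod
          · intro p hp
            have := avg_le_one g p (hpp p hp).pos (hg1 p hp)
            linarith
          · intro p hp
            have := Real.add_one_le_exp (-avg g p)
            linarith
      _ = Real.exp (∑ p ∈ P, -avg g p) := by rw [Real.exp_sum]
      _ ≤ Real.exp (2 + -∑ p ∈ P, (3 - α p - β p - γ p) / p) := by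
          apply Real.exp_le_exp.2
          have h1 : ∑ p ∈ P, -avg g p = -∑ p ∈ P, (3 - α p - β p - γ p) / p +
              ∑ p ∈ P, (2 - α p - γ p) / p ^ 2 := by
            rw [← Finset.sum_neg_distrib, ← Finset.sum_add_distrib]
            apply Finset.sum_congr rfl
            intro p hp
            rw [hgav p hp]; ring
          rw [h1]
          have h2 : ∑ p ∈ P, (2 - α p - γ p) / (p : ℝ) ^ 2 ≤ 2 := by
            calc ∑ p ∈ P, (2 - α p - γ p) / (p : ℝ) ^ 2 ≤ ∑ p ∈ P, 2 * (1 / (p : ℝ) ^ 2) := by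
                  apply Finset.sum_le_sum
                  intro p hp
                  have h3 := hp3 p hp
                  have h4 : 2 - α p - γ p ≤ 2 := by linarith [hα0 p hp, hγ0 p hp]
                  calc (2 - α p - γ p) / (p : ℝ) ^ 2 ≤ 2 / (p : ℝ) ^ 2 := by gcongr
                    _ = _ := by ring
              _ = 2 * ∑ p ∈ P, 1 / (p : ℝ) ^ 2 := by rw [Finset.mul_sum]
              _ ≤ 2 * 1 := by
                  have := sum_inv_sq_le y P hP
                  linarith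
              _ = 2 := by norm_num
          linarith
      _ = _ := by rw [Real.exp_add]
  set W := Real.exp (-∑ p ∈ P, (3 - α p - β p - γ p) / p) with hW
  have hW0 : 0 < W := Real.exp_pos _
  have hexpW : Real.exp (-3 * L) ≤ W := by
    rw [hW]
    apply Real.exp_le_exp.2
    have : ∑ p ∈ P, (3 - α p - β p - γ p) / p ≤ 3 * L := by
      rw [hL, lam, Finset.mul_sum]
      apply Finset.sum_le_sum
      intro p hp
      have h3 := hp3 p hp
      have h4 : 3 - α p - β p - γ p ≤ 3 := by linarith [hα0 p hp, hβ0 p hp, hγ0 p hp]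
      calc (3 - α p - β p - γ p) / (p : ℝ) ≤ 3 / p := by gcongr
        _ = 3 * (1 / (p : ℝ)) := by ring
    linarith
  have he2 : Real.exp 2 ≤ 7.4 := by
    have h1 := Real.exp_one_lt_d9
    have : Real.exp 2 = Real.exp 1 * Real.exp 1 := by rw [← Real.exp_add]; norm_num
    rw [this]
    have h0 := Real.exp_pos 1
    nlinarith
  calc ∑ m ∈ Finset.range (2 * S), ∑ i ∈ Finset.range S, ∏ p ∈ P, wt α β γ m (S + 1 + i) p
      ≤ ∑ m ∈ Finset.range (2 * S), (S * ∏ p ∈ P, (1 - g p m) + 2 * S * Real.exp (-3 * L)) :=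
        Finset.sum_le_sum fun m _ => hinner m
    _ = S * ∑ m ∈ Finset.range (2 * S), ∏ p ∈ P, (1 - g p m) + 2 * S * (2 * S * Real.exp (-3 * L)) := by
        rw [Finset.sum_add_distrib, ← Finset.mul_sum, Finset.sum_const, Finset.card_range, nsmul_eq_mul]
        push_cast; ring
    _ ≤ S * (((2 * S : ℕ) : ℝ) * ∏ p ∈ P, (1 - avg g p) + 2 * ((2 * S : ℕ) : ℝ) * Real.exp (-3 * L)) +
        2 * S * (2 * S * Real.exp (-3 * L)) := by gcongr
    _ ≤ S * (((2 * S : ℕ) : ℝ) * (7.4 * W) + 2 * ((2 * S : ℕ) : ℝ) * W) +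
        2 * S * (2 * S * W) := by
        have : ∏ p ∈ P, (1 - avg g p) ≤ 7.4 * W := by
          refine hprod.trans ?_
          gcongr
        gcongr
    _ ≤ 24 * (S : ℝ) ^ 2 * W := by
        push_cast
        have : 0 ≤ (S : ℝ) ^ 2 * W := by positivity
        nlinarith

end Pool.Agent.EG327
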