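import Pool.Agent.EG327.TwoDim

set_option autoImplicit false

namespace Pool.Agent.EG327

open Finset Real

/-! ### Finite product measure on subsets of a finite set of primes -/

/-- expectation of `F S` where `S ⊆ P` contains each `p` independently with probability `q p` -/
noncomputable def E (P : Finset ℕ) (q : ℕ → ℝ) (F : Finset ℕ → ℝ) : ℝ :=
  ∑ S ∈ P.powerset, (∏ p ∈ S, q p) * (∏ p ∈ P \ S, (1 - q p)) * F S

theorem E_empty (q : ℕ → ℝ) (F : Finset ℕ → ℝ) : E ∅ q F = F ∅ := by
  simp [E]

theorem E_insert {P : Finset ℕ} {a : ℕ} (ha : a ∉ P) (q : ℕ → ℝ) (F : Finset ℕ → ℝ) :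
    E (insert a P) q F = (1 - q a) * E P q F + q a * E P q (fun S => F (insert a S)) := by
  unfold E
  rw [Finset.sum_powerset_insert ha, Finset.mul_sum, Finset.mul_sum]
  congr 1
  · apply Finset.sum_congr rfl
    intro S hS
    have hS' := Finset.mem_powerset.1 hS
    have haS : a ∉ S := fun h => ha (hS' h)
    rw [Finset.insert_sdiff_of_notMem _ haS, Finset.prod_insert (by simp [ha])]
    ring
  · apply Finset.sum_congr rfl
    intro S hS
    have hS' := Finset.mem_powerset.1 hS
    have haS : a ∉ S := fun h => ha (hS' h)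
    have e1 : insert a P \ insert a S = P \ S := by
      ext x
      simp only [Finset.mem_sdiff, Finset.mem_insert, not_or]
      constructor
      · rintro ⟨h1 | h1, h2, h3⟩
        · exact absurd h1 h2
        · exact ⟨h1, h3⟩
      · rintro ⟨h1, h2⟩
        exact ⟨Or.inr h1, fun h => ha (h ▸ h1), h2⟩
    rw [e1, Finset.prod_insert haS]
    ring

theorem E_congr {P : Finset ℕ} {q : ℕ → ℝ} {F G : Finset ℕ → ℝ} (h : ∀ S, S ⊆ P → F S = G S) :
    E P q F = E P q G := by
  unfold E
  apply Finset.sum_congr rfl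
  intro S hS
  rw [h S (Finset.mem_powerset.1 hS)]

theorem E_mono {P : Finset ℕ} {q : ℕ → ℝ} (hq0 : ∀ p ∈ P, 0 ≤ q p) (hq1 : ∀ p ∈ P, q p ≤ 1)
    {F G : Finset ℕ → ℝ} (h : ∀ S, S ⊆ P → F S ≤ G S) : E P q F ≤ E P q G := by
  unfold E
  apply Finset.sum_le_sum
  intro S hS
  have hS' := Finset.mem_powerset.1 hS
  apply mul_le_mul_of_nonneg_left (h S hS')
  apply mul_nonneg
  · exact Finset.prod_nonneg fun p hp => hq0 p (hS' hp)
  · apply Finset.prod_nonneg
    intro p hp
    have := hq1 p (Finset.mem_sdiff.1 hp).1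
    linarith

theorem E_const (P : Finset ℕ) (q : ℕ → ℝ) (c : ℝ) : E P q (fun _ => c) = c := by
  induction P using Finset.induction_on with
  | empty => rw [E_empty]
  | insert a P ha ih => rw [E_insert ha, ih]; ring

theorem E_add (P : Finset ℕ) (q : ℕ → ℝ) (F G : Finset ℕ → ℝ) :
    E P q (fun S => F S + G S) = E P q F + E P q G := by
  unfold E
  rw [← Finset.sum_add_distrib]
  apply Finset.sum_congr rfl
  intro S _; ring

theorem E_smul (P : Finset ℕ) (q : ℕ → ℝ) (c : ℝ) (F : Finset ℕ → ℝ) :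
    E P q (fun S => c * F S) = c * E P q F := by
  unfold E
  rw [Finset.mul_sum]
  apply Finset.sum_congr rfl
  intro S _; ring

theorem E_sum (P : Finset ℕ) (q : ℕ → ℝ) {ι : Type*} (s : Finset ι) (F : ι → Finset ℕ → ℝ) :
    E P q (fun S => ∑ i ∈ s, F i S) = ∑ i ∈ s, E P q (F i) := by
  unfold E
  rw [Finset.sum_comm]
  apply Finset.sum_congr rfl
  intro S _
  rw [Finset.mul_sum]

theorem E_nonneg {P : Finset ℕ} {q : ℕ → ℝ} (hq0 : ∀ p ∈ P, 0 ≤ q p) (hq1 : ∀ p ∈ P, q p ≤ 1)
    {F : Finset ℕ → ℝ} (h : ∀ S, S ⊆ P → 0 ≤ F S) : 0 ≤ E P q F := by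
  have := E_mono hq0 hq1 (F := fun _ => 0) (G := F) h
  rwa [E_const] at this

/-- Fubini -/
theorem E_union {P₁ P₂ : Finset ℕ} (hd : Disjoint P₁ P₂) (q : ℕ → ℝ) (F : Finset ℕ → ℝ) :
    E (P₁ ∪ P₂) q F = E P₁ q (fun S₁ => E P₂ q (fun S₂ => F (S₁ ∪ S₂))) := by
  induction P₁ using Finset.induction_on generalizing F with
  | empty => rw [E_empty]; simp
  | insert a P ha ih =>
    have hd' : Disjoint P P₂ := Finset.disjoint_of_subset_left (Finset.subset_insert _ _) hd
    have ha2 : a ∉ P₂ := Finset.disjoint_left.1 hd (Finset.mem_insert_self _ _)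
    have ha' : a ∉ P ∪ P₂ := by simp [ha, ha2]
    rw [Finset.insert_union, E_insert ha', E_insert ha, ih hd', ih hd']
    simp only [Finset.insert_union]

/-- product formula -/
theorem E_prod (P : Finset ℕ) (q a b : ℕ → ℝ) :
    E P q (fun S => ∏ p ∈ P, (if p ∈ S then a p else b p)) = ∏ p ∈ P, (q p * a p + (1 - q p) * b p) := by
  induction P using Finset.induction_on with
  | empty => rw [E_empty]; simp
  | insert c P hc ih =>
    rw [E_insert hc, Finset.prod_insert hc, ← ih]
    have h1 : E P q (fun S => ∏ p ∈ insert c P, (if p ∈ S then a p else b p)) =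
        b c * E P q (fun S => ∏ p ∈ P, (if p ∈ S then a p else b p)) := by
      rw [← E_smul]
      apply E_congr
      intro S hS
      rw [Finset.prod_insert hc, if_neg (fun h => hc (hS h))]
    have h2 : E P q (fun S => ∏ p ∈ insert c P, (if p ∈ insert c S then a p else b p)) =
        a c * E P q (fun S => ∏ p ∈ P, (if p ∈ S then a p else b p)) := by
      rw [← E_smul]
      apply E_congr
      intro S hS
      rw [Finset.prod_insert hc, if_pos (Finset.mem_insert_self _ _)]
      congr 1
      apply Finset.prod_congr rfl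
      intro p hp
      have hpc : p ≠ c := fun h => hc (h ▸ hp)
      simp [hpc]
    rw [h1, h2]; ring

/-! ### Zeta weights -/

/-- the weight `k^{-σ}` (with value `0` at `0`) -/
noncomputable def w (σ : ℝ) (k : ℕ) : ℝ := (k : ℝ) ^ (-σ)

/-- total mass -/
noncomputable def Z (σ : ℝ) : ℝ := ∑' k : ℕ, w σ k

/-- primes of `P` dividing `k` -/
def D (P : Finset ℕ) (k : ℕ) : Finset ℕ := P.filter (fun p => p ∣ k)

theorem mem_D {P : Finset ℕ} {k p : ℕ} : p ∈ D P k ↔ p ∈ P ∧ p ∣ k := by simp [D]

theorem w_nonneg (σ : ℝ) (k : ℕ) : 0 ≤ w σ k := by unfold w; positivity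

theorem w_zero {σ : ℝ} (hσ : 1 < σ) : w σ 0 = 0 := by
  unfold w
  rw [Nat.cast_zero, Real.zero_rpow (by linarith)]

theorem w_one (σ : ℝ) : w σ 1 = 1 := by simp [w]

theorem w_mul (σ : ℝ) (a b : ℕ) : w σ (a * b) = w σ a * w σ b := by
  unfold w
  push_cast
  exact Real.mul_rpow (by positivity) (by positivity)

theorem summable_w {σ : ℝ} (hσ : 1 < σ) : Summable (w σ) := by
  unfold w
  rw [Real.summable_nat_rpow]; linarith

theorem Z_pos {σ : ℝ} (hσ : 1 < σ) : 0 < Z σ := by
  unfold Z
  have h := (summable_w hσ).le_tsum 1 (fun j _ => w_nonneg σ j)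
  rw [w_one] at h
  linarith

theorem w_le_inv {σ : ℝ} (hσ : 1 < σ) (k : ℕ) : w σ k ≤ 1 / k := by
  rcases Nat.eq_zero_or_pos k with h | h
  · subst h; rw [w_zero hσ]; simp
  · unfold w
    have h1 : (1 : ℝ) ≤ k := by exact_mod_cast h
    calc (k : ℝ) ^ (-σ) ≤ (k : ℝ) ^ (-1 : ℝ) := Real.rpow_le_rpow_of_exponent_le h1 (by linarith)
      _ = 1 / k := by rw [Real.rpow_neg_one, one_div]

theorem w_le_one {σ : ℝ} (hσ : 1 < σ) (k : ℕ) : w σ k ≤ 1 := by
  refine (w_le_inv hσ k).trans ?_
  rcases Nat.eq_zero_or_pos k with h | h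
  · subst h; simp
  · have h1 : (1 : ℝ) ≤ k := by exact_mod_cast h
    rw [div_le_one (by linarith)]; exact h1

/-- sum over the multiples of `p` -/
theorem hasSum_multiples {σ : ℝ} {p : ℕ} (hp : 0 < p) {g : ℕ → ℝ} {a : ℝ}
    (h : HasSum (fun k => g (p * k) * w σ k) a) :
    HasSum (fun k => (if p ∣ k then g k else 0) * w σ k) (w σ p * a) := by
  have hinj : Function.Injective (fun k : ℕ => p * k) := fun a b hab => Nat.eq_of_mul_eq_mul_left hp hab
  have h2 := h.mul_left (w σ p)
  rw [← hinj.hasSum_iff]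
  · have e : ((fun k => (if p ∣ k then g k else 0) * w σ k) ∘ fun k => p * k) =
        fun i => w σ p * (g (p * i) * w σ i) := by
      funext k
      simp only [Function.comp, dvd_mul_right, if_true, w_mul]
      ring
    rw [e]; exact h2
  · intro x hx
    have : ¬ p ∣ x := by
      rintro ⟨k, rfl⟩
      exact hx ⟨k, rfl⟩
    simp [this]

theorem hasSum_E {σ : ℝ} (hσ : 1 < σ) (P : Finset ℕ) (hP : ∀ p ∈ P, p.Prime) (F : Finset ℕ → ℝ) :
    HasSum (fun k => F (D P k) * w σ k) (Z σ * E P (w σ) F) := by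
  induction P using Finset.induction_on generalizing F with
  | empty =>
    rw [E_empty]
    have h1 : ∀ k, D ∅ k = ∅ := fun k => by simp [D]
    simp only [h1]
    have := (summable_w hσ).hasSum.mul_left (F ∅)
    rw [mul_comm (Z σ)]
    exact this
  | insert a P ha ih =>
    have hP' : ∀ p ∈ P, p.Prime := fun p hp => hP p (Finset.mem_insert_of_mem hp)
    have hap : a.Prime := hP a (Finset.mem_insert_self _ _)
    rw [E_insert ha]
    have hDa : ∀ k, D P (a * k) = D P k := by
      intro k
      ext p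
      rw [mem_D, mem_D]
      constructor
      · rintro ⟨h1, h2⟩
        refine ⟨h1, ?_⟩
        rcases (hP' p h1).dvd_mul.1 h2 with h3 | h3
        · exfalso
          have := (Nat.prime_dvd_prime_iff_eq (hP' p h1) hap).1 h3
          exact ha (this ▸ h1)
        · exact h3
      · rintro ⟨h1, h2⟩
        exact ⟨h1, Dvd.dvd.mul_left h2 a⟩
    have h0 := ih hP' F
    have h1 := ih hP' (fun S => F (insert a S))
    have h2 : HasSum (fun k => (F (insert a (D P (a * k))) - F (D P (a * k))) * w σ k)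
        (Z σ * E P (w σ) (fun S => F (insert a S)) - Z σ * E P (w σ) F) := by
      have := h1.sub h0
      have e : (fun k => (F (insert a (D P (a * k))) - F (D P (a * k))) * w σ k) =
          fun b => F (insert a (D P b)) * w σ b - F (D P b) * w σ b := by
        funext k
        rw [hDa]; ring
      rw [e]; exact this
    have h3 := hasSum_multiples (σ := σ) hap.pos
      (g := fun k => F (insert a (D P k)) - F (D P k)) h2
    have h4 := h0.add h3
    have e1 : (fun k => F (D (insert a P) k) * w σ k) = fun b => F (D P b) * w σ b +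
        (if a ∣ b then F (insert a (D P b)) - F (D P b) else 0) * w σ b := by
      funext k
      have hD : D (insert a P) k = if a ∣ k then insert a (D P k) else D P k := by
        split_ifs with h
        · ext p; simp only [mem_D, Finset.mem_insert]
          constructor
          · rintro ⟨h1 | h1, h2⟩
            · left; exact h1
            · right; exact ⟨h1, h2⟩
          · rintro (h1 | h1)
            · subst h1; exact ⟨Or.inl rfl, h⟩
            · exact ⟨Or.inr h1.1, h1.2⟩
        · ext p; simp only [mem_D, Finset.mem_insert]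
          constructor
          · rintro ⟨h1 | h1, h5⟩
            · exact absurd (h1 ▸ h5) h
            · exact ⟨h1, h5⟩
          · rintro h1
            exact ⟨Or.inr h1.1, h1.2⟩
      rw [hD]
      split_ifs with h
      · ring
      · ring
    have e2 : Z σ * ((1 - w σ a) * E P (w σ) F + w σ a * E P (w σ) fun S => F (insert a S)) =
        Z σ * E P (w σ) F + w σ a * (Z σ * E P (w σ) (fun S => F (insert a S)) - Z σ * E P (w σ) F) := by
      ring
    rw [e1, e2]; exact h4

/-- mass of a set -/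
noncomputable def mass (σ : ℝ) (K : Set ℕ) : ℝ := ∑' k : ℕ, K.indicator (w σ) k

theorem summable_ind {σ : ℝ} (hσ : 1 < σ) (K : Set ℕ) : Summable (K.indicator (w σ)) :=
  (summable_w hσ).indicator K

theorem mass_nonneg (σ : ℝ) (K : Set ℕ) : 0 ≤ mass σ K :=
  tsum_nonneg fun k => Set.indicator_nonneg (fun _ _ => w_nonneg σ _) k

theorem mass_mono {σ : ℝ} (hσ : 1 < σ) {K L : Set ℕ} (h : K ⊆ L) : mass σ K ≤ mass σ L := by
  apply Summable.tsum_le_tsum _ (summable_ind hσ K) (summable_ind hσ L)
  intro k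
  exact Set.indicator_le_indicator_of_subset h (fun _ => w_nonneg σ _) k

theorem mass_union_le {σ : ℝ} (hσ : 1 < σ) (K L : Set ℕ) : mass σ (K ∪ L) ≤ mass σ K + mass σ L := by
  unfold mass
  rw [← (summable_ind hσ K).tsum_add (summable_ind hσ L)]
  apply Summable.tsum_le_tsum _ (summable_ind hσ _) ((summable_ind hσ K).add (summable_ind hσ L))
  intro k
  classical
  simp only [Set.indicator_apply, Set.mem_union]
  have := w_nonneg σ k
  split_ifs <;> simp_all

theorem mass_union_of_disjoint {σ : ℝ} (hσ : 1 < σ) {K L : Set ℕ} (h : Disjoint K L) :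
    mass σ (K ∪ L) = mass σ K + mass σ L := by
  unfold mass
  rw [← (summable_ind hσ K).tsum_add (summable_ind hσ L)]
  congr 1
  funext k
  rw [Set.indicator_union_of_disjoint h]

theorem mass_iUnion_le {σ : ℝ} (hσ : 1 < σ) {ι : Type*} (s : Finset ι) (K : ι → Set ℕ) :
    mass σ (⋃ i ∈ s, K i) ≤ ∑ i ∈ s, mass σ (K i) := by
  classical
  induction s using Finset.induction_on with
  | empty => simp [mass]
  | insert a s ha ih =>
    rw [Finset.sum_insert ha, Finset.set_biUnion_insert]
    refine (mass_union_le hσ _ _).trans ?_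
    linarith

/-- upper bound for the mass of a set by an expectation -/
theorem mass_le_E {σ : ℝ} (hσ : 1 < σ) (P : Finset ℕ) (hP : ∀ p ∈ P, p.Prime) (F : Finset ℕ → ℝ)
    (K : Set ℕ) (hF0 : ∀ S, S ⊆ P → 0 ≤ F S) (hF : ∀ k, k ∈ K → 1 ≤ F (D P k)) :
    mass σ K ≤ Z σ * E P (w σ) F := by
  have h := hasSum_E hσ P hP F
  rw [← h.tsum_eq]
  apply Summable.tsum_le_tsum _ (summable_ind hσ _) h.summable
  intro k
  classical
  rw [Set.indicator_apply]
  have h0 : 0 ≤ F (D P k) := hF0 _ (Finset.filter_subset _ _)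
  have hw := w_nonneg σ k
  split_ifs with hk
  · have := hF k hk
    nlinarith
  · positivity

/-- lower bound for the mass of a set -/
theorem le_mass_E {σ : ℝ} (hσ : 1 < σ) (P : Finset ℕ) (hP : ∀ p ∈ P, p.Prime) (F : Finset ℕ → ℝ)
    (K : Set ℕ) (hF1 : ∀ S, S ⊆ P → F S ≤ 1) (hF : ∀ k, 0 < k → k ∉ K → F (D P k) ≤ 0) :
    Z σ * E P (w σ) F ≤ mass σ K := by
  have h := hasSum_E hσ P hP F
  rw [← h.tsum_eq]
  apply Summable.tsum_le_tsum _ h.summable (summable_ind hσ _)
  intro k
  classical
  rw [Set.indicator_apply]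
  have h0 : F (D P k) ≤ 1 := hF1 _ (Finset.filter_subset _ _)
  have hw := w_nonneg σ k
  split_ifs with hk
  · nlinarith
  · rcases Nat.eq_zero_or_pos k with h0 | h0
    · subst h0; rw [w_zero hσ]; simp
    · have := hF k h0 hk
      nlinarith

/-- scaling -/
theorem mass_scale {σ : ℝ} (c : ℕ) (hc : 0 < c) (K : Set ℕ) :
    mass σ ((fun k => c * k) '' K) = w σ c * mass σ K := by
  classical
  have hinj : Function.Injective (fun k : ℕ => c * k) := fun a b hab => Nat.eq_of_mul_eq_mul_left hc hab
  unfold mass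
  rw [← tsum_mul_left]
  rw [← hinj.tsum_eq]
  · congr 1
    funext k
    simp only [Set.indicator_apply, hinj.mem_set_image, w_mul]
    split_ifs <;> simp
  · intro x hx
    rw [Function.mem_support, Set.indicator_apply] at hx
    have : x ∈ (fun k => c * k) '' K := by
      by_contra h
      simp [h] at hx
    obtain ⟨k, _, hk⟩ := this
    exact ⟨k, hk⟩

end Pool.Agent.EG327
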